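import Pool.Agent.Lib.MP_9b0fed_al.Defs

/-!
# MP_9b0fed_al: internal definitions

Monomial ideals are upper sets `A : Set (V → ℕ)` of exponent vectors.
-/

set_option autoImplicit false

open Finset

namespace Pool.Agent.MP_9b0fed_al

section faces

variable {V : Type} [Fintype V] [LinearOrder V]

/-- The boundary map of the simplex on `V` (coefficients of faces). -/
noncomputable def bd {k : Type*} [Field k] (f : Finset V → k) (σ : Finset V) : k :=
  ∑ v ∈ σᶜ, ((sg v σ : ℤ) : k) * f (insert v σ)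

/-- No homology of the family `F` of faces on faces of cardinality `i`. -/
def Acyc (k : Type*) [Field k] (F : Finset V → Prop) (i : ℕ) : Prop :=
  ∀ f : Finset V → k, (∀ τ, f τ ≠ 0 → F τ ∧ τ.card = i) → (∀ σ, bd f σ = 0) →
    ∃ g : Finset V → k, (∀ τ, g τ ≠ 0 → F τ ∧ τ.card = i + 1) ∧ ∀ σ, bd g σ = f σ

/-- Faces of the (upper) Koszul complex of the monomial ideal `A` in multidegree `b`:
`b - 1_τ ∈ A`. -/
def face (A : Set (V → ℕ)) (b : V → ℕ) (τ : Finset V) : Prop :=
  ∃ a ∈ A, ∀ v, a v + (if v ∈ τ then 1 else 0) = b v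

/-- `reg A ≤ r` for a monomial ideal `A`. -/
def Reg (k : Type*) [Field k] (A : Set (V → ℕ)) (r : ℕ) : Prop :=
  ∀ (b : V → ℕ) (i : ℕ), r + i < ∑ v, b v → Acyc k (face A b) i

/-- Unit vectors. -/
def ev (v : V) : V → ℕ := Pi.single v 1

/-- The colon ideal `A : x^m`. -/
def colon (A : Set (V → ℕ)) (m : V → ℕ) : Set (V → ℕ) := {a | a + m ∈ A}

/-- The ideal generated by the variables `x_v`, `v ∈ L`. -/
def VI (L : Set V) : Set (V → ℕ) := {a | ∃ v ∈ L, 1 ≤ a v}

/-- The ideal generated by the quadratic monomials `x_u x_v`, `R u v`. -/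
def QI (R : V → V → Prop) : Set (V → ℕ) := {a | ∃ u v, R u v ∧ ev u + ev v ≤ a}

/-- Elimination property of a relation (loops allowed); equivalent to linear quotients. -/
def EE (R : V → V → Prop) : Prop :=
  ∀ W : Finset V, W.Nonempty →
    ∃ w ∈ W, ∀ p ∈ W, ∀ q ∈ W, p ≠ w → q ≠ w → R p q → R w p ∨ R w q

/-- `Pw G q a`: `a` is the degree vector of a multiset of `q` edges of `G`. -/
inductive Pw (G : SimpleGraph V) : ℕ → (V → ℕ) → Prop
  | zero : Pw G 0 0
  | succ (q : ℕ) (a : V → ℕ) (u v : V) : Pw G q a → G.Adj u v → Pw G (q + 1) (a + ev u + ev v)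

/-- The exponents of the monomials in `I(G)^q`. -/
def IP (G : SimpleGraph V) (q : ℕ) : Set (V → ℕ) := {b | ∃ a, Pw G q a ∧ a ≤ b}

/-- The relation `J_a`. -/
def JJ (G : SimpleGraph V) (q : ℕ) (a : V → ℕ) (u v : V) : Prop := Pw G (q + 1) (a + ev u + ev v)

end faces

section matchings

variable {ι : Type} [DecidableEq ι]

/-- `PM adj S`: the finite set `S` has a perfect matching. -/
inductive PM (adj : ι → ι → Prop) : Finset ι → Prop
  | empty : PM adj ∅
  | step (S : Finset ι) (i j : ι) : PM adj S → i ∉ S → j ∉ S → i ≠ j → adj i j →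
      PM adj (insert i (insert j S))

/-- Dirac's property for the complement of `H` on the set `U`. -/
def DD {κ : Type} (H : SimpleGraph κ) (U : Set κ) : Prop :=
  ∀ W Z : Finset κ, (∀ i ∈ W, i ∈ U) → Z ⊆ W → Z ≠ W → (∀ a ∈ Z, ∀ b ∈ Z, ¬ H.Adj a b) →
    ∃ w ∈ W, w ∉ Z ∧ ∀ a ∈ W, ∀ b ∈ W, a ≠ w → b ≠ w → ¬ H.Adj w a → ¬ H.Adj w b → ¬ H.Adj a b

end matchings

end Pool.Agent.MP_9b0fed_al
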