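import Pool.Agent.Lib.MP_9b0fed_al.Basic

/-!
# MP_9b0fed_al JOB BD: boundary, cones, Mayer-Vietoris
-/

set_option autoImplicit false

open Finset

namespace Pool.Agent.MP_9b0fed_al

variable {V : Type} [Fintype V] [LinearOrder V] {k : Type*} [Field k]

omit [Fintype V] in
theorem bda_sg_insert (v w : V) (ρ : Finset V) (hv : v ∉ ρ) :
    sg w (insert v ρ) = (if v < w then -1 else 1) * sg w ρ := by
  unfold sg
  rw [Finset.filter_insert]
  split_ifs with h
  · rw [Finset.card_insert_of_notMem (fun h' => hv (Finset.mem_filter.1 h').1), pow_succ]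
    ring
  · rw [one_mul]

omit [Fintype V] in
theorem bda_sg_mul_self (v : V) (ρ : Finset V) : sg v ρ * sg v ρ = 1 := by
  unfold sg
  rw [← mul_pow]
  norm_num

omit [Fintype V] in
theorem bda_sg_rule (v w : V) (ρ : Finset V) (hv : v ∉ ρ) (hw : w ∉ ρ) (hvw : v ≠ w) :
    sg v ρ * sg w (insert v ρ) = - (sg w ρ * sg v (insert w ρ)) := by
  rw [bda_sg_insert v w ρ hv, bda_sg_insert w v ρ hw]
  rcases lt_or_gt_of_ne hvw with h | h
  · rw [if_pos h, if_neg (not_lt.2 h.le)]
    ring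
  · rw [if_neg (not_lt.2 h.le), if_pos h]
    ring

omit [Fintype V] in
theorem bda_sg_rule2 (v x : V) (ρ : Finset V) (hv : v ∉ ρ) (hx : x ∉ ρ) (hvx : v ≠ x) :
    sg v (insert x ρ) * sg x (insert v ρ) = - (sg x ρ * sg v ρ) := by
  rw [bda_sg_insert v x ρ hv, bda_sg_insert x v ρ hx]
  rcases lt_or_gt_of_ne hvx with h | h
  · rw [if_pos h, if_neg (not_lt.2 h.le)]
    ring
  · rw [if_neg (not_lt.2 h.le), if_pos h]
    ring

/-- `∂∂ = 0`. PROOF: expand; for `v ≠ w` not in `ρ`: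
`sg v ρ * sg w (insert v ρ) = - sg w ρ * sg v (insert w ρ)` (use `sg` explicitly, cases `v < w`, `w < v`);
`Finset.sum_involution` on the pairs `(v, w)` or symmetrise the double sum. -/
theorem bd_bd (f : Finset V → k) (ρ : Finset V) : bd (bd f) ρ = 0 := by
  classical
  have e : bd (bd f) ρ = ∑ p ∈ (ρᶜ ×ˢ ρᶜ).filter (fun p : V × V => p.1 ≠ p.2),
      ((sg p.1 ρ : ℤ) : k) * (((sg p.2 (insert p.1 ρ) : ℤ) : k) *
        f (insert p.2 (insert p.1 ρ))) := by
    rw [Finset.sum_filter, Finset.sum_product]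
    unfold bd
    refine Finset.sum_congr rfl fun v hv => ?_
    rw [Finset.mul_sum]
    have h1 : (insert v ρ)ᶜ = ρᶜ.filter (fun w => v ≠ w) := by
      ext w
      simp only [Finset.mem_compl, Finset.mem_insert, Finset.mem_filter, not_or]
      constructor
      · rintro ⟨h1, h2⟩
        exact ⟨h2, fun h => h1 h.symm⟩
      · rintro ⟨h1, h2⟩
        exact ⟨fun h => h2 h.symm, h1⟩
    rw [h1, Finset.sum_filter]
  rw [e]
  refine Finset.sum_involution (fun p _ => (p.2, p.1)) ?_ ?_ ?_ ?_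
  · rintro ⟨v, w⟩ hp
    simp only [Finset.mem_filter, Finset.mem_product, Finset.mem_compl] at hp
    obtain ⟨⟨hv, hw⟩, hvw⟩ := hp
    have h2 := bda_sg_rule v w ρ hv hw hvw
    have h3 : ((sg v ρ : ℤ) : k) * ((sg w (insert v ρ) : ℤ) : k)
        = - (((sg w ρ : ℤ) : k) * ((sg v (insert w ρ) : ℤ) : k)) := by
      exact_mod_cast congrArg (Int.cast (R := k)) h2
    have h4 : insert v (insert w ρ) = insert w (insert v ρ) := Finset.insert_comm _ _ _
    show ((sg v ρ : ℤ) : k) * (((sg w (insert v ρ) : ℤ) : k) * f (insert w (insert v ρ)))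
      + ((sg w ρ : ℤ) : k) * (((sg v (insert w ρ) : ℤ) : k) * f (insert v (insert w ρ))) = 0
    rw [h4, ← mul_assoc, ← mul_assoc, h3]
    ring
  · rintro ⟨v, w⟩ hp _ h
    simp only [Finset.mem_filter] at hp
    exact hp.2 (congrArg Prod.snd h)
  · rintro ⟨v, w⟩ hp
    simp only [Finset.mem_filter, Finset.mem_product] at hp ⊢
    exact ⟨⟨hp.1.2, hp.1.1⟩, fun h => hp.2 h.symm⟩
  · rintro ⟨v, w⟩ hp
    rfl

/-- A cone has no homology. PROOF: `g τ := if x ∈ τ then sg x (τ.erase x) * f (τ.erase x) else 0`; then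
`bd g σ + (the same operator applied to bd f) σ = f σ` by the sign rule above
(`sg v (insert x ρ) * sg x (insert v ρ) = - sg x ρ * sg v ρ`, `v ≠ x`, `v, x ∉ ρ`), and `bd f = 0`. -/
theorem acyc_cone (F : Finset V → Prop) (x : V) (hx : ∀ τ, F τ → F (insert x τ)) (i : ℕ) :
    Acyc k F i := by
  classical
  intro f hf hbd
  refine ⟨fun τ => if x ∈ τ then ((sg x (τ.erase x) : ℤ) : k) * f (τ.erase x) else 0, ?_, ?_⟩
  · intro τ hτ
    by_cases hxτ : x ∈ τ
    · simp only [if_pos hxτ] at hτ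
      obtain ⟨h1, h2⟩ := hf _ (right_ne_zero_of_mul hτ)
      have h3 := hx _ h1
      rw [Finset.insert_erase hxτ] at h3
      refine ⟨h3, ?_⟩
      rw [← h2, Finset.card_erase_add_one hxτ]
    · simp only [if_neg hxτ] at hτ
      exact absurd rfl hτ
  · intro σ
    have hsq : ∀ ρ : Finset V, ((sg x ρ : ℤ) : k) * ((sg x ρ : ℤ) : k) = 1 := by
      intro ρ
      exact_mod_cast congrArg (Int.cast (R := k)) (bda_sg_mul_self x ρ)
    by_cases hxσ : x ∈ σ
    · set ρ := σ.erase x with hρ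
      have hxρ : x ∉ ρ := Finset.notMem_erase _ _
      have hσ : insert x ρ = σ := Finset.insert_erase hxσ
      have h1 := hbd ρ
      have hcompl : ρᶜ = insert x σᶜ := by
        rw [hρ, Finset.compl_erase]
      have h2 : bd f ρ = ((sg x ρ : ℤ) : k) * f σ
          + ∑ v ∈ σᶜ, ((sg v ρ : ℤ) : k) * f (insert v ρ) := by
        unfold bd
        rw [hcompl, Finset.sum_insert (by simpa using hxσ), hσ]
      rw [h2] at h1
      have h3 : bd (fun τ => if x ∈ τ then ((sg x (τ.erase x) : ℤ) : k) * f (τ.erase x) else 0) σ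
          = - ((sg x ρ : ℤ) : k) * ∑ v ∈ σᶜ, ((sg v ρ : ℤ) : k) * f (insert v ρ) := by
        unfold bd
        rw [Finset.mul_sum]
        refine Finset.sum_congr rfl fun v hv => ?_
        have hvσ : v ∉ σ := Finset.mem_compl.1 hv
        have hvx : v ≠ x := fun h => hvσ (h ▸ hxσ)
        have hvρ : v ∉ ρ := fun h => hvσ (Finset.mem_of_mem_erase h)
        have h4 : (insert v σ).erase x = insert v ρ := by
          rw [Finset.erase_insert_of_ne hvx]
        have h5 : x ∈ insert v σ := Finset.mem_insert_of_mem hxσ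
        beta_reduce
        rw [if_pos h5, h4]
        have h6 := bda_sg_rule2 v x ρ hvρ hxρ hvx
        rw [hσ] at h6
        have h7 : ((sg v σ : ℤ) : k) * ((sg x (insert v ρ) : ℤ) : k)
            = - (((sg x ρ : ℤ) : k) * ((sg v ρ : ℤ) : k)) := by
          exact_mod_cast congrArg (Int.cast (R := k)) h6
        rw [← mul_assoc, h7]
        ring
      rw [h3]
      have h8 := hsq ρ
      linear_combination (-((sg x ρ : ℤ) : k)) * h1 + f σ * h8
    · unfold bd
      rw [Finset.sum_eq_single x]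
      · beta_reduce
        rw [if_pos (Finset.mem_insert_self _ _), Finset.erase_insert hxσ, ← mul_assoc, hsq, one_mul]
      · intro v hv hvx
        beta_reduce
        rw [if_neg, mul_zero]
        rw [Finset.mem_insert, not_or]
        exact ⟨fun h => hvx h.symm, hxσ⟩
      · intro h
        exact absurd (Finset.mem_compl.2 hxσ) h

theorem bdb_add (f g : Finset V → k) (σ : Finset V) :
    bd (fun τ => f τ + g τ) σ = bd f σ + bd g σ := by
  unfold bd
  rw [← Finset.sum_add_distrib]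
  exact Finset.sum_congr rfl fun v _ => mul_add _ _ _

theorem bdb_sub (f g : Finset V → k) (σ : Finset V) :
    bd (fun τ => f τ - g τ) σ = bd f σ - bd g σ := by
  unfold bd
  rw [← Finset.sum_sub_distrib]
  exact Finset.sum_congr rfl fun v _ => mul_sub _ _ _

theorem bdb_supp (f : Finset V → k) (σ : Finset V) (h : bd f σ ≠ 0) :
    ∃ v, v ∉ σ ∧ f (insert v σ) ≠ 0 := by
  unfold bd at h
  obtain ⟨v, hv, hne⟩ := Finset.exists_ne_zero_of_sum_ne_zero h
  exact ⟨v, Finset.mem_compl.1 hv, right_ne_zero_of_mul hne⟩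

/-- Mayer-Vietoris, first form. PROOF: `f = f1 + f2`, `f1` = restriction of `f` to `F1`; `h := bd f1 = - bd f2`
is supported on `F1 ∩ F2` and has `bd h = 0`; if `i = i' + 1` then `h = bd u`, `u` on `F1 ∩ F2`, else `u = 0` works
(`bd f1 = 0` as `f1` lives on the empty face only); then `f1 - u = bd g1`, `f2 + u = bd g2`, `g = g1 + g2`. -/
theorem acyc_union (F1 F2 : Finset V → Prop) (h1 : ∀ σ τ, σ ⊆ τ → F1 τ → F1 σ)
    (h2 : ∀ σ τ, σ ⊆ τ → F2 τ → F2 σ) (i : ℕ) (a1 : Acyc k F1 i) (a2 : Acyc k F2 i)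
    (a12 : ∀ i', i = i' + 1 → Acyc k (fun τ => F1 τ ∧ F2 τ) i') :
    Acyc k (fun τ => F1 τ ∨ F2 τ) i := by
  classical
  intro f hf hbd
  set f1 : Finset V → k := fun τ => if F1 τ then f τ else 0 with hf1
  set f2 : Finset V → k := fun τ => if F1 τ then 0 else f τ with hf2
  have hsum : ∀ τ, f τ = f1 τ + f2 τ := by
    intro τ
    simp only [hf1, hf2]
    split_ifs <;> simp
  have hs1 : ∀ τ, f1 τ ≠ 0 → F1 τ ∧ τ.card = i := by
    intro τ hτ
    simp only [hf1] at hτ
    by_cases h : F1 τ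
    · rw [if_pos h] at hτ
      exact ⟨h, (hf τ hτ).2⟩
    · rw [if_neg h] at hτ
      exact absurd rfl hτ
  have hs2 : ∀ τ, f2 τ ≠ 0 → F2 τ ∧ τ.card = i := by
    intro τ hτ
    simp only [hf2] at hτ
    by_cases h : F1 τ
    · rw [if_pos h] at hτ
      exact absurd rfl hτ
    · rw [if_neg h] at hτ
      exact ⟨(hf τ hτ).1.resolve_left h, (hf τ hτ).2⟩
  have hb : ∀ σ, bd f1 σ + bd f2 σ = 0 := by
    intro σ
    rw [← bdb_add, ← hbd σ]
    congr 1
    funext τ
    exact (hsum τ).symm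
  have hu : ∃ u : Finset V → k, (∀ τ, u τ ≠ 0 → (F1 τ ∧ F2 τ) ∧ τ.card = i) ∧
      ∀ σ, bd u σ = bd f1 σ := by
    have hh : ∀ σ, bd f1 σ ≠ 0 → (F1 σ ∧ F2 σ) ∧ σ.card + 1 = i := by
      intro σ hσ
      obtain ⟨v, hv, hne⟩ := bdb_supp f1 σ hσ
      obtain ⟨g1, g2⟩ := hs1 _ hne
      have hσ2 : bd f2 σ ≠ 0 := by
        intro h0
        apply hσ
        have := hb σ
        rw [h0, add_zero] at this
        exact this
      obtain ⟨w, hw, hne2⟩ := bdb_supp f2 σ hσ2
      obtain ⟨g3, g4⟩ := hs2 _ hne2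
      refine ⟨⟨h1 _ _ (Finset.subset_insert _ _) g1, h2 _ _ (Finset.subset_insert _ _) g3⟩, ?_⟩
      rw [← g2, Finset.card_insert_of_notMem hv]
    rcases Nat.eq_zero_or_pos i with hi | hi
    · refine ⟨fun _ => 0, fun τ h => absurd rfl h, fun σ => ?_⟩
      have h0 : bd (fun _ : Finset V => (0 : k)) σ = 0 := by
        unfold bd
        simp
      rw [h0]
      by_contra hne
      have := (hh σ (fun h => hne h.symm)).2
      omega
    · obtain ⟨i', rfl⟩ : ∃ i', i = i' + 1 := ⟨i - 1, by omega⟩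
      obtain ⟨u, hu1, hu2⟩ := a12 i' rfl (bd f1)
        (fun τ hτ => ⟨(hh τ hτ).1, by have := (hh τ hτ).2; omega⟩) (fun σ => bd_bd f1 σ)
      exact ⟨u, hu1, hu2⟩
  obtain ⟨u, hu1, hu2⟩ := hu
  obtain ⟨g1, hg1, hg1'⟩ := a1 (fun τ => f1 τ - u τ)
    (by
      intro τ hτ
      by_cases h0 : f1 τ = 0
      · have : u τ ≠ 0 := by
          intro h
          apply hτ
          show f1 τ - u τ = 0
          rw [h0, h, sub_zero]
        exact ⟨(hu1 τ this).1.1, (hu1 τ this).2⟩
      · exact hs1 τ h0)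
    (by
      intro σ
      rw [bdb_sub, hu2, sub_self])
  obtain ⟨g2, hg2, hg2'⟩ := a2 (fun τ => f2 τ + u τ)
    (by
      intro τ hτ
      by_cases h0 : f2 τ = 0
      · have : u τ ≠ 0 := by
          intro h
          apply hτ
          show f2 τ + u τ = 0
          rw [h0, h, add_zero]
        exact ⟨(hu1 τ this).1.2, (hu1 τ this).2⟩
      · exact hs2 τ h0)
    (by
      intro σ
      rw [bdb_add, hu2, add_comm]
      exact hb σ)
  refine ⟨fun τ => g1 τ + g2 τ, ?_, ?_⟩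
  · intro τ hτ
    by_cases h0 : g1 τ = 0
    · have : g2 τ ≠ 0 := by
        intro h
        apply hτ
        show g1 τ + g2 τ = 0
        rw [h0, h, add_zero]
      exact ⟨Or.inr (hg2 τ this).1, (hg2 τ this).2⟩
    · exact ⟨Or.inl (hg1 τ h0).1, (hg1 τ h0).2⟩
  · intro σ
    rw [bdb_add, hg1', hg2', hsum σ]
    ring

/-- Mayer-Vietoris, second form. PROOF: a cycle `f` on `F1` is `bd g` with `g = g1 + g2` (`g1` = restriction to `F1`);
`f - bd g1 = bd g2` is a cycle on `F1 ∩ F2`, so it is `bd u`, `u` on `F1 ∩ F2`; `f = bd (g1 + u)`. -/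
theorem acyc_left (F1 F2 : Finset V → Prop) (h1 : ∀ σ τ, σ ⊆ τ → F1 τ → F1 σ)
    (h2 : ∀ σ τ, σ ⊆ τ → F2 τ → F2 σ) (i : ℕ) (a12 : Acyc k (fun τ => F1 τ ∧ F2 τ) i)
    (a : Acyc k (fun τ => F1 τ ∨ F2 τ) i) : Acyc k F1 i := by
  classical
  intro f hf hbd
  obtain ⟨g, hg, hg'⟩ := a f (fun τ hτ => ⟨Or.inl (hf τ hτ).1, (hf τ hτ).2⟩) hbd
  set g1 : Finset V → k := fun τ => if F1 τ then g τ else 0 with hg1
  set g2 : Finset V → k := fun τ => if F1 τ then 0 else g τ with hg2
  have hsum : ∀ τ, g τ = g1 τ + g2 τ := by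
    intro τ
    simp only [hg1, hg2]
    split_ifs <;> simp
  have hs1 : ∀ τ, g1 τ ≠ 0 → F1 τ ∧ τ.card = i + 1 := by
    intro τ hτ
    simp only [hg1] at hτ
    by_cases h : F1 τ
    · rw [if_pos h] at hτ
      exact ⟨h, (hg τ hτ).2⟩
    · rw [if_neg h] at hτ
      exact absurd rfl hτ
  have hs2 : ∀ τ, g2 τ ≠ 0 → F2 τ ∧ τ.card = i + 1 := by
    intro τ hτ
    simp only [hg2] at hτ
    by_cases h : F1 τ
    · rw [if_pos h] at hτ
      exact absurd rfl hτ
    · rw [if_neg h] at hτ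
      exact ⟨(hg τ hτ).1.resolve_left h, (hg τ hτ).2⟩
  have hb : ∀ σ, f σ = bd g1 σ + bd g2 σ := by
    intro σ
    rw [← bdb_add, ← hg' σ]
    congr 1
    funext τ
    exact hsum τ
  obtain ⟨u, hu1, hu2⟩ := a12 (bd g2)
    (by
      intro σ hσ
      obtain ⟨v, hv, hne⟩ := bdb_supp g2 σ hσ
      obtain ⟨g3, g4⟩ := hs2 _ hne
      rw [Finset.card_insert_of_notMem hv] at g4
      refine ⟨⟨?_, h2 _ _ (Finset.subset_insert _ _) g3⟩, by omega⟩
      by_cases h0 : f σ = 0
      · have h3 : bd g1 σ ≠ 0 := by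
          intro h
          apply hσ
          have := hb σ
          rw [h0, h, zero_add] at this
          exact this.symm
        obtain ⟨w, hw, hne2⟩ := bdb_supp g1 σ h3
        exact h1 _ _ (Finset.subset_insert _ _) (hs1 _ hne2).1
      · exact (hf σ h0).1)
    (fun σ => bd_bd g2 σ)
  refine ⟨fun τ => g1 τ + u τ, ?_, ?_⟩
  · intro τ hτ
    by_cases h0 : g1 τ = 0
    · have : u τ ≠ 0 := by
        intro h
        apply hτ
        show g1 τ + u τ = 0
        rw [h0, h, add_zero]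
      exact ⟨(hu1 τ this).1.1, (hu1 τ this).2⟩
    · exact hs1 τ h0
  · intro σ
    rw [bdb_add, hu2, ← hb]

/-- PROOF: unfold; the two families of faces are equal. -/
theorem acyc_congr (F1 F2 : Finset V → Prop) (h : ∀ τ, F1 τ ↔ F2 τ) (i : ℕ) (a1 : Acyc k F1 i) :
    Acyc k F2 i := by
  have : F1 = F2 := funext fun τ => propext (h τ)
  rw [← this]
  exact a1

/-- PROOF: a family without faces: `f = 0`, `g = 0`. -/
theorem acyc_empty (F : Finset V → Prop) (h : ∀ τ, ¬ F τ) (i : ℕ) : Acyc k F i := by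
  intro f hf _
  refine ⟨fun _ => 0, fun τ hτ => absurd rfl hτ, fun σ => ?_⟩
  have h0 : f σ = 0 := by
    by_contra hne
    exact h σ (hf σ hne).1
  rw [h0]
  unfold bd
  simp

end Pool.Agent.MP_9b0fed_al
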