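import Pool.Agent.Lib.MP_9b0fed_al.Dirac

/-!
# MP_9b0fed_al JOB CHORDAL: consequences for co-chordal covers
-/

set_option autoImplicit false

open Finset

namespace Pool.Agent.MP_9b0fed_al

/-- `dirac` for `K = Hᶜ`. -/
theorem dd_of_coChordal {κ : Type} (H : SimpleGraph κ) (h : IsCoChordal H) : DD H Set.univ := by
  intro W Z _ hZW hne hZ
  obtain ⟨w, hw, hwZ, hcl⟩ := dirac Hᶜ h W Z hZW hne (by
    intro a ha b hb hab
    rw [SimpleGraph.compl_adj]
    exact ⟨hab, hZ a ha b hb⟩)
  refine ⟨w, hw, hwZ, fun a ha b hb haw hbw hna hnb hab => ?_⟩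
  have := hcl a ha b hb (by rw [SimpleGraph.compl_adj]; exact ⟨haw.symm, hna⟩)
    (by rw [SimpleGraph.compl_adj]; exact ⟨hbw.symm, hnb⟩) hab.ne
  rw [SimpleGraph.compl_adj] at this
  exact this.2 hab

/-- Restriction. -/
theorem dd_mono {κ : Type} (H : SimpleGraph κ) (U U' : Set κ) (h : U' ⊆ U) (hD : DD H U) :
    DD H U' := by
  intro W Z hW hZW hne hZ
  exact hD W Z (fun i hi => h (hW i hi)) hZW hne hZ

/-- Pull back along `w : ι → κ` (copies of vertices). PROOF: given `W, Z`; let `W' = image w W`, `Z' = {x ∈ W' | every i ∈ W with w i = x is in Z}`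
(independent; `Z' ≠ W'`, otherwise `Z = W`). `DD H` gives `x ∈ W' \ Z'`, take `i ∈ W`, `i ∉ Z`, `w i = x`. If `a, b ∈ W` are not adjacent to `i` in the
pull back then for `w a ≠ x`, `w b ≠ x` use the property of `x`; if `w a = x` then `a ~ b` would give `H.Adj x (w b)`, a contradiction. -/
theorem dd_comap {ι κ : Type} (H : SimpleGraph κ) (w : ι → κ) (hD : DD H Set.univ) :
    DD (H.comap w) Set.univ := by
  classical
  intro W Z _ hZW hne hZ
  obtain ⟨x, hx, hxZ, hP⟩ := hD (W.image w) ((W.image w).filter (fun x => ∀ i ∈ W, w i = x → i ∈ Z))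
    (fun _ _ => Set.mem_univ _) (Finset.filter_subset _ _) (by
      intro heq
      apply hne
      refine Finset.Subset.antisymm hZW fun i hi => ?_
      have : w i ∈ (W.image w).filter (fun x => ∀ i ∈ W, w i = x → i ∈ Z) := by
        rw [heq]
        exact Finset.mem_image_of_mem w hi
      exact (Finset.mem_filter.mp this).2 i hi rfl) (by
      intro a ha b hb hab
      rw [Finset.mem_filter, Finset.mem_image] at ha hb
      obtain ⟨⟨i, hi, rfl⟩, ha2⟩ := ha
      obtain ⟨⟨j, hj, rfl⟩, hb2⟩ := hb
      exact hZ i (ha2 i hi rfl) j (hb2 j hj rfl) (by rw [SimpleGraph.comap_adj]; exact hab))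
  have hx' : ∃ i ∈ W, w i = x ∧ i ∉ Z := by
    by_contra hcon
    push Not at hcon
    exact hxZ (Finset.mem_filter.mpr ⟨hx, fun i hi hix => hcon i hi hix⟩)
  obtain ⟨i, hi, rfl, hiZ⟩ := hx'
  refine ⟨i, hi, hiZ, fun a ha b hb _ _ hna hnb hab => ?_⟩
  rw [SimpleGraph.comap_adj] at hna hnb hab
  have hwa : w a ≠ w i := by
    intro h
    rw [h] at hab
    exact hnb hab
  have hwb : w b ≠ w i := by
    intro h
    rw [h] at hab
    exact hna hab.symm
  exact hP (w a) (Finset.mem_image_of_mem w ha) (w b) (Finset.mem_image_of_mem w hb) hwa hwb hna hnb hab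

/-- every vertex of a long cycle has a non-neighbour -/
private theorem chb_cycle (m : ℕ) (hm : 4 ≤ m) (i : Fin m) :
    ∃ j : Fin m, j ≠ i ∧ ¬ (SimpleGraph.cycleGraph m).Adj i j := by
  obtain ⟨n, rfl⟩ : ∃ n, m = n + 4 := ⟨m - 4, by omega⟩
  refine ⟨i + 2, ?_, ?_⟩
  · intro h
    have h2 : (2 : Fin (n + 4)) = 0 := by
      have : i + 2 = i + 0 := by rw [h, add_zero]
      exact add_left_cancel this
    have := congrArg Fin.val h2
    simp at this
    rw [Nat.mod_eq_of_lt (by omega)] at this
    omega
  · rw [SimpleGraph.cycleGraph_adj]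
    rintro (h | h)
    · have h1 : i - (i + 2) = -2 := by abel
      rw [h1] at h
      have h2 : (1 : Fin (n + 4)) + 2 = 0 := by rw [← h]; abel
      have := congrArg Fin.val h2
      simp [Fin.val_add] at this
      rw [Nat.mod_eq_of_lt (by omega : 3 < n + 4)] at this
      omega
    · have h1 : i + 2 - i = 2 := by abel
      rw [h1] at h
      have := congrArg Fin.val h
      simp at this
      rw [Nat.mod_eq_of_lt (by omega : 2 < n + 4)] at this
      omega

/-- The spanning graph of a subgraph whose induced graph is co-chordal is co-chordal.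
PROOF: let `f : cycleGraph m ↪g (H.spanningCoe)ᶜ`, `m ≥ 4`. If some `f i` is not in `H.verts`, then `f i` is adjacent in the complement to
all other vertices; but every vertex of `cycleGraph m`, `m ≥ 4`, has a non-neighbour different from it (`i + 2`). So all `f i ∈ H.verts` and `f` gives
an embedding into `H.coeᶜ`. -/
theorem coChordal_spanningCoe {κ : Type} (G : SimpleGraph κ) (H : G.Subgraph)
    (h : IsCoChordal H.coe) : IsCoChordal H.spanningCoe := by
  intro m hm
  refine ⟨fun f => ?_⟩
  have hv : ∀ i, f i ∈ H.verts := by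
    intro i
    by_contra hi
    obtain ⟨j, hji, hj⟩ := chb_cycle m hm i
    apply hj
    rw [← f.map_adj_iff, SimpleGraph.compl_adj]
    refine ⟨fun h => hji (f.injective h).symm, fun hadj => hi ?_⟩
    rw [SimpleGraph.Subgraph.spanningCoe_adj] at hadj
    exact H.edge_vert hadj
  refine (h m hm).false ⟨⟨fun i => ⟨f i, hv i⟩, fun i j hij => ?_⟩, ?_⟩
  · exact f.injective (congrArg Subtype.val hij)
  · intro i j
    have := f.map_adj_iff (v := i) (w := j)
    rw [← this, SimpleGraph.compl_adj, SimpleGraph.compl_adj, SimpleGraph.Subgraph.spanningCoe_adj]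
    constructor
    · rintro ⟨h1, h2⟩
      exact ⟨fun h3 => h1 (Subtype.ext h3), h2⟩
    · rintro ⟨h1, h2⟩
      exact ⟨fun h3 => h1 (congrArg Subtype.val h3), h2⟩

/-- PROOF: `coChordal_spanningCoe`, `dd_of_coChordal`. -/
theorem cover_dd {κ : Type} (G : SimpleGraph κ) (t : ℕ) (h : HasCoChordalCover G t) :
    ∃ H : Fin t → SimpleGraph κ, (∀ l, DD (H l) Set.univ) ∧
      ∀ u v, G.Adj u v ↔ ∃ l, (H l).Adj u v := by
  obtain ⟨H, hH, hc⟩ := h
  refine ⟨fun l => (H l).spanningCoe,
    fun l => dd_of_coChordal _ (coChordal_spanningCoe G (H l) (hH l)), fun u v => ⟨fun huv => ?_, ?_⟩⟩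
  · obtain ⟨l, hl⟩ := hc u v huv
    exact ⟨l, by rw [SimpleGraph.Subgraph.spanningCoe_adj]; exact hl⟩
  · rintro ⟨l, hl⟩
    rw [SimpleGraph.Subgraph.spanningCoe_adj] at hl
    exact hl.adj_sub

/-- a graph with at most three vertices is co-chordal -/
private theorem chb_small {κ : Type} (H : SimpleGraph κ) (hc : Nat.card κ ≤ 3) (hf : Finite κ) :
    IsCoChordal H := by
  intro m hm
  refine ⟨fun f => ?_⟩
  have := Nat.card_le_card_of_injective f f.injective
  rw [Nat.card_eq_fintype_card, Fintype.card_fin] at this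
  omega

/-- Every finite graph has a cover. PROOF: take all pairs `(u, v)` of vertices, `G.subgraphOfAdj h` if `h : G.Adj u v`, else `⊥`; the induced graph has at
most two vertices, so there is no embedding of `cycleGraph m` with `m ≥ 4`. -/
theorem exists_cover {κ : Type} [Finite κ] (G : SimpleGraph κ) : ∃ t, HasCoChordalCover G t := by
  classical
  have : Fintype κ := Fintype.ofFinite κ
  let e : Fin (Fintype.card (κ × κ)) ≃ κ × κ := (Fintype.equivFin (κ × κ)).symm
  let F : κ × κ → G.Subgraph := fun x => if h : G.Adj x.1 x.2 then G.subgraphOfAdj h else ⊥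
  refine ⟨Fintype.card (κ × κ), fun l => F (e l), fun l => ?_, fun u v huv => ?_⟩
  · apply chb_small
    · by_cases h : G.Adj (e l).1 (e l).2
      · have hF : F (e l) = G.subgraphOfAdj h := dif_pos h
        simp only [hF]
        have hcard : Nat.card (G.subgraphOfAdj h).verts ≤ 2 := by
          rw [Nat.card_coe_set_eq, SimpleGraph.subgraphOfAdj_verts]
          have := Set.ncard_insert_le (e l).1 {(e l).2}
          rw [Set.ncard_singleton] at this
          exact this
        omega
      · have hF : F (e l) = ⊥ := dif_neg h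
        simp only [hF]
        have hcard : Nat.card (⊥ : G.Subgraph).verts = 0 := by
          rw [Nat.card_coe_set_eq, SimpleGraph.Subgraph.verts_bot, Set.ncard_empty]
        omega
    · infer_instance
  · refine ⟨e.symm (u, v), ?_⟩
    have hF : F (e (e.symm (u, v))) = G.subgraphOfAdj huv := by
      rw [Equiv.apply_symm_apply]
      exact dif_pos huv
    simp only [hF]
    rw [SimpleGraph.subgraphOfAdj_adj]

theorem cover_coChord {κ : Type} [Finite κ] (G : SimpleGraph κ) :
    HasCoChordalCover G (coChord G) := by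
  exact Nat.sInf_mem (exists_cover G)

/-- A graph with an edge needs at least one subgraph. -/
theorem one_le_coChord {κ : Type} [Finite κ] (G : SimpleGraph κ) (u v : κ) (h : G.Adj u v) :
    1 ≤ coChord G := by
  obtain ⟨H, _, hc⟩ := cover_coChord G
  obtain ⟨l, _⟩ := hc u v h
  have := l.isLt
  omega

end Pool.Agent.MP_9b0fed_al
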