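import Pool.Agent.Lib.MP_9b0fed_al.Basic

/-!
# MP_9b0fed_al JOB EXCH: exchange for degree vectors of multisets of edges
-/

set_option autoImplicit false

open Finset

namespace Pool.Agent.MP_9b0fed_al

variable {V : Type} [Fintype V] [LinearOrder V]

private theorem exa_ev_self (u : V) : ev u u = 1 := by simp [ev]

private theorem exa_ev_ne {u v : V} (h : v ≠ u) : ev u v = 0 := by simp [ev, h]

/-- The sum of two degree vectors. -/
theorem pw_add (G : SimpleGraph V) (p q : ℕ) (a c : V → ℕ) (ha : Pw G p a) (hc : Pw G q c) :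
    Pw G (p + q) (a + c) := by
  induction hc with
  | zero => simpa using ha
  | succ q c u v hc huv ih =>
    have h := Pw.succ (p + q) (a + c) u v ih huv
    have e : a + (c + ev u + ev v) = a + c + ev u + ev v := by
      rw [← add_assoc, ← add_assoc]
    rw [e]
    exact h

/-- `|a| = 2 q`. -/
theorem pw_sum (G : SimpleGraph V) (q : ℕ) (a : V → ℕ) (ha : Pw G q a) : ∑ v, a v = 2 * q := by
  induction ha with
  | zero => simp
  | succ q a u v ha huv ih =>
    simp only [Pi.add_apply, Finset.sum_add_distrib, ih]
    simp only [ev, Finset.sum_pi_single', Finset.mem_univ, if_true]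
    ring

/-- A vertex of positive degree lies on an edge which can be removed. -/
theorem pw_remove (G : SimpleGraph V) (q : ℕ) (a : V → ℕ) (ha : Pw G q a) (w : V) (hw : 0 < a w) :
    ∃ (q' : ℕ) (a' : V → ℕ) (u : V), q = q' + 1 ∧ Pw G q' a' ∧ G.Adj w u ∧
      a = a' + ev w + ev u := by
  induction ha with
  | zero => simp at hw
  | succ q a u v ha huv ih =>
    by_cases h1 : w = u
    · subst h1
      exact ⟨q, a, v, rfl, ha, huv, rfl⟩
    · by_cases h2 : w = v
      · subst h2
        refine ⟨q, a, u, rfl, ha, huv.symm, ?_⟩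
        rw [add_right_comm]
      · have h3 : 0 < a w := by
          have := hw
          simp only [Pi.add_apply, exa_ev_ne h1, exa_ev_ne h2] at this
          omega
        obtain ⟨q', a', x, rfl, hp, hwx, rfl⟩ := ih h3
        refine ⟨q' + 1, a' + ev u + ev v, x, rfl, Pw.succ q' a' u v hp huv, hwx, ?_⟩
        funext y
        simp only [Pi.add_apply]
        ring

/-- THE TRAIL LEMMA. `c = deg N`, `a = deg M` for multisets `N, M` of `p` and `q` edges, `a w < c w`. There are
sub-multisets `N0 ≤ N`, `M0 ≤ M` (degree vectors `c0`, `a0`, the rests `c1`, `a1`) and `v` with either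
`|N0| = |M0| + 1`, `c0 = a0 + ev w + ev v`, `a v < c v` (and `a w + 2 ≤ c w` if `v = w`), or
`|N0| = |M0|`, `c0 + ev v = a0 + ev w`, `c v < a v`.
PROOF by induction on `q` (for all `p`, `c`, `a`, `w`). `c w > 0`: take an edge `w u` out of `c` (`pw_remove`), `c = c' + ev w + ev u`.
If `a u < c u`: done with `N0 = {wu}`, `M0 = ∅`, `v = u` (`u ≠ w` as `G` has no loops). Otherwise `0 < c u ≤ a u`: take an edge
`u b` out of `a`, `a = a' + ev u + ev b`, `q = q' + 1`. If `b = w`: apply the induction hypothesis to `(c', a', w)` (the differences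
`c' - a'` and `c - a` are the same); `N0`, `M0` are the same, the rests get the edge `wu` back. If `b ≠ w` and `c b < a b`: done with
`N0 = {wu}`, `M0 = {ub}`, `v = b`. If `b ≠ w` and `a b ≤ c b`: then `a' b < c' b`, apply the induction hypothesis to `(c', a', b)` and add
`wu` to `N0`, `ub` to `M0`. -/
theorem trail (G : SimpleGraph V) (q p : ℕ) (a c : V → ℕ) (ha : Pw G q a) (hc : Pw G p c)
    (w : V) (hw : a w < c w) :
    ∃ (q0 p0 q1 p1 : ℕ) (a0 c0 a1 c1 : V → ℕ) (v : V),
      q = q0 + q1 ∧ p = p0 + p1 ∧ a = a0 + a1 ∧ c = c0 + c1 ∧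
      Pw G q0 a0 ∧ Pw G p0 c0 ∧ Pw G q1 a1 ∧ Pw G p1 c1 ∧
      ((p0 = q0 + 1 ∧ c0 = a0 + ev w + ev v ∧ a v < c v ∧ (v = w → a w + 2 ≤ c w)) ∨
        (p0 = q0 ∧ c0 + ev v = a0 + ev w ∧ c v < a v)) := by
  induction q generalizing p a c w with
  | zero =>
    obtain ⟨p', c', u, rfl, hc', hwu, rfl⟩ := pw_remove G p c hc w (by omega)
    have hne : u ≠ w := hwu.ne'
    have hau : a u < (c' + ev w + ev u) u := by
      by_contra hcon
      have h1 : 0 < a u := by
        simp only [Pi.add_apply, exa_ev_self] at hcon
        omega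
      obtain ⟨q', a', b, h2, -⟩ := pw_remove G 0 a ha u h1
      omega
    refine ⟨0, 1, 0, p', 0, 0 + ev w + ev u, a, c', u, rfl, by omega, by simp, ?_, Pw.zero,
      Pw.succ 0 0 w u Pw.zero hwu, ha, hc', Or.inl ⟨rfl, rfl, hau, fun h => absurd h hne⟩⟩
    funext y
    simp only [Pi.add_apply, Pi.zero_apply]
    ring
  | succ q ih =>
    obtain ⟨p', c', u, rfl, hc', hwu, rfl⟩ := pw_remove G p c hc w (by omega)
    have hne : u ≠ w := hwu.ne'
    by_cases hau : a u < (c' + ev w + ev u) u
    · refine ⟨0, 1, q + 1, p', 0, 0 + ev w + ev u, a, c', u, by omega, by omega, by simp, ?_,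
        Pw.zero, Pw.succ 0 0 w u Pw.zero hwu, ha, hc',
        Or.inl ⟨rfl, rfl, hau, fun h => absurd h hne⟩⟩
      funext y
      simp only [Pi.add_apply, Pi.zero_apply]
      ring
    · have h1 : 0 < a u := by
        simp only [Pi.add_apply, exa_ev_self] at hau
        omega
      obtain ⟨q', a', b, h2, ha', hub, rfl⟩ := pw_remove G (q + 1) a ha u h1
      have h3 : q' = q := by omega
      subst h3
      have hnb : b ≠ u := hub.ne'
      simp only [Pi.add_apply, exa_ev_self, exa_ev_ne hne.symm, exa_ev_ne hne, exa_ev_ne hnb,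
        exa_ev_ne hnb.symm] at hau hw
      by_cases hb : b = w
      · subst hb
        simp only [exa_ev_self] at hau hw
        obtain ⟨q0, p0, q1, p1, a0, c0, a1, c1, v, e1, e2, e3, e4, P0, P1, P2, P3, H⟩ :=
          ih p' a' c' ha' hc' b (by omega)
        refine ⟨q0, p0, q1 + 1, p1 + 1, a0, c0, a1 + ev u + ev b, c1 + ev b + ev u, v, by omega,
          by omega, ?_, ?_, P0, P1, Pw.succ q1 a1 u b P2 hub, Pw.succ p1 c1 b u P3 hwu, ?_⟩
        · rw [e3]
          funext y
          simp only [Pi.add_apply]
          ring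
        · rw [e4]
          funext y
          simp only [Pi.add_apply]
          ring
        · rcases H with ⟨i1, i2, i3, i4⟩ | ⟨i1, i2, i3⟩
          · refine Or.inl ⟨i1, i2, ?_, ?_⟩
            · simp only [Pi.add_apply]
              omega
            · intro hv
              have := i4 hv
              simp only [Pi.add_apply]
              omega
          · refine Or.inr ⟨i1, i2, ?_⟩
            simp only [Pi.add_apply]
            omega
      · by_cases hab : (c' + ev w + ev u) b < (a' + ev u + ev b) b
        · refine ⟨1, 1, q', p', 0 + ev u + ev b, 0 + ev w + ev u, a', c', b, by omega, by omega,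
            ?_, ?_, Pw.succ 0 0 u b Pw.zero hub, Pw.succ 0 0 w u Pw.zero hwu, ha', hc',
            Or.inr ⟨rfl, ?_, hab⟩⟩
          · funext y
            simp only [Pi.add_apply, Pi.zero_apply]
            ring
          · funext y
            simp only [Pi.add_apply, Pi.zero_apply]
            ring
          · funext y
            simp only [Pi.add_apply, Pi.zero_apply]
            ring
        · simp only [Pi.add_apply, exa_ev_self, exa_ev_ne hb, exa_ev_ne hnb] at hab
          rw [exa_ev_ne (Ne.symm hb)] at hw
          obtain ⟨q0, p0, q1, p1, a0, c0, a1, c1, v, e1, e2, e3, e4, P0, P1, P2, P3, H⟩ :=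
            ih p' a' c' ha' hc' b (by omega)
          refine ⟨q0 + 1, p0 + 1, q1, p1, a0 + ev u + ev b, c0 + ev w + ev u, a1, c1, v, by omega,
            by omega, ?_, ?_, Pw.succ q0 a0 u b P0 hub, Pw.succ p0 c0 w u P1 hwu, P2, P3, ?_⟩
          · rw [e3]
            funext y
            simp only [Pi.add_apply]
            ring
          · rw [e4]
            funext y
            simp only [Pi.add_apply]
            ring
          · rcases H with ⟨i1, i2, i3, i4⟩ | ⟨i1, i2, i3⟩
            · refine Or.inl ⟨by omega, ?_, ?_, ?_⟩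
              · rw [i2]
                funext y
                simp only [Pi.add_apply]
                ring
              · simp only [Pi.add_apply]
                by_cases hvb : v = b
                · have i5 := i4 hvb
                  subst hvb
                  rw [exa_ev_self]
                  omega
                · rw [exa_ev_ne hvb]
                  omega
              · intro hv
                subst hv
                simp only [Pi.add_apply, exa_ev_self, exa_ev_ne hne.symm, exa_ev_ne (Ne.symm hb)]
                omega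
            · refine Or.inr ⟨by omega, ?_, ?_⟩
              · funext y
                have i5 := congrFun i2 y
                simp only [Pi.add_apply] at i5 ⊢
                omega
              · simp only [Pi.add_apply]
                by_cases hvw : v = w
                · subst hvw
                  omega
                · rw [exa_ev_ne hvw]
                  omega

/-- PROOF: `trail` with `p = q`: either `a + ev w + ev v = c0 + a1` or `a + ev w = (c0 + a1) + ev v`. -/
theorem ex1 (G : SimpleGraph V) (q : ℕ) (a c : V → ℕ) (ha : Pw G q a) (hc : Pw G q c) (w : V)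
    (hw : a w < c w) :
    (∃ v, a v < c v ∧ (v = w → a w + 2 ≤ c w) ∧ Pw G (q + 1) (a + ev w + ev v)) ∨
      (∃ v a', c v < a v ∧ Pw G q a' ∧ a' + ev v = a + ev w) := by
  obtain ⟨q0, p0, q1, p1, a0, c0, a1, c1, v, e1, e2, e3, e4, P0, P1, P2, P3, H⟩ :=
    trail G q q a c ha hc w hw
  rcases H with ⟨i1, i2, i3, i4⟩ | ⟨i1, i2, i3⟩
  · refine Or.inl ⟨v, i3, i4, ?_⟩
    have h1 := pw_add G p0 q1 c0 a1 P1 P2
    have e5 : p0 + q1 = q + 1 := by omega
    have e6 : c0 + a1 = a + ev w + ev v := by
      rw [i2, e3]
      funext y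
      simp only [Pi.add_apply]
      ring
    rw [← e5, ← e6]
    exact h1
  · refine Or.inr ⟨v, c0 + a1, i3, ?_, ?_⟩
    · have h1 := pw_add G p0 q1 c0 a1 P1 P2
      have e5 : p0 + q1 = q := by omega
      rw [← e5]
      exact h1
    · rw [e3]
      funext y
      have i5 := congrFun i2 y
      simp only [Pi.add_apply] at i5 ⊢
      omega

/-- PROOF: induction on `q` (for all `a`, `c`). There is `w` with `a w < c w` (the sums are `2 q` and `2 q + 2`). `trail`:
in the first case done (`a + ev w + ev v = c0 + a1`). In the second case `q1 < q` (as `q0 = p0 ≥ 1`: `c0 + ev v = a0 + ev w` and `v ≠ w`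
force `c0 ≠ 0`), `p1 = q1 + 1`, apply the induction hypothesis to `(a1, c1)`: it gives `u', v'` with `a1 u' < c1 u'`, `a1 v' < c1 v'`, …,
`Pw (q1 + 1) (a1 + ev u' + ev v')`; add `a0`. Since `c1 - a1 = (c - a) - ev w + ev v` and `c v < a v`, also `a u' < c u'` etc. -/
theorem ex2 (G : SimpleGraph V) (q : ℕ) (a c : V → ℕ) (ha : Pw G q a) (hc : Pw G (q + 1) c) :
    ∃ u v, a u < c u ∧ a v < c v ∧ (u = v → a u + 2 ≤ c u) ∧ Pw G (q + 1) (a + ev u + ev v) := by
  induction q using Nat.strong_induction_on generalizing a c with
  | _ q ih =>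
    have hs : ∑ v, a v < ∑ v, c v := by
      rw [pw_sum G q a ha, pw_sum G (q + 1) c hc]
      omega
    obtain ⟨w, -, hw⟩ := Finset.exists_lt_of_sum_lt hs
    obtain ⟨q0, p0, q1, p1, a0, c0, a1, c1, v, e1, e2, e3, e4, P0, P1, P2, P3, H⟩ :=
      trail G q (q + 1) a c ha hc w hw
    rcases H with ⟨i1, i2, i3, i4⟩ | ⟨i1, i2, i3⟩
    · refine ⟨w, v, hw, i3, fun h => i4 h.symm, ?_⟩
      have h1 := pw_add G p0 q1 c0 a1 P1 P2
      have e5 : p0 + q1 = q + 1 := by omega
      have e6 : c0 + a1 = a + ev w + ev v := by
        rw [i2, e3]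
        funext y
        simp only [Pi.add_apply]
        ring
      rw [← e5, ← e6]
      exact h1
    · have hvw : v ≠ w := by
        rintro rfl
        omega
      have hq0 : q0 ≠ 0 := by
        rintro rfl
        have h1 := congrFun i2 w
        have h2 := pw_sum G 0 a0 P0
        have h3 := pw_sum G p0 c0 P1
        rw [i1, mul_zero, Finset.sum_eq_zero_iff] at h3
        have h4 := h3 w (Finset.mem_univ w)
        simp only [Pi.add_apply, exa_ev_self, exa_ev_ne (Ne.symm hvw), h4] at h1
        omega
      have hp1 : p1 = q1 + 1 := by omega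
      subst hp1
      obtain ⟨x, y, hx, hy, hxy, hP⟩ := ih q1 (by omega) a1 c1 P2 P3
      have key : ∀ (z : V) (t : ℕ), 0 < t → a1 z + t ≤ c1 z → a z + t ≤ c z := by
        intro z t ht hz
        have h1 := congrFun i2 z
        have h2 := congrFun e3 z
        have h3 := congrFun e4 z
        simp only [Pi.add_apply] at h1 h2 h3
        by_cases hzv : z = v
        · subst hzv
          rw [exa_ev_self, exa_ev_ne hvw] at h1
          omega
        · rw [exa_ev_ne hzv] at h1
          omega
      refine ⟨x, y, key x 1 one_pos hx, key y 1 one_pos hy, fun h => key x 2 two_pos (hxy h), ?_⟩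
      have h1 := pw_add G q0 (q1 + 1) a0 _ P0 hP
      have e5 : q0 + (q1 + 1) = q + 1 := by omega
      have e6 : a0 + (a1 + ev x + ev y) = a + ev x + ev y := by
        rw [e3]
        funext z
        simp only [Pi.add_apply]
        ring
      rw [← e5, ← e6]
      exact h1

end Pool.Agent.MP_9b0fed_al
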