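import Pool.Agent.Lib.MP_9b0fed_al.RegB
import Pool.Agent.Lib.MP_9b0fed_al.Exch

/-!
# MP_9b0fed_al JOB COLON: colon ideals of powers and the filtration
-/

set_option autoImplicit false

open Finset

namespace Pool.Agent.MP_9b0fed_al

variable {V : Type} [Fintype V] [LinearOrder V] {k : Type*} [Field k]

theorem isUpperSet_IP (G : SimpleGraph V) (q : ℕ) : IsUpperSet (IP G q) := by
  rintro b b' hbb' ⟨a, ha, hab⟩
  exact ⟨a, ha, hab.trans hbb'⟩

private theorem cola_ev_apply (u x : V) : ev u x = if x = u then 1 else 0 := by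
  unfold ev
  by_cases h : x = u
  · subst h
    simp
  · simp [h]

private theorem cola_ev_add_le (u v : V) (b : V → ℕ) (hu : 1 ≤ b u) (hv : 1 ≤ b v)
    (h : u = v → 2 ≤ b u) : ev u + ev v ≤ b := by
  intro x
  rw [Pi.add_apply, cola_ev_apply, cola_ev_apply]
  by_cases h1 : x = u
  · subst h1
    by_cases h2 : x = v
    · have := h h2
      simp [h2]
      rw [← h2]
      exact this
    · simp [h2]
      exact hu
  · by_cases h2 : x = v
    · subst h2
      simp [h1]
      exact hv
    · simp [h1, h2]

/-- `I^{q+1} ⊆ I^q`. -/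
theorem IP_succ_subset (G : SimpleGraph V) (q : ℕ) : IP G (q + 1) ⊆ IP G q := by
  rintro b ⟨a, ha, hab⟩
  cases ha with
  | succ _ a' u v ha' _ =>
    refine ⟨a', ha', le_trans ?_ hab⟩
    intro x
    simp only [Pi.add_apply]
    omega

/-- `(I^{q+1} : x^a) = Q(J_a)` for a generator `x^a` of `I^q`. PROOF: `⊇`: `b ≥ ev u + ev v`. `⊆`: `c ≤ b + a`, `Pw G (q+1) c`; `ex2`
gives `u, v` with `ev u + ev v ≤ b` (`b u ≥ c u - a u ≥ 1`, and `≥ 2` if `u = v`). -/
theorem colon_IP (G : SimpleGraph V) (q : ℕ) (a : V → ℕ) (ha : Pw G q a) :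
    colon (IP G (q + 1)) a = QI (JJ G q a) := by
  ext b
  constructor
  · rintro ⟨c, hc, hcb⟩
    obtain ⟨u, v, hu, hv, huv, hp⟩ := ex2 G q a c ha hc
    refine ⟨u, v, hp, cola_ev_add_le u v b ?_ ?_ ?_⟩
    · have := hcb u
      simp only [Pi.add_apply] at this
      omega
    · have := hcb v
      simp only [Pi.add_apply] at this
      omega
    · intro h
      have h1 := huv h
      have := hcb u
      simp only [Pi.add_apply] at this
      omega
  · rintro ⟨u, v, hp, hle⟩
    refine ⟨a + ev u + ev v, hp, ?_⟩
    intro x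
    have := hle x
    simp only [Pi.add_apply] at this ⊢
    omega

/-- The colon ideal in the filtration. `T` = the generators of `I^q` which are lexicographically larger than `a`.
PROOF: `⊇` easy (`a' ≤ a + ev w`, `1 ≤ b w`, so `a' ≤ b + a`). `⊆`: the case `b + a ∈ IP (q+1)` is `colon_IP`. If `c ≤ b + a`,
`c` lexicographically larger than `a`, let `w` be the first vertex with `a w ≠ c w`; then `a w < c w`, so `1 ≤ b w`; `ex1`:
either `ev w + ev v ≤ b` and `JJ G q a w v`, or `a' + ev v = a + ev w` with `c v < a v`, so `w < v` (before `w` they agree, `v ≠ w`) and `a'` is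
lexicographically larger than `a`, `a' ≤ a + ev w`, so `w ∈ L`. -/
theorem colon_filtration (G : SimpleGraph V) (q : ℕ) (a : V → ℕ) (ha : Pw G q a) :
    colon (IP G (q + 1) ∪ {b | ∃ c, Pw G q c ∧ toLex a < toLex c ∧ c ≤ b}) a =
      VI {w | ∃ a', Pw G q a' ∧ toLex a < toLex a' ∧ a' ≤ a + ev w} ∪ QI (JJ G q a) := by
  ext b
  constructor
  · rintro (hb | ⟨c, hc, hac, hcb⟩)
    · right
      rw [← colon_IP G q a ha]
      exact hb
    · obtain ⟨w, hbefore, hw⟩ := hac
      simp only [Pi.toLex_apply] at hbefore hw
      have hbw : 1 ≤ b w := by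
        have := hcb w
        simp only [Pi.add_apply] at this
        omega
      rcases ex1 G q a c ha hc w hw with ⟨v, hv, hvw, hp⟩ | ⟨v, a', hv, hp, he⟩
      · right
        refine ⟨w, v, hp, cola_ev_add_le w v b hbw ?_ ?_⟩
        · have := hcb v
          simp only [Pi.add_apply] at this
          omega
        · intro h
          have h1 := hvw h.symm
          have := hcb w
          simp only [Pi.add_apply] at this
          omega
      · left
        have hev : ∀ x, a' x + (if x = v then 1 else 0) = a x + (if x = w then 1 else 0) := by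
          intro x
          have := congrFun he x
          simp only [Pi.add_apply, cola_ev_apply] at this
          exact this
        have hvw : v ≠ w := by
          rintro rfl
          omega
        have hlt : w < v := by
          rcases lt_trichotomy w v with h | h | h
          · exact h
          · exact absurd h.symm hvw
          · have := hbefore v h
            omega
        refine ⟨w, ⟨a', hp, ⟨w, ?_, ?_⟩, ?_⟩, hbw⟩
        · intro j hj
          simp only [Pi.toLex_apply]
          have h1 := hev j
          rw [if_neg (ne_of_lt (hj.trans hlt)), if_neg (ne_of_lt hj)] at h1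
          omega
        · simp only [Pi.toLex_apply]
          have h1 := hev w
          rw [if_neg hvw.symm, if_pos rfl] at h1
          omega
        · intro x
          have h1 := hev x
          simp only [Pi.add_apply, cola_ev_apply]
          omega
  · rintro (⟨w, ⟨a', hp, hlt, hle⟩, hbw⟩ | hb)
    · right
      refine ⟨a', hp, hlt, ?_⟩
      intro x
      have h1 := hle x
      simp only [Pi.add_apply, cola_ev_apply] at h1 ⊢
      by_cases hx : x = w
      · subst hx
        rw [if_pos rfl] at h1
        omega
      · rw [if_neg hx] at h1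
        omega
    · left
      rw [← colon_IP G q a ha] at hb
      exact hb

/-- PROOF: the set of all `a` with `Pw G q a` is finite (`pw_sum`: entries `≤ 2 q`). For a finite set `T` of generators of `I^q` which is
closed upwards in the lexicographic order (`c ∈ T`, `Pw G q c'`, `toLex c < toLex c'` → `c' ∈ T`) let
`A T = IP G (q+1) ∪ {b | ∃ c ∈ T, c ≤ b}`. `A (all) = IP G q`, `A ∅ = IP G (q+1)`. Show `Reg (A T) (2q + t + 1)` by downward induction
on `T` (remove the lexicographically smallest element `a` of `T`: `T' = T \ {a} = {c | Pw G q c ∧ toLex a < toLex c}`):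
`A T = A T' ∪ Ici a`, `A T' ∩ Ici a` by `reg_inter_Ici`, `colon_filtration`, hypothesis `h` (`∑ a = 2 q`); then `reg_left`. -/
theorem power_step (G : SimpleGraph V) (q t : ℕ)
    (h : ∀ a, Pw G q a → ∀ L : Set V, Reg k (VI L ∪ QI (JJ G q a)) (t + 1))
    (hq : Reg k (IP G q) (2 * q + t + 1)) : Reg k (IP G (q + 1)) (2 * q + t + 1) := by
  classical
  have hfin : {a : V → ℕ | Pw G q a}.Finite := by
    refine (Set.finite_Icc (0 : V → ℕ) (fun _ => 2 * q)).subset ?_
    intro a ha
    refine ⟨fun v => Nat.zero_le _, fun v => ?_⟩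
    have h1 := pw_sum G q a ha
    have h2 : a v ≤ ∑ v, a v := Finset.single_le_sum (fun i _ => Nat.zero_le (a i)) (mem_univ v)
    simpa [h1] using h2
  set S : Finset (V → ℕ) := hfin.toFinset with hS
  have hmem : ∀ a, a ∈ S ↔ Pw G q a := fun a => by rw [hS, Set.Finite.mem_toFinset]; rfl
  have hup : ∀ T : Finset (V → ℕ), IsUpperSet (IP G (q + 1) ∪ {b | ∃ c ∈ T, c ≤ b}) := by
    intro T
    refine (isUpperSet_IP G (q + 1)).union ?_
    rintro a b hab ⟨c, hc, hca⟩
    exact ⟨c, hc, hca.trans hab⟩
  have key : ∀ (n : ℕ) (T : Finset (V → ℕ)), T ⊆ S →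
      (∀ c ∈ T, ∀ c', Pw G q c' → toLex c < toLex c' → c' ∈ T) → (S \ T).card = n →
      Reg k (IP G (q + 1) ∪ {b | ∃ c ∈ T, c ≤ b}) (2 * q + t + 1) := by
    intro n
    induction n with
    | zero =>
      intro T hTS _ hcard
      have hT : S ⊆ T := by
        rw [← sdiff_eq_empty_iff_subset]
        exact card_eq_zero.mp hcard
      have e : IP G (q + 1) ∪ {b | ∃ c ∈ T, c ≤ b} = IP G q := by
        ext b
        constructor
        · rintro (hb | ⟨c, hc, hcb⟩)
          · exact IP_succ_subset G q hb
          · exact ⟨c, (hmem c).mp (hTS hc), hcb⟩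
        · rintro ⟨c, hc, hcb⟩
          exact Or.inr ⟨c, hT ((hmem c).mpr hc), hcb⟩
      rw [e]
      exact hq
    | succ n ih =>
      intro T hTS hTup hcard
      have hne : (S \ T).Nonempty := by
        rw [← card_pos, hcard]
        exact Nat.succ_pos n
      obtain ⟨a, haS, hamax⟩ := exists_max_image (S \ T) (fun a => toLex a) hne
      rw [mem_sdiff] at haS
      have haP : Pw G q a := (hmem a).mp haS.1
      have hTeq : ∀ c, c ∈ T ↔ Pw G q c ∧ toLex a < toLex c := by
        intro c
        constructor
        · intro hc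
          refine ⟨(hmem c).mp (hTS hc), ?_⟩
          rcases lt_trichotomy (toLex a) (toLex c) with h1 | h1 | h1
          · exact h1
          · exact absurd (toLex.injective h1 ▸ hc) haS.2
          · exact absurd (hTup c hc a haP h1) haS.2
        · rintro ⟨hc, hac⟩
          by_contra hcT
          exact absurd hac (not_lt.mpr (hamax c (mem_sdiff.mpr ⟨(hmem c).mpr hc, hcT⟩)))
      have hins : Reg k (IP G (q + 1) ∪ {b | ∃ c ∈ insert a T, c ≤ b}) (2 * q + t + 1) := by
        refine ih (insert a T) ?_ ?_ ?_
        · intro c hc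
          rcases mem_insert.mp hc with rfl | hc
          · exact haS.1
          · exact hTS hc
        · intro c hc c' hc' hlt
          rcases mem_insert.mp hc with rfl | hc
          · exact mem_insert_of_mem ((hTeq c').mpr ⟨hc', hlt⟩)
          · exact mem_insert_of_mem (hTup c hc c' hc' hlt)
        · have e : S \ insert a T = (S \ T).erase a := by
            ext x
            simp only [mem_sdiff, mem_insert, mem_erase]
            tauto
          rw [e, card_erase_of_mem (mem_sdiff.mpr haS), hcard]
          rfl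
      have e1 : IP G (q + 1) ∪ {b | ∃ c ∈ insert a T, c ≤ b} =
          (IP G (q + 1) ∪ {b | ∃ c ∈ T, c ≤ b}) ∪ Set.Ici a := by
        ext b
        constructor
        · rintro (hb | ⟨c, hc, hcb⟩)
          · exact Or.inl (Or.inl hb)
          · rcases mem_insert.mp hc with rfl | hc
            · exact Or.inr hcb
            · exact Or.inl (Or.inr ⟨c, hc, hcb⟩)
        · rintro ((hb | ⟨c, hc, hcb⟩) | hb)
          · exact Or.inl hb
          · exact Or.inr ⟨c, mem_insert_of_mem hc, hcb⟩
          · exact Or.inr ⟨a, mem_insert_self a T, hb⟩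
      rw [e1] at hins
      refine reg_left (hup T) (isUpperSet_Ici a) ?_ hins
      have e2 : IP G (q + 1) ∪ {b | ∃ c ∈ T, c ≤ b} =
          IP G (q + 1) ∪ {b | ∃ c, Pw G q c ∧ toLex a < toLex c ∧ c ≤ b} := by
        congr 1
        ext b
        constructor
        · rintro ⟨c, hc, hcb⟩
          exact ⟨c, ((hTeq c).mp hc).1, ((hTeq c).mp hc).2, hcb⟩
        · rintro ⟨c, hc, hac, hcb⟩
          exact ⟨c, (hTeq c).mpr ⟨hc, hac⟩, hcb⟩
      have h3 := reg_inter_Ici (k := k) (A := IP G (q + 1) ∪ {b | ∃ c ∈ T, c ≤ b}) a (r := t + 1) (by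
        rw [e2, colon_filtration G q a haP]
        exact h a haP _)
      rw [pw_sum G q a haP] at h3
      have e4 : t + 1 + 2 * q = 2 * q + t + 1 := by ring
      rw [e4] at h3
      exact h3
  have hfinal := key (S \ ∅).card ∅ (empty_subset _) (by
    intro c hc
    exact absurd hc (notMem_empty c)) rfl
  have e : IP G (q + 1) ∪ {b | ∃ c ∈ (∅ : Finset (V → ℕ)), c ≤ b} = IP G (q + 1) := by
    ext b
    constructor
    · rintro (hb | ⟨c, hc, _⟩)
      · exact hb
      · exact absurd hc (notMem_empty c)
    · exact Or.inl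
  rw [e] at hfinal
  exact hfinal

end Pool.Agent.MP_9b0fed_al
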