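import Pool.Agent.Lib.MP_9b0fed_al.Cover
import Pool.Agent.Lib.MP_9b0fed_al.Exch

/-!
# MP_9b0fed_al JOB COPIES: from copies back to the vertices
-/

set_option autoImplicit false

open Finset

namespace Pool.Agent.MP_9b0fed_al

variable {V : Type} [Fintype V] [LinearOrder V]

private theorem copa_exists {ι : Type} [DecidableEq ι] (w : ι → V) (S : Finset ι) (u : V)
    (h : 0 < (∑ i ∈ S, ev (w i)) u) : ∃ i ∈ S, w i = u := by
  by_contra hcon
  push Not at hcon
  have h0 : (∑ i ∈ S, ev (w i)) u = 0 := by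
    rw [Finset.sum_apply]
    apply Finset.sum_eq_zero
    intro i hi
    unfold ev
    exact Pi.single_eq_of_ne (fun h => hcon i hi h.symm) 1
  omega

private theorem copa_erase {ι : Type} [DecidableEq ι] (w : ι → V) (S : Finset ι) (i j : ι)
    (hi : i ∈ S) (hj : j ∈ S) (hij : i ≠ j) :
    ∑ s ∈ S, ev (w s) = ∑ s ∈ (S.erase i).erase j, ev (w s) + ev (w i) + ev (w j) := by
  rw [← Finset.add_sum_erase S _ hi,
    ← Finset.add_sum_erase (S.erase i) _ (Finset.mem_erase.2 ⟨hij.symm, hj⟩)]
  abel

/-- PROOF: `→` induction on `PM`; `←` induction on `Pw` (or on `m`) for all `S`: if `∑_{i∈S} ev (w i) = a + ev u + ev v` there are `i ≠ j ∈ S` with `w i = u`,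
`w j = v` (`u ≠ v` as `G.Adj u v`); apply the induction hypothesis to `S \ {i, j}`. -/
theorem pm_iff_pw {ι : Type} [DecidableEq ι] (G : SimpleGraph V) (w : ι → V) (S : Finset ι) :
    PM (G.comap w).Adj S ↔ ∃ m, Pw G m (∑ i ∈ S, ev (w i)) := by
  constructor
  · intro h
    induction h with
    | empty => exact ⟨0, by rw [Finset.sum_empty]; exact Pw.zero⟩
    | step S i j _ hi hj hij hadj ih =>
        obtain ⟨m, hm⟩ := ih
        refine ⟨m + 1, ?_⟩
        have hi' : i ∉ insert j S := by
          rw [Finset.mem_insert]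
          tauto
        rw [Finset.sum_insert hi', Finset.sum_insert hj]
        have e : ev (w i) + (ev (w j) + ∑ s ∈ S, ev (w s)) =
            ∑ s ∈ S, ev (w s) + ev (w i) + ev (w j) := by abel
        rw [e]
        exact Pw.succ m _ _ _ hm hadj
  · rintro ⟨m, hm⟩
    induction m generalizing S with
    | zero =>
        have h0 : ∑ i ∈ S, ev (w i) = 0 := by
          generalize (∑ i ∈ S, ev (w i)) = b at hm
          cases hm
          rfl
        have hS : S = ∅ := by
          rw [Finset.eq_empty_iff_forall_notMem]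
          intro i hi
          have h1 := congrFun h0 (w i)
          rw [Finset.sum_apply, Pi.zero_apply, Finset.sum_eq_zero_iff] at h1
          have h2 := h1 i hi
          unfold ev at h2
          rw [Pi.single_eq_same] at h2
          exact one_ne_zero h2
        rw [hS]
        exact PM.empty
    | succ m ih =>
        obtain ⟨a, u, v, ha, huv, hsum⟩ : ∃ a u v, Pw G m a ∧ G.Adj u v ∧
            ∑ i ∈ S, ev (w i) = a + ev u + ev v := by
          generalize (∑ i ∈ S, ev (w i)) = b at hm
          cases hm with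
          | succ _ a u v ha huv => exact ⟨a, u, v, ha, huv, rfl⟩
        obtain ⟨i, hi, hwi⟩ := copa_exists w S u (by
          rw [hsum]
          simp only [Pi.add_apply, ev, Pi.single_eq_same]
          omega)
        obtain ⟨j, hj, hwj⟩ := copa_exists w S v (by
          rw [hsum]
          simp only [Pi.add_apply, ev, Pi.single_eq_same]
          omega)
        have hij : i ≠ j := by
          intro h
          apply huv.ne
          rw [← hwi, ← hwj, h]
        have hs := copa_erase w S i j hi hj hij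
        rw [hsum, hwi, hwj, add_left_inj, add_left_inj] at hs
        have hpm := ih ((S.erase i).erase j) (by rw [← hs]; exact ha)
        have hj' : j ∉ (S.erase i).erase j := by simp
        have hi' : i ∉ (S.erase i).erase j := by simp
        have hadj : (G.comap w).Adj i j := by
          rw [SimpleGraph.comap_adj, hwi, hwj]
          exact huv
        have hfin := PM.step _ i j hpm hi' hj' hij hadj
        rwa [Finset.insert_erase (Finset.mem_erase.2 ⟨hij.symm, hj⟩), Finset.insert_erase hi] at hfin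

/-- A degree vector of `q` edges comes from a family of `2 q` vertices. PROOF: induction. -/
theorem exists_family (G : SimpleGraph V) (q : ℕ) (a : V → ℕ) (ha : Pw G q a) :
    ∃ w : Fin (2 * q) → V, a = ∑ i, ev (w i) := by
  induction ha with
  | zero => exact ⟨Fin.elim0, by simp⟩
  | succ q a u v _ _ ih =>
      obtain ⟨w, hw⟩ := ih
      refine ⟨(Fin.snoc (Fin.snoc w u : Fin (2 * q + 1) → V) v : Fin (2 * q + 1 + 1) → V), ?_⟩
      change a + ev u + ev v = ∑ i : Fin (2 * q + 1 + 1),
        ev ((Fin.snoc (Fin.snoc w u : Fin (2 * q + 1) → V) v : Fin (2 * q + 1 + 1) → V) i)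
      rw [Fin.sum_univ_castSucc, Fin.sum_univ_castSucc]
      simp only [Fin.snoc_castSucc, Fin.snoc_last]
      rw [← hw]

/-- THE STRUCTURE THEOREM. PROOF: `ι = Fin (2 q) ⊕ (V × Bool)`, `w (inl s)` from `exists_family`, `w (inr (v, _)) = v`, `Γ = G.comap w`,
`A = univ.map inl` (the image of `Fin (2 q)`), `PM Γ.Adj A` by `pm_iff_pw`; `exists_cover_PM` with the pull backs `(H l).comap w` (`dd_comap`) gives `R0`. Put
`R l u v := ∃ s s', inr (u, s) ≠ inr (v, s') ∧ (R0 l).Adj (inr (u, s)) (inr (v, s'))`. `JJ G q a u v ↔ PM (A ∪ {inr (u,s), inr (v,s')})` for any such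
`s, s'` (`pm_iff_pw`, the number `m` is determined by `pw_sum`; for `u = v` take `s ≠ s'`). `EE`: for `W ⊆ V` apply `DD (R0 l)` to `inr '' (W × Bool)` and
`Z = ∅`: the vertex found is `inr (w, s)`; `w` works (`p, q ≠ w`). -/
theorem structure_thm (G : SimpleGraph V) {t : ℕ} (H : Fin t → SimpleGraph V)
    (hH : ∀ u v, G.Adj u v ↔ ∃ l, (H l).Adj u v) (hD : ∀ l, DD (H l) Set.univ) (q : ℕ)
    (a : V → ℕ) (ha : Pw G q a) :
    ∃ R : Fin t → V → V → Prop, (∀ l u v, R l u v → R l v u) ∧ (∀ l, EE (R l)) ∧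
      ∀ u v, JJ G q a u v ↔ ∃ l, R l u v := by
  classical
  obtain ⟨w0, hw0⟩ := exists_family G q a ha
  set w : Fin (2 * q) ⊕ (V × Bool) → V := Sum.elim w0 Prod.fst with hw
  set A : Finset (Fin (2 * q) ⊕ (V × Bool)) :=
    (Finset.univ : Finset (Fin (2 * q))).map Function.Embedding.inl with hAdef
  have hsumA : ∑ i ∈ A, ev (w i) = a := by
    rw [hAdef, Finset.sum_map, hw0]
    rfl
  have hnotA : ∀ z : V × Bool, (Sum.inr z : Fin (2 * q) ⊕ (V × Bool)) ∉ A := by
    intro z hz
    rw [hAdef, Finset.mem_map] at hz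
    obtain ⟨i, _, hi⟩ := hz
    exact absurd hi (by simp)
  have hA : PM (G.comap w).Adj A := (pm_iff_pw G w A).2 ⟨q, by rw [hsumA]; exact ha⟩
  obtain ⟨R0, hR0D, hR0⟩ := exists_cover_PM (G.comap w) (fun l => (H l).comap w)
    (fun i j => hH (w i) (w j)) (fun l => dd_comap _ _ (hD l)) A hA
  have key : ∀ (u v : V) (s s' : Bool), ((u, s) : V × Bool) ≠ (v, s') →
      (JJ G q a u v ↔ ∃ l, (R0 l).Adj (Sum.inr (u, s)) (Sum.inr (v, s'))) := by
    intro u v s s' hne
    have hne' : (Sum.inr (u, s) : Fin (2 * q) ⊕ (V × Bool)) ≠ Sum.inr (v, s') := by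
      intro h
      exact hne (Sum.inr_injective h)
    rw [← hR0 _ _ (hnotA _) (hnotA _) hne', pm_iff_pw,
      Finset.sum_insert (by
        simp only [Finset.mem_insert, not_or]
        exact ⟨hne', hnotA _⟩), Finset.sum_insert (hnotA _), hsumA]
    have e : ev (w (Sum.inr (u, s))) + (ev (w (Sum.inr (v, s'))) + a) = a + ev u + ev v := by
      show ev u + (ev v + a) = a + ev u + ev v
      abel
    rw [e]
    constructor
    · intro h
      exact ⟨q + 1, h⟩
    · rintro ⟨m, hm⟩
      have h1 := pw_sum G m _ hm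
      have h2 := pw_sum G q a ha
      have h3 : ∑ x, (a + ev u + ev v) x = 2 * q + 2 := by
        simp only [Pi.add_apply, Finset.sum_add_distrib, h2, ev]
        simp [Pi.single_apply]
      have : m = q + 1 := by omega
      subst this
      exact hm
  refine ⟨fun l u v => ∃ s s' : Bool, ((u, s) : V × Bool) ≠ (v, s') ∧
    (R0 l).Adj (Sum.inr (u, s)) (Sum.inr (v, s')), ?_, ?_, ?_⟩
  · rintro l u v ⟨s, s', hne, h⟩
    exact ⟨s', s, Ne.symm hne, h.symm⟩
  · intro l W hW
    obtain ⟨w', hw', -, hprop⟩ := hR0D l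
      ((W ×ˢ (Finset.univ : Finset Bool)).map Function.Embedding.inr) ∅ (by
        intro i hi
        rw [Finset.mem_map] at hi
        obtain ⟨z, _, rfl⟩ := hi
        exact hnotA z) (Finset.empty_subset _) (by
        obtain ⟨x, hx⟩ := hW
        intro h
        have : (Sum.inr (x, true) : Fin (2 * q) ⊕ (V × Bool)) ∈
            (∅ : Finset (Fin (2 * q) ⊕ (V × Bool))) := by
          rw [h]
          exact Finset.mem_map.2 ⟨(x, true), by simp [hx], rfl⟩
        simp at this) (by intro a ha; simp at ha)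
    rw [Finset.mem_map] at hw'
    obtain ⟨⟨x, s⟩, hxs, rfl⟩ := hw'
    rw [Finset.mem_product] at hxs
    refine ⟨x, hxs.1, ?_⟩
    rintro p hp r hr hpx hrx ⟨s1, s2, hne, hadj⟩
    by_contra hcon
    rw [not_or] at hcon
    have hp1 : (p, s1) ≠ (x, s) := fun h => hpx (congrArg Prod.fst h)
    have hr1 : (r, s2) ≠ (x, s) := fun h => hrx (congrArg Prod.fst h)
    refine hprop (Sum.inr (p, s1)) (Finset.mem_map.2 ⟨(p, s1), by simp [hp], rfl⟩)
      (Sum.inr (r, s2)) (Finset.mem_map.2 ⟨(r, s2), by simp [hr], rfl⟩)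
      (fun h => hp1 (Sum.inr_injective h)) (fun h => hr1 (Sum.inr_injective h))
      (fun h => hcon.1 ⟨s, s1, Ne.symm hp1, h⟩) (fun h => hcon.2 ⟨s, s2, Ne.symm hr1, h⟩) hadj
  · intro u v
    constructor
    · intro h
      obtain ⟨l, hl⟩ := (key u v true false (by intro h; simpa using congrArg Prod.snd h)).1 h
      exact ⟨l, true, false, by intro h; simpa using congrArg Prod.snd h, hl⟩
    · rintro ⟨l, s, s', hne, h⟩
      exact (key u v s s' hne).2 ⟨l, h⟩

end Pool.Agent.MP_9b0fed_al
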