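import Pool.Agent.Lib.MP_9b0fed_al.PfC

/-!
# MP_9b0fed_al JOB PFD: the key property of perfect matchings
-/

set_option autoImplicit false

open Finset

namespace Pool.Agent.MP_9b0fed_al

/-- PROOF: the parity of a perfectly matched set. -/
theorem pm_card_even {ι : Type} [DecidableEq ι] (adj : ι → ι → Prop) (S : Finset ι)
    (h : PM adj S) : Even S.card := by
  induction h with
  | empty => simp
  | step S i j _ hi hj hij _ ih =>
    rw [Finset.card_insert_of_notMem (by simp [hij, hi]), Finset.card_insert_of_notMem hj]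
    obtain ⟨r, hr⟩ := ih
    exact ⟨r + 1, by omega⟩

theorem det_two {K : Type} [Field K] [CharP K 2] {ι : Type} [DecidableEq ι] (N : ι → ι → K)
    (hs : ∀ i j, N i j = N j i) (i j : ι) (hij : i ≠ j) (hi : N i i = 0) (hj : N j j = 0) :
    (Matrix.of (fun a b : ({i, j} : Finset ι) => N a b)).det = N i j ^ 2 := by
  have hmem : ∀ a : Fin 2, (![i, j] : Fin 2 → ι) a ∈ ({i, j} : Finset ι) := by
    intro a; fin_cases a <;> simp
  let e : Fin 2 → ({i, j} : Finset ι) := fun a => ⟨(![i, j] : Fin 2 → ι) a, hmem a⟩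
  have he : Function.Bijective e := by
    rw [Fintype.bijective_iff_injective_and_card]
    refine ⟨?_, ?_⟩
    · intro a b hab
      have h := congrArg Subtype.val hab
      simp only [e] at h
      fin_cases a <;> fin_cases b <;> simp_all
    · simp [Finset.card_insert_of_notMem, hij]
  have h1 := Matrix.det_submatrix_equiv_self (Equiv.ofBijective e he)
    (Matrix.of (fun a b : ({i, j} : Finset ι) => N a b))
  rw [← h1, Matrix.det_fin_two]
  simp only [Matrix.submatrix_apply, Matrix.of_apply, Equiv.ofBijective_apply, e,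
    Matrix.cons_val_zero, Matrix.cons_val_one, hi, hj, hs j i]
  rw [zero_mul, zero_sub, CharTwo.neg_eq]
  ring

theorem det_four {K : Type} [Field K] [CharP K 2] {ι : Type} [DecidableEq ι] (N : ι → ι → K)
    (hs : ∀ i j, N i j = N j i) (x y i j : ι) (h1 : x ≠ y) (h2 : x ≠ i) (h3 : x ≠ j) (h4 : y ≠ i)
    (h5 : y ≠ j) (h6 : i ≠ j) (hx : N x x = 0) (hy : N y y = 0) (hi : N i i = 0) (hj : N j j = 0) :
    (Matrix.of (fun a b : ({x, y, i, j} : Finset ι) => N a b)).det =
      (N x y * N i j + N x i * N y j + N x j * N y i) ^ 2 := by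
  have hmem : ∀ a : Fin 4, (![x, y, i, j] : Fin 4 → ι) a ∈ ({x, y, i, j} : Finset ι) := by
    intro a; fin_cases a <;> simp
  let e : Fin 4 → ({x, y, i, j} : Finset ι) := fun a => ⟨(![x, y, i, j] : Fin 4 → ι) a, hmem a⟩
  have he : Function.Bijective e := by
    rw [Fintype.bijective_iff_injective_and_card]
    refine ⟨?_, ?_⟩
    · intro a b hab
      have h := congrArg Subtype.val hab
      simp only [e] at h
      fin_cases a <;> fin_cases b <;> simp_all
    · simp [Finset.card_insert_of_notMem, h1, h2, h3, h4, h5, h6]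
  have hh := Matrix.det_submatrix_equiv_self (Equiv.ofBijective e he)
    (Matrix.of (fun a b : ({x, y, i, j} : Finset ι) => N a b))
  rw [← hh]
  set M := (Matrix.of (fun a b : ({x, y, i, j} : Finset ι) => N a b)).submatrix
    (Equiv.ofBijective e he) (Equiv.ofBijective e he) with hM
  have hMe : M = !![0, N x y, N x i, N x j; N x y, 0, N y i, N y j;
      N x i, N y i, 0, N i j; N x j, N y j, N i j, 0] := by
    ext a b
    fin_cases a <;> fin_cases b <;>
      simp [hM, e, hx, hy, hi, hj, hs y x, hs i x, hs j x, hs i y, hs j y, hs j i]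
  rw [hMe, Matrix.det_succ_row_zero]
  simp [Fin.sum_univ_succ, Matrix.det_fin_three, Matrix.submatrix, Fin.succAbove]
  have h2 : (2 : K) = 0 := CharTwo.two_eq_zero
  linear_combination (-2 * (N x y * N i j * (N x i * N y j) + N x y * N i j * (N x j * N y i) +
    N x i * N y j * (N x j * N y i))) * h2

theorem det_one_odd {K : Type} [Field K] [CharP K 2] {ι : Type} [DecidableEq ι] (N : ι → ι → K)
    (i : ι) : (Matrix.of (fun a b : ({i} : Finset ι) => N a b)).det = N i i := by
  rw [Matrix.det_unique]
  simp only [Matrix.of_apply]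
  have h : ((default : ({i} : Finset ι)) : ι) = i := by
    exact Finset.mem_singleton.mp (default : ({i} : Finset ι)).2
  rw [h]

theorem pf_key {ι : Type} [DecidableEq ι] (Γ : SimpleGraph ι) (A : Finset ι)
    (hA : PM Γ.Adj A) :
    ∃ (K : Type) (_ : Field K) (N : ι → ι → K), (∀ i j, N i j = N j i) ∧
      (∀ i j, i ∉ A → j ∉ A → i ≠ j → (N i j ≠ 0 ↔ PM Γ.Adj (insert i (insert j A)))) ∧
      ∀ x y i j, x ∉ A → y ∉ A → i ∉ A → j ∉ A → x ≠ y → x ≠ i → x ≠ j → y ≠ i → y ≠ j → i ≠ j →
        N i j = 0 → (N x i * N y j ≠ N x j * N y i ↔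
          PM Γ.Adj (insert x (insert y (insert i (insert j A))))) := by
  let R := MvPolynomial (Sym2 ι) (ZMod 2)
  let K := FractionRing R
  have hinj : Function.Injective (algebraMap R K) := IsFractionRing.injective R K
  have : CharP R 2 := inferInstance
  have : CharP K 2 := charP_of_injective_algebraMap hinj 2
  let T : Matrix ι ι K := (tutte Γ).map (algebraMap R K)
  have hTs : ∀ i j, T i j = T j i := by
    intro i j
    simp only [T, Matrix.map_apply, tutte]
    rw [SimpleGraph.adj_comm, Sym2.eq_swap]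
  have hdet : ∀ S : Finset ι,
      ((T.submatrix (fun i : S => (i : ι)) (fun i : S => (i : ι))).det ≠ 0 ↔ PM Γ.Adj S) := by
    intro S
    rw [← tutte_det_ne_zero_iff]
    have h1 : T.submatrix (fun i : S => (i : ι)) (fun i : S => (i : ι)) =
        (algebraMap R K).mapMatrix
          ((tutte Γ).submatrix (fun i : S => (i : ι)) (fun i : S => (i : ι))) := rfl
    rw [h1, ← RingHom.map_det]
    rw [Ne, Ne, map_eq_zero_iff _ hinj]
  obtain ⟨N, hNs, hN⟩ := exists_schur T hTs A ((hdet A).mpr hA)
  have hA0 := (hdet A).mpr hA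
  have hNS : ∀ S : Finset ι, Disjoint A S →
      ((Matrix.of (fun i j : S => N i j)).det ≠ 0 ↔ PM Γ.Adj (A ∪ S)) := by
    intro S hS
    rw [← hdet (A ∪ S), hN S hS]
    constructor
    · intro h; exact mul_ne_zero hA0 h
    · intro h; exact right_ne_zero_of_mul h
  have hev := pm_card_even _ _ hA
  have hdiag : ∀ i, i ∉ A → N i i = 0 := by
    intro i hi
    by_contra h
    have hd : Disjoint A {i} := by simpa using hi
    have h1 := (hNS {i} hd).mp (by rw [det_one_odd]; exact h)
    have h2 := pm_card_even _ _ h1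
    rw [Finset.card_union_of_disjoint hd, Finset.card_singleton] at h2
    obtain ⟨a, ha⟩ := hev
    obtain ⟨b, hb⟩ := h2
    omega
  refine ⟨K, inferInstance, N, hNs, ?_, ?_⟩
  · intro i j hi hj hij
    have hd : Disjoint A {i, j} := by
      simp [hi, hj]
    have h1 := hNS {i, j} hd
    rw [det_two N hNs i j hij (hdiag i hi) (hdiag j hj)] at h1
    have hset : A ∪ {i, j} = insert i (insert j A) := by
      ext a; simp
    rw [hset] at h1
    rw [← h1]
    simp
  · intro x y i j hx hy hi hj h1 h2 h3 h4 h5 h6 hij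
    have hd : Disjoint A {x, y, i, j} := by
      simp [hi, hj, hx, hy]
    have h7 := hNS {x, y, i, j} hd
    rw [det_four N hNs x y i j h1 h2 h3 h4 h5 h6 (hdiag x hx) (hdiag y hy) (hdiag i hi)
      (hdiag j hj), hij] at h7
    have hset : A ∪ {x, y, i, j} = insert x (insert y (insert i (insert j A))) := by
      ext a; simp
    rw [hset] at h7
    rw [← h7, mul_zero, zero_add]
    rw [Ne, Ne, pow_eq_zero_iff (by norm_num : (2 : ℕ) ≠ 0), CharTwo.add_eq_zero]

end Pool.Agent.MP_9b0fed_al
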