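import Pool.Agent.Lib.MP_9b0fed_al.Step
import Pool.Agent.Lib.MP_9b0fed_al.PfD
import Pool.Agent.Lib.MP_9b0fed_al.Chordal

/-!
# MP_9b0fed_al JOB COVER: covers of the graphs `J_A`
-/

set_option autoImplicit false

open Finset

namespace Pool.Agent.MP_9b0fed_al

theorem cover_pm_pair {ι : Type} [DecidableEq ι] (adj : ι → ι → Prop)
    (hs : ∀ i j, adj i j → adj j i) (T : Finset ι) (h : PM adj T) (hT : T.card = 2) (i j : ι)
    (hi : i ∈ T) (hj : j ∈ T) (hij : i ≠ j) : adj i j := by
  cases h with
  | empty => simp at hT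
  | step S a b hS ha hb hab h =>
    have hbS : a ∉ insert b S := by
      simp only [Finset.mem_insert, not_or]
      exact ⟨hab, ha⟩
    rw [Finset.card_insert_of_notMem hbS, Finset.card_insert_of_notMem hb] at hT
    have hS0 : S = ∅ := Finset.card_eq_zero.1 (by omega)
    subst hS0
    simp only [Finset.mem_insert, Finset.notMem_empty, or_false] at hi hj
    rcases hi with rfl | rfl <;> rcases hj with rfl | rfl
    · exact absurd rfl hij
    · exact h
    · exact hs _ _ h
    · exact absurd rfl hij

/-- `J_A` (for a perfectly matched set `A` of copies) is covered by `t` graphs with Dirac's property. PROOF by induction on `PM Γ.Adj A`.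
`A = ∅`: `R l = H l`, `PM {i, j} ↔ Γ.Adj i j`. Step from `S` to `A = S ∪ {x, y}` with `Γ.Adj x y`: `R l` from the induction hypothesis, `(R l0).Adj x y` for some
`l0` (as `PM (S ∪ {x, y})`), `N` from `pf_key` for `S`; new `R l0 := addGraph (R l0) (N x) (N y)`, other `R l` unchanged. `dd_step`
(`(R l0).Adj x i → PM (S ∪ {x, i}) → N x i ≠ 0`), `dd_mono`. The equivalence: `PM (S ∪ {x,y,i,j})`: if `PM (S ∪ {i,j})`, some `R l` contains `i j`; otherwise
`N i j = 0` and `pf_key`. Conversely `PM (S ∪ {i,j})` implies `PM (S ∪ {i,j} ∪ {x,y})`; and if `N x i * N y j ≠ N x j * N y i`, either `N i j ≠ 0`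
(then `PM (S ∪ {i,j})`) or `N i j = 0` and `pf_key`. -/
theorem exists_cover_PM {ι : Type} [DecidableEq ι] {t : ℕ} (Γ : SimpleGraph ι)
    (H : Fin t → SimpleGraph ι) (hH : ∀ i j, Γ.Adj i j ↔ ∃ l, (H l).Adj i j)
    (hD : ∀ l, DD (H l) Set.univ) (A : Finset ι) (hA : PM Γ.Adj A) :
    ∃ R : Fin t → SimpleGraph ι, (∀ l, DD (R l) {i | i ∉ A}) ∧
      ∀ i j, i ∉ A → j ∉ A → i ≠ j →
        (PM Γ.Adj (insert i (insert j A)) ↔ ∃ l, (R l).Adj i j) := by
  induction hA with
  | empty =>
    refine ⟨H, fun l => dd_mono _ _ _ (Set.subset_univ _) (hD l), fun i j _ _ hij => ?_⟩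
    rw [← hH]
    constructor
    · intro h
      refine cover_pm_pair Γ.Adj (fun _ _ h => h.symm) _ h ?_ i j (by simp) (by simp) hij
      rw [Finset.card_insert_of_notMem (by simp [hij]), Finset.card_insert_of_notMem (by simp)]
      rfl
    · intro h
      exact PM.step ∅ i j PM.empty (by simp) (by simp) hij h
  | step S x y hS hx hy hxy hadj ih =>
    obtain ⟨R, hDR, hR⟩ := ih
    obtain ⟨l0, hl0⟩ := (hR x y hx hy hxy).1 (PM.step S x y hS hx hy hxy hadj)
    obtain ⟨K, _, N, hNs, hN2, hN4⟩ := pf_key Γ S hS
    have hNe : ∀ a i, a ∉ S → i ∉ S → a ≠ i → (R l0).Adj a i → N a i ≠ 0 := by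
      intro a i ha hi hai h
      exact (hN2 a i ha hi hai).2 ((hR a i ha hi hai).2 ⟨l0, h⟩)
    have hadd : ∀ i j, i ∉ insert x (insert y S) → j ∉ insert x (insert y S) →
        PM Γ.Adj (insert i (insert j S)) →
        PM Γ.Adj (insert x (insert y (insert i (insert j S)))) := by
      intro i j hi hj h
      simp only [Finset.mem_insert, not_or] at hi hj
      refine PM.step _ x y h ?_ ?_ hxy hadj
      · simp only [Finset.mem_insert, not_or]
        exact ⟨Ne.symm hi.1, Ne.symm hj.1, hx⟩
      · simp only [Finset.mem_insert, not_or]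
        exact ⟨Ne.symm hi.2.1, Ne.symm hj.2.1, hy⟩
    refine ⟨Function.update R l0 (addGraph (R l0) (N x) (N y)), fun l => ?_, ?_⟩
    · by_cases hl : l = l0
      · subst hl
        rw [Function.update_self]
        refine dd_mono _ _ _ ?_ (dd_step (R l) {i | i ∉ S} (hDR l) x y hx hy hl0 (N x) (N y)
          (fun i hi hix _ h => hNe x i hx hi (Ne.symm hix) h)
          (fun i hi _ hiy h => hNe y i hy hi (Ne.symm hiy) h))
        intro i hi
        have hi' : i ∉ insert x (insert y S) := hi
        simp only [Finset.mem_insert, not_or] at hi'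
        refine ⟨hi'.2.2, ?_⟩
        rintro (h | h)
        · exact hi'.1 h
        · exact hi'.2.1 h
      · rw [Function.update_of_ne hl]
        refine dd_mono _ _ _ ?_ (hDR l)
        intro i hi
        have hi' : i ∉ insert x (insert y S) := hi
        simp only [Finset.mem_insert, not_or] at hi'
        exact hi'.2.2
    · intro i j hi hj hij
      have hi' := hi
      have hj' := hj
      simp only [Finset.mem_insert, not_or] at hi' hj'
      have hset : insert i (insert j (insert x (insert y S)))
          = insert x (insert y (insert i (insert j S))) := by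
        ext a
        simp only [Finset.mem_insert]
        tauto
      rw [hset]
      have h4 := hN4 x y i j hx hy hi'.2.2 hj'.2.2 hxy (Ne.symm hi'.1) (Ne.symm hj'.1)
        (Ne.symm hi'.2.1) (Ne.symm hj'.2.1) hij
      constructor
      · intro h
        by_cases hp : PM Γ.Adj (insert i (insert j S))
        · obtain ⟨l, hl⟩ := (hR i j hi'.2.2 hj'.2.2 hij).1 hp
          refine ⟨l, ?_⟩
          by_cases hll : l = l0
          · subst hll
            rw [Function.update_self]
            exact Or.inl hl
          · rw [Function.update_of_ne hll]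
            exact hl
        · have h0 : N i j = 0 := by
            by_contra hne
            exact hp ((hN2 i j hi'.2.2 hj'.2.2 hij).1 hne)
          refine ⟨l0, ?_⟩
          rw [Function.update_self]
          exact Or.inr ((h4 h0).2 h)
      · rintro ⟨l, hl⟩
        by_cases hll : l = l0
        · subst hll
          rw [Function.update_self] at hl
          rcases hl with hl | hl
          · exact hadd i j hi hj ((hR i j hi'.2.2 hj'.2.2 hij).2 ⟨l, hl⟩)
          · by_cases h0 : N i j = 0
            · exact (h4 h0).1 hl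
            · exact hadd i j hi hj ((hN2 i j hi'.2.2 hj'.2.2 hij).1 h0)
        · rw [Function.update_of_ne hll] at hl
          exact hadd i j hi hj ((hR i j hi'.2.2 hj'.2.2 hij).2 ⟨l, hl⟩)

end Pool.Agent.MP_9b0fed_al
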