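import Mathlib

/-!
# MP_9b0fed_al: definitions of the statement

Edge ideals, chordal graphs, the co-chordal cover number, graded Koszul homology
(`Tor_i^S(J, k)_j = H_i(x_1, …, x_n; J)_j`) and Castelnuovo-Mumford regularity.
-/

set_option autoImplicit false

open Finset

namespace Pool.Agent.MP_9b0fed_al

/-- The edge ideal `(x_u x_v : uv an edge of G)` of a graph on `Fin n`. -/
noncomputable def edgeIdeal (k : Type*) [Field k] {n : ℕ} (G : SimpleGraph (Fin n)) :
    Ideal (MvPolynomial (Fin n) k) :=
  Ideal.span {f | ∃ u v : Fin n, G.Adj u v ∧ f = MvPolynomial.X u * MvPolynomial.X v}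

/-- Chordal graphs: no induced cycle of length at least `4`. -/
def IsChordal {V : Type} (K : SimpleGraph V) : Prop :=
  ∀ m : ℕ, 4 ≤ m → IsEmpty (SimpleGraph.cycleGraph m ↪g K)

/-- Co-chordal graphs: the complement is chordal. -/
def IsCoChordal {V : Type} (H : SimpleGraph V) : Prop := IsChordal Hᶜ

/-- `G` is covered by `t` co-chordal subgraphs. -/
def HasCoChordalCover {V : Type} (G : SimpleGraph V) (t : ℕ) : Prop :=
  ∃ H : Fin t → G.Subgraph, (∀ l, IsCoChordal (H l).coe) ∧
    ∀ u v, G.Adj u v → ∃ l, (H l).Adj u v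

/-- The co-chordal cover number. -/
noncomputable def coChord {V : Type} (G : SimpleGraph V) : ℕ := sInf {t | HasCoChordalCover G t}

/-- The sign of `v` with respect to `σ`. -/
def sg {V : Type} [LinearOrder V] (v : V) (σ : Finset V) : ℤ :=
  (-1) ^ (σ.filter (fun w => w < v)).card

/-- The differential of the Koszul complex of the variables `x_1, …, x_n`; an element
`∑_σ f σ e_σ` of the Koszul complex is written as the family `f`, and
`∂ e_τ = ∑_{v ∈ τ} ± x_v e_{τ \ v}`. -/
noncomputable def koszulD (k : Type*) [Field k] (n : ℕ) :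
    (Finset (Fin n) → MvPolynomial (Fin n) k) →ₗ[k] (Finset (Fin n) → MvPolynomial (Fin n) k) where
  toFun f := fun σ => ∑ v ∈ σᶜ, sg v σ • (MvPolynomial.X v * f (insert v σ))
  map_add' f g := by
    funext σ
    simp only [Pi.add_apply, mul_add, smul_add, Finset.sum_add_distrib]
  map_smul' c f := by
    funext σ
    simp only [Pi.smul_apply, RingHom.id_apply, Finset.smul_sum, mul_smul_comm]
    exact Finset.sum_congr rfl fun v _ => smul_comm _ _ _

/-- The chains of homological degree `i` and internal degree `j` in the Koszul complex with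
coefficients in the ideal `J`: families `f` with `f σ ∈ J`, `f σ = 0` unless `σ` has `i`
elements, and `f σ` homogeneous of degree `j - i` (the basis element `e_σ` has degree `i`). -/
noncomputable def koszulChains {k : Type*} [Field k] {n : ℕ} (J : Ideal (MvPolynomial (Fin n) k))
    (i j : ℕ) : Submodule k (Finset (Fin n) → MvPolynomial (Fin n) k) where
  carrier := {f | ∀ σ, f σ ∈ J ∧ (σ.card ≠ i → f σ = 0) ∧
    ∀ m ∈ (f σ).support, m.degree + i = j}
  zero_mem' := fun σ => ⟨J.zero_mem, fun _ => rfl, by simp⟩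
  add_mem' := by
    intro f g hf hg σ
    refine ⟨J.add_mem (hf σ).1 (hg σ).1, fun h => ?_, fun m hm => ?_⟩
    · simp [(hf σ).2.1 h, (hg σ).2.1 h]
    · rcases Finset.mem_union.1 (MvPolynomial.support_add hm) with h | h
      · exact (hf σ).2.2 m h
      · exact (hg σ).2.2 m h
  smul_mem' := by
    intro c f hf σ
    refine ⟨?_, fun h => ?_, fun m hm => ?_⟩
    · rw [Pi.smul_apply, MvPolynomial.smul_eq_C_mul]
      exact J.mul_mem_left _ (hf σ).1
    · simp [(hf σ).2.1 h]
    · exact (hf σ).2.2 m (MvPolynomial.support_smul hm)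

/-- The cycles. -/
noncomputable def koszulCycles {k : Type*} [Field k] {n : ℕ} (J : Ideal (MvPolynomial (Fin n) k))
    (i j : ℕ) : Submodule k (Finset (Fin n) → MvPolynomial (Fin n) k) :=
  koszulChains J i j ⊓ LinearMap.ker (koszulD k n)

/-- The boundaries. -/
noncomputable def koszulBoundaries {k : Type*} [Field k] {n : ℕ}
    (J : Ideal (MvPolynomial (Fin n) k)) (i j : ℕ) :
    Submodule k (Finset (Fin n) → MvPolynomial (Fin n) k) :=
  (koszulChains J (i + 1) j).map (koszulD k n)

/-- `Tor_i^S(J, k)_j`, computed as the homology in homological degree `i` and internal degree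
`j` of the Koszul complex of `x_1, …, x_n` with coefficients in `J`. -/
abbrev KTor {k : Type*} [Field k] {n : ℕ} (J : Ideal (MvPolynomial (Fin n) k)) (i j : ℕ) : Type _ :=
  (koszulCycles J i j) ⧸ (koszulBoundaries J i j).comap (koszulCycles J i j).subtype

/-- Castelnuovo-Mumford regularity: `max {j - i : Tor_i^S(J, k)_j ≠ 0}`. -/
noncomputable def reg {k : Type*} [Field k] {n : ℕ} (J : Ideal (MvPolynomial (Fin n) k)) : ℤ :=
  sSup {d : ℤ | ∃ i j : ℕ, Nontrivial (KTor J i j) ∧ d = (j : ℤ) - i}

end Pool.Agent.MP_9b0fed_al
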