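import Pool.Agent.Lib.MP_9b0fed_al.Basic

/-!
# MP_9b0fed_al JOB DIRAC: Dirac's lemma on simplicial vertices of chordal graphs
-/

set_option autoImplicit false

open Finset

namespace Pool.Agent.MP_9b0fed_al

/-- An induced path together with a vertex adjacent exactly to its two ends is an induced cycle.
`c 0, …, c n` (`n ≥ 2`) is an induced path, `v` is adjacent to `c 0` and `c n` and to no other `c j`. Then there is an induced cycle of
length `n + 2`. PROOF: the map `Fin (n + 2) → κ`, `j ↦ c j` for `j ≤ n`, `n + 1 ↦ v`; adjacency of `cycleGraph`: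
`SimpleGraph.cycleGraph_adj'` or `cycleGraph_adj`. -/
theorem cycle_of_path {κ : Type} (K : SimpleGraph κ) (n : ℕ) (hn : 2 ≤ n) (c : ℕ → κ) (v : κ)
    (hinj : ∀ i j, i ≤ n → j ≤ n → c i = c j → i = j)
    (hadj : ∀ i j, i ≤ n → j ≤ n → (K.Adj (c i) (c j) ↔ (i + 1 = j ∨ j + 1 = i)))
    (hv : ∀ i, i ≤ n → c i ≠ v) (hv2 : ∀ i, i ≤ n → (K.Adj v (c i) ↔ (i = 0 ∨ i = n))) :
    Nonempty (SimpleGraph.cycleGraph (n + 2) ↪g K) := by
  set f : Fin (n + 2) → κ := fun i => if (i : ℕ) ≤ n then c i else v with hf
  have hfinj : Function.Injective f := by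
    intro i j hij
    simp only [hf] at hij
    split_ifs at hij with h1 h2 h2
    · exact Fin.ext (hinj _ _ h1 h2 hij)
    · exact absurd hij (hv _ h1)
    · exact absurd hij.symm (hv _ h2)
    · ext
      have := i.isLt
      have := j.isLt
      omega
  refine ⟨⟨⟨f, hfinj⟩, ?_⟩⟩
  intro a b
  show K.Adj (f a) (f b) ↔ _
  have key : (SimpleGraph.cycleGraph (n + 2)).Adj a b ↔
      ((a : ℕ) + 1 = b ∨ (b : ℕ) + 1 = a ∨ ((a : ℕ) = 0 ∧ (b : ℕ) = n + 1) ∨
        ((b : ℕ) = 0 ∧ (a : ℕ) = n + 1)) := by
    rw [SimpleGraph.cycleGraph_adj']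
    have ha := a.isLt
    have hb := b.isLt
    rw [Fin.sub_def, Fin.sub_def]
    simp only
    rcases le_or_gt (b : ℕ) (a : ℕ) with h | h
    · rcases Nat.eq_or_lt_of_le h with h' | h'
      · rw [h']
        have e : n + 2 - (a : ℕ) + a = n + 2 := by omega
        rw [e, Nat.mod_self]
        omega
      · have e1 : n + 2 - (b : ℕ) + a = (a - b) + (n + 2) := by omega
        have e2 : n + 2 - (a : ℕ) + b < n + 2 := by omega
        rw [e1, Nat.add_mod_right, Nat.mod_eq_of_lt (by omega : (a : ℕ) - b < n + 2),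
          Nat.mod_eq_of_lt e2]
        omega
    · have e1 : n + 2 - (a : ℕ) + b = (b - a) + (n + 2) := by omega
      have e2 : n + 2 - (b : ℕ) + a < n + 2 := by omega
      rw [e1, Nat.add_mod_right, Nat.mod_eq_of_lt (by omega : (b : ℕ) - a < n + 2),
        Nat.mod_eq_of_lt e2]
      omega
  rw [key]
  have ha := a.isLt
  have hb := b.isLt
  simp only [hf]
  split_ifs with h1 h2 h2
  · rw [hadj _ _ h1 h2]
    omega
  · rw [SimpleGraph.adj_comm, hv2 _ h1]
    omega
  · rw [hv2 _ h2]
    omega
  · constructor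
    · intro h
      exact absurd h (SimpleGraph.irrefl K)
    · intro h
      omega

/-- Auxiliary for DIRB: a walk of length `n` from `s` to `t` with inner vertices in `C`. -/
private def dirbPath {κ : Type} (K : SimpleGraph κ) (C : Set κ) (s t : κ) (n : ℕ) : Prop :=
  ∃ c : ℕ → κ, c 0 = s ∧ c n = t ∧ (∀ i, i < n → K.Adj (c i) (c (i + 1))) ∧
    ∀ i, 0 < i → i < n → c i ∈ C

private theorem dirb_extend {κ : Type} (K : SimpleGraph κ) (C : Set κ) (s p q : κ)
    (hp : p ∈ C) (hsp : K.Adj s p)
    (h : Relation.ReflTransGen (fun x y => K.Adj x y ∧ x ∈ C ∧ y ∈ C) p q) :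
    q ∈ C ∧ ∃ n, 1 ≤ n ∧ dirbPath K C s q n := by
  induction h with
  | refl =>
    refine ⟨hp, 1, le_refl 1, fun k => if k = 0 then s else p, by simp, by simp, ?_, ?_⟩
    · intro i hi
      have : i = 0 := by omega
      subst this
      simpa using hsp
    · intro i h0 h1
      omega
  | @tail b c' _ hstep ih =>
    obtain ⟨hb, n, hn, c, hc0, hcn, hadj, hin⟩ := ih
    refine ⟨hstep.2.2, n + 1, by omega, fun k => if k ≤ n then c k else c', ?_, ?_, ?_, ?_⟩
    · simp [hc0]
    · simp
    · intro i hi
      rcases Nat.lt_or_ge i n with h1 | h1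
      · have h2 : i ≤ n := by omega
        have h3 : i + 1 ≤ n := by omega
        simpa [h2, h3] using hadj i h1
      · have h2 : i = n := by omega
        subst h2
        have h3 : ¬ (i + 1 ≤ i) := by omega
        simp only [le_refl, if_true, h3, if_false]
        rw [hcn]
        exact hstep.1
    · intro i h0 h1
      have h2 : i ≤ n := by omega
      simp only [h2, if_true]
      rcases Nat.lt_or_ge i n with h3 | h3
      · exact hin i h0 h3
      · have h4 : i = n := by omega
        rw [h4, hcn]
        exact hb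

private theorem dirb_exists {κ : Type} (K : SimpleGraph κ) (C : Set κ) (s s' p q : κ)
    (hp : p ∈ C) (hsp : K.Adj s p) (hsq : K.Adj s' q)
    (h : Relation.ReflTransGen (fun x y => K.Adj x y ∧ x ∈ C ∧ y ∈ C) p q) :
    ∃ n, dirbPath K C s s' n := by
  obtain ⟨hq, n, hn, c, hc0, hcn, hadj, hin⟩ := dirb_extend K C s p q hp hsp h
  refine ⟨n + 1, fun k => if k ≤ n then c k else s', ?_, ?_, ?_, ?_⟩
  · simp [hc0]
  · simp
  · intro i hi
    rcases Nat.lt_or_ge i n with h1 | h1
    · have h2 : i ≤ n := by omega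
      have h3 : i + 1 ≤ n := by omega
      simpa [h2, h3] using hadj i h1
    · have h2 : i = n := by omega
      subst h2
      have h3 : ¬ (i + 1 ≤ i) := by omega
      simp only [le_refl, if_true, h3, if_false]
      rw [hcn]
      exact hsq.symm
  · intro i h0 h1
    have h2 : i ≤ n := by omega
    simp only [h2, if_true]
    rcases Nat.lt_or_ge i n with h3 | h3
    · exact hin i h0 h3
    · have h4 : i = n := by omega
      rw [h4, hcn]
      exact hq

/-- Cutting a piece out of a walk: `i ≤ n'`, `n' + d = n`, and the walk jumps from `i` to `i + 1 + d`. -/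
private theorem dirb_cut {κ : Type} (K : SimpleGraph κ) (C : Set κ) (s t : κ) (n : ℕ) (c : ℕ → κ)
    (hc0 : c 0 = s) (hcn : c n = t) (hadj : ∀ i, i < n → K.Adj (c i) (c (i + 1)))
    (hin : ∀ i, 0 < i → i < n → c i ∈ C) (i d n' : ℕ) (hi : i ≤ n') (hn : n' + d = n)
    (hjump : i < n' → K.Adj (c i) (c (i + 1 + d))) (hend : i = n' → c i = t) :
    dirbPath K C s t n' := by
  refine ⟨fun k => if k ≤ i then c k else c (k + d), ?_, ?_, ?_, ?_⟩
  · simp [hc0]
  · rcases Nat.lt_or_ge i n' with h1 | h1
    · have h2 : ¬ (n' ≤ i) := by omega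
      simp only [h2, if_false]
      rw [hn, hcn]
    · have h2 : i = n' := by omega
      have h3 : n' ≤ i := by omega
      simp only [h3, if_true]
      rw [← h2]
      exact hend h2
  · intro k hk
    rcases Nat.lt_trichotomy k i with h1 | h1 | h1
    · have h2 : k ≤ i := by omega
      have h3 : k + 1 ≤ i := by omega
      simp only [h2, h3, if_true]
      exact hadj k (by omega)
    · subst h1
      have h3 : ¬ (k + 1 ≤ k) := by omega
      simp only [le_refl, if_true, h3, if_false]
      exact hjump hk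
    · have h2 : ¬ (k ≤ i) := by omega
      have h3 : ¬ (k + 1 ≤ i) := by omega
      simp only [h2, h3, if_false]
      have h4 := hadj (k + d) (by omega)
      have h5 : k + 1 + d = k + d + 1 := by omega
      rw [h5]
      exact h4
  · intro k h0 hk
    rcases Nat.lt_or_ge i k with h1 | h1
    · have h2 : ¬ (k ≤ i) := by omega
      simp only [h2, if_false]
      exact hin (k + d) (by omega) (by omega)
    · simp only [h1, if_true]
      exact hin k h0 (by omega)

/-- The neighbours in the open neighbourhood of `v` of a connected set `C` of non-neighbours of `v` form a clique.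
Here connectedness is expressed by: any two elements of `C` are joined by a path inside `C`.
PROOF: suppose `s ≠ s'` are not adjacent. Choose a shortest path `s = c 0, c 1, …, c n = s'` with `c 1, …, c (n-1) ∈ C` (exists:
`s ~ p`, `s' ~ p'`, `p, p' ∈ C` and a path in `C` from `p` to `p'`; use `Nat.find` on the length). `n ≥ 2`; a shortest one has no chords and no
repetitions, so `cycle_of_path` gives an induced cycle of length `n + 2 ≥ 4`. -/
theorem clique_of_connected {κ : Type} (K : SimpleGraph κ)
    (hK : IsChordal K) (v : κ) (C : Set κ) (hC : ∀ c ∈ C, c ≠ v ∧ ¬ K.Adj v c)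
    (hconn : ∀ p ∈ C, ∀ p' ∈ C,
      Relation.ReflTransGen (fun x y => K.Adj x y ∧ x ∈ C ∧ y ∈ C) p p')
    (s s' : κ) (hs : K.Adj v s) (hs' : K.Adj v s') (hss : s ≠ s')
    (p p' : κ) (hp : p ∈ C) (hp' : p' ∈ C) (hsp : K.Adj s p) (hsp' : K.Adj s' p') :
    K.Adj s s' := by
  classical
  by_contra hnadj
  have hex : ∃ n, dirbPath K C s s' n :=
    dirb_exists K C s s' p p' hp hsp hsp' (hconn p hp p' hp')
  obtain ⟨c, hc0, hcn, hadj, hin⟩ := Nat.find_spec hex
  have hmin : ∀ m, m < Nat.find hex → ¬ dirbPath K C s s' m := fun m hm => Nat.find_min hex hm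
  generalize Nat.find hex = n at hcn hadj hin hmin
  have hn0 : n ≠ 0 := by
    rintro rfl
    exact hss (hc0.symm.trans hcn)
  have hn1 : n ≠ 1 := by
    rintro rfl
    have := hadj 0 (by omega)
    rw [hc0, Nat.zero_add, hcn] at this
    exact hnadj this
  have hn2 : 2 ≤ n := by omega
  -- no repetitions
  have hne : ∀ i j, i < j → j ≤ n → c i ≠ c j := by
    intro i j hij hj heq
    refine hmin (n - (j - i)) (by omega) ?_
    refine dirb_cut K C s s' n c hc0 hcn hadj hin i (j - i) (n - (j - i)) (by omega) (by omega) ?_ ?_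
    · intro h1
      have h2 : i + 1 + (j - i) = j + 1 := by omega
      rw [h2, heq]
      exact hadj j (by omega)
    · intro h1
      have h2 : j = n := by omega
      rw [heq, h2, hcn]
  -- no chords
  have hnc : ∀ i j, i + 1 < j → j ≤ n → ¬ K.Adj (c i) (c j) := by
    intro i j hij hj hA
    refine hmin (n - (j - i - 1)) (by omega) ?_
    refine dirb_cut K C s s' n c hc0 hcn hadj hin i (j - i - 1) (n - (j - i - 1)) (by omega)
      (by omega) ?_ ?_
    · intro h1
      have h2 : i + 1 + (j - i - 1) = j := by omega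
      rw [h2]
      exact hA
    · intro h1
      omega
  have hcyc : Nonempty (SimpleGraph.cycleGraph (n + 2) ↪g K) := by
    refine cycle_of_path K n hn2 c v ?_ ?_ ?_ ?_
    · intro i j hi hj heq
      rcases Nat.lt_trichotomy i j with h | h | h
      · exact absurd heq (hne i j h hj)
      · exact h
      · exact absurd heq.symm (hne j i h hi)
    · intro i j hi hj
      constructor
      · intro hA
        by_contra hcon
        push Not at hcon
        rcases Nat.lt_trichotomy i j with h | h | h
        · exact hnc i j (by omega) hj hA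
        · subst h
          exact K.loopless.irrefl _ hA
        · exact hnc j i (by omega) hi hA.symm
      · rintro (h | h)
        · rw [← h]
          exact hadj i (by omega)
        · rw [← h]
          exact (hadj j (by omega)).symm
    · intro i hi
      rcases Nat.eq_zero_or_pos i with h0 | h0
      · rw [h0, hc0]
        exact fun h => hs.ne h.symm
      · rcases Nat.lt_or_ge i n with h1 | h1
        · exact (hC _ (hin i h0 h1)).1
        · have h2 : i = n := by omega
          rw [h2, hcn]
          exact fun h => hs'.ne h.symm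
    · intro i hi
      constructor
      · intro hA
        by_contra hcon
        push Not at hcon
        exact (hC _ (hin i (by omega) (by omega))).2 hA
      · rintro (h | h)
        · rw [h, hc0]
          exact hs
        · rw [h, hcn]
          exact hs'
  exact (hK (n + 2) (by omega)).false hcyc.some

/-- DIRAC. In a chordal graph `K`: for every finite `W` and every clique `Z ⊊ W` there is a vertex `w ∈ W \ Z` whose neighbours in `W` form a
clique. PROOF by strong induction on `W.card`. If there are `v, u ∈ W`, `u ≠ v`, `u` not adjacent to `v`, such that `Z ⊆ {v} ∪ N(v)`: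
let `C` = the set of vertices of `W` reachable from `u` inside `W \ ({v} ∪ N(v))` (Relation.ReflTransGen), `S` = the set of `s ∈ W`, `s ∈ N(v)`, with a
neighbour in `C`. `S` is a clique (`clique_of_connected`). Apply the induction hypothesis to `C ∪ S` (does not contain `v`) and the clique
`S ≠ C ∪ S`: `w ∈ C`, whose neighbours in `W` are all in `C ∪ S`; `w ∉ Z` since `Z ⊆ {v} ∪ N(v)`. Otherwise: every `v ∈ W` with `Z ⊆ {v} ∪ N(v)`
is adjacent to all other vertices of `W`; this holds for `v ∈ Z` (`Z` is a clique), and then for all `v ∈ W`; so `W` is a clique and any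
`w ∈ W \ Z` works. -/
theorem dirac {κ : Type} (K : SimpleGraph κ) (hK : IsChordal K) (W Z : Finset κ) (hZW : Z ⊆ W)
    (hne : Z ≠ W) (hZ : ∀ a ∈ Z, ∀ b ∈ Z, a ≠ b → K.Adj a b) :
    ∃ w ∈ W, w ∉ Z ∧ ∀ a ∈ W, ∀ b ∈ W, K.Adj w a → K.Adj w b → a ≠ b → K.Adj a b := by
  classical
  induction hn : W.card using Nat.strong_induction_on generalizing W Z with
  | _ n ih =>
  by_cases hcase : ∃ v ∈ W, ∃ u ∈ W, u ≠ v ∧ ¬ K.Adj v u ∧ ∀ z ∈ Z, z = v ∨ K.Adj v z
  · obtain ⟨v, hvW, u, huW, huv, huadj, hZv⟩ := hcase
    let A : κ → Prop := fun x => x ∈ W ∧ x ≠ v ∧ ¬ K.Adj v x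
    let R : κ → κ → Prop := fun x y => K.Adj x y ∧ A x ∧ A y
    have huA : A u := ⟨huW, huv, huadj⟩
    have hreachA : ∀ x, Relation.ReflTransGen R u x → A x := by
      intro x hx
      induction hx with
      | refl => exact huA
      | tail _ h _ => exact h.2.2
    let C : Finset κ := W.filter (fun x => Relation.ReflTransGen R u x)
    have hCmem : ∀ x, x ∈ C ↔ Relation.ReflTransGen R u x := by
      intro x
      simp only [C, Finset.mem_filter]
      exact ⟨fun h => h.2, fun h => ⟨(hreachA x h).1, h⟩⟩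
    let S : Finset κ := W.filter (fun s => K.Adj v s ∧ ∃ c ∈ C, K.Adj s c)
    have hSmem : ∀ s, s ∈ S ↔ s ∈ W ∧ K.Adj v s ∧ ∃ c ∈ C, K.Adj s c := by
      intro s
      simp only [S, Finset.mem_filter]
    have huC : u ∈ C := (hCmem u).2 Relation.ReflTransGen.refl
    -- paths inside C
    have hpath : ∀ x, Relation.ReflTransGen R u x →
        Relation.ReflTransGen (fun x y => K.Adj x y ∧ x ∈ (C : Set κ) ∧ y ∈ (C : Set κ)) u x := by
      intro x hx
      induction hx with
      | refl => exact Relation.ReflTransGen.refl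
      | tail hb h ih' =>
        refine ih'.tail ⟨h.1, ?_, ?_⟩
        · exact Finset.mem_coe.2 ((hCmem _).2 hb)
        · exact Finset.mem_coe.2 ((hCmem _).2 (hb.tail h))
    have hsymm : ∀ x y,
        Relation.ReflTransGen (fun x y => K.Adj x y ∧ x ∈ (C : Set κ) ∧ y ∈ (C : Set κ)) x y →
        Relation.ReflTransGen (fun x y => K.Adj x y ∧ x ∈ (C : Set κ) ∧ y ∈ (C : Set κ)) y x := by
      intro x y h
      induction h with
      | refl => exact Relation.ReflTransGen.refl
      | tail _ h ih' => exact Relation.ReflTransGen.head ⟨h.1.symm, h.2.2, h.2.1⟩ ih'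
    have hconn : ∀ p ∈ (C : Set κ), ∀ p' ∈ (C : Set κ),
        Relation.ReflTransGen (fun x y => K.Adj x y ∧ x ∈ (C : Set κ) ∧ y ∈ (C : Set κ)) p p' := by
      intro p hp p' hp'
      have h1 := hpath p ((hCmem p).1 (Finset.mem_coe.1 hp))
      have h2 := hpath p' ((hCmem p').1 (Finset.mem_coe.1 hp'))
      exact (hsymm _ _ h1).trans h2
    have hCnon : ∀ c ∈ (C : Set κ), c ≠ v ∧ ¬ K.Adj v c := by
      intro c hc
      have := hreachA c ((hCmem c).1 (Finset.mem_coe.1 hc))
      exact this.2
    have hScl : ∀ a ∈ S, ∀ b ∈ S, a ≠ b → K.Adj a b := by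
      intro a ha b hb hab
      obtain ⟨_, hva, c, hc, hac⟩ := (hSmem a).1 ha
      obtain ⟨_, hvb, c', hc', hbc⟩ := (hSmem b).1 hb
      exact clique_of_connected K hK v (C : Set κ) hCnon hconn a b hva hvb hab c c'
        (Finset.mem_coe.2 hc) (Finset.mem_coe.2 hc') hac hbc
    have hvC : v ∉ C := fun h => (hCnon v (Finset.mem_coe.2 h)).1 rfl
    have hvS : v ∉ S := fun h => K.loopless.irrefl v ((hSmem v).1 h).2.1
    have hsub : C ∪ S ⊆ W := by
      intro x hx
      rcases Finset.mem_union.1 hx with h | h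
      · exact (hreachA x ((hCmem x).1 h)).1
      · exact ((hSmem x).1 h).1
    have hlt : (C ∪ S).card < n := by
      rw [← hn]
      refine Finset.card_lt_card ((Finset.ssubset_iff_subset_ne).2 ⟨hsub, ?_⟩)
      intro h
      have : v ∈ C ∪ S := h ▸ hvW
      rcases Finset.mem_union.1 this with h | h
      · exact hvC h
      · exact hvS h
    have hneS : S ≠ C ∪ S := by
      intro h
      have : u ∈ S := by rw [h]; exact Finset.mem_union_left _ huC
      exact huadj ((hSmem u).1 this).2.1
    obtain ⟨w, hw, hwS, hwn⟩ := ih (C ∪ S).card hlt (C ∪ S) S Finset.subset_union_right hneS hScl rfl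
    have hwC : w ∈ C := by
      rcases Finset.mem_union.1 hw with h | h
      · exact h
      · exact absurd h hwS
    have hwA := hreachA w ((hCmem w).1 hwC)
    have hnb : ∀ a ∈ W, K.Adj w a → a ∈ C ∪ S := by
      intro a ha hwa
      by_cases hav : a = v
      · subst hav
        exact absurd hwa.symm hwA.2.2
      · by_cases hva : K.Adj v a
        · exact Finset.mem_union_right _ ((hSmem a).2 ⟨ha, hva, w, hwC, hwa.symm⟩)
        · refine Finset.mem_union_left _ ((hCmem a).2 ?_)
          exact ((hCmem w).1 hwC).tail ⟨hwa, hwA, ⟨ha, hav, hva⟩⟩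
    refine ⟨w, hsub hw, ?_, ?_⟩
    · intro hwZ
      rcases hZv w hwZ with h | h
      · exact hwA.2.1 h
      · exact hwA.2.2 h
    · intro a ha b hb hwa hwb hab
      exact hwn a (hnb a ha hwa) b (hnb b hb hwb) hwa hwb hab
  · push Not at hcase
    have h1 : ∀ v ∈ Z, ∀ u ∈ W, u ≠ v → K.Adj v u := by
      intro v hv u hu huv
      by_contra hcon
      obtain ⟨z, hz, hzv, hzn⟩ := hcase v (hZW hv) u hu huv hcon
      exact hzn (hZ v hv z hz (Ne.symm hzv))
    have h2 : ∀ v ∈ W, ∀ u ∈ W, u ≠ v → K.Adj v u := by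
      intro v hv u hu huv
      by_contra hcon
      obtain ⟨z, hz, hzv, hzn⟩ := hcase v hv u hu huv hcon
      exact hzn (h1 z hz v hv (Ne.symm hzv)).symm
    obtain ⟨w, hw, hwZ⟩ := Finset.exists_of_ssubset (Finset.ssubset_iff_subset_ne.2 ⟨hZW, hne⟩)
    exact ⟨w, hw, hwZ, fun a ha b hb _ _ hab => h2 a ha b hb (Ne.symm hab)⟩

end Pool.Agent.MP_9b0fed_al
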