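import Pool.Agent.Lib.MP_9b0fed_al.Basic

/-!
# MP_9b0fed_al JOB GRADED: from the Koszul complex of polynomials to multidegrees
-/

set_option autoImplicit false

open Finset

namespace Pool.Agent.MP_9b0fed_al

/-- the exponent vector `1_τ` -/
private noncomputable def gradedInd {n : ℕ} (τ : Finset (Fin n)) : Fin n →₀ ℕ :=
  Finsupp.equivFunOnFinite.symm (fun v => if v ∈ τ then 1 else 0)

private theorem gradedInd_apply {n : ℕ} (τ : Finset (Fin n)) (v : Fin n) :
    gradedInd τ v = if v ∈ τ then 1 else 0 := rfl

private theorem gradedInd_degree {n : ℕ} (τ : Finset (Fin n)) :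
    ∑ v, gradedInd τ v = τ.card := by
  simp [gradedInd_apply]

private theorem gradedInd_insert {n : ℕ} (τ : Finset (Fin n)) (v : Fin n) (hv : v ∉ τ) :
    gradedInd (insert v τ) = gradedInd τ + Finsupp.single v 1 := by
  ext w
  rw [Finsupp.add_apply, gradedInd_apply, gradedInd_apply, Finsupp.single_apply]
  by_cases h : w = v
  · subst h; simp [hv]
  · have h' : ¬ v = w := fun e => h e.symm
    simp [Finset.mem_insert, h, h']

/-- A monomial ideal `J` with exponent set `A`: if the multigraded pieces of degree `j` have no homology in degree `i`, then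
`Tor_i(J,k)_j = 0`. PROOF. Let `f` be a cycle in `koszulChains J i j`. For `b : Fin n → ℕ` with `∑ b = j` let
`f_b τ := if 1_τ ≤ b then coeff (b - 1_τ) (f τ) else 0`. `f_b` is supported on faces `face A b` of cardinality `i`, and `bd f_b = 0`
(coefficient of `x^{b - 1_σ}` in `koszulD f σ`: `coeff (m) (X v * g) = if v ∈ m.support then coeff (m - single v 1) g else 0`). Take `g_b` with
`bd g_b = f_b` and put `g τ := ∑_{b, ∑ b = j, 1_τ ≤ b} monomial (b - 1_τ) (g_b τ)` (finite sum over `b` with entries `≤ j`). Then
`g ∈ koszulChains J (i+1) j` and `koszulD g = f`. -/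
theorem graded_reduction {k : Type*} [Field k] {n : ℕ} (J : Ideal (MvPolynomial (Fin n) k))
    (A : Set (Fin n → ℕ)) (hA : IsUpperSet A)
    (hJ : ∀ f, f ∈ J ↔ ∀ m ∈ f.support, (⇑m : Fin n → ℕ) ∈ A) (i j : ℕ)
    (h : ∀ b : Fin n → ℕ, ∑ v, b v = j → Acyc k (face A b) i) :
    ¬ Nontrivial (KTor J i j) := by
  classical
  rw [not_nontrivial_iff_subsingleton, Submodule.Quotient.subsingleton_iff, eq_top_iff]
  rintro ⟨f, hf⟩ -
  rw [Submodule.mem_comap]
  show f ∈ koszulBoundaries J i j
  obtain ⟨hfc, hfk⟩ := Submodule.mem_inf.mp hf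
  have hfc' : ∀ σ, f σ ∈ J ∧ (σ.card ≠ i → f σ = 0) ∧ ∀ m ∈ (f σ).support, m.degree + i = j := hfc
  have hfk' : koszulD k n f = 0 := LinearMap.mem_ker.mp hfk
  -- multigraded pieces of `f`
  let ff : (Fin n →₀ ℕ) → Finset (Fin n) → k := fun b τ =>
    if gradedInd τ ≤ b then MvPolynomial.coeff (b - gradedInd τ) (f τ) else 0
  have hffs : ∀ b τ, ff b τ ≠ 0 → face A (⇑b) τ ∧ τ.card = i := by
    intro b τ hne
    by_cases hle : gradedInd τ ≤ b
    · simp only [ff, if_pos hle] at hne
      have hmem : b - gradedInd τ ∈ (f τ).support := MvPolynomial.mem_support_iff.mpr hne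
      refine ⟨⟨⇑(b - gradedInd τ), (hJ _).mp (hfc' τ).1 _ hmem, ?_⟩, ?_⟩
      · intro v
        have := hle v
        rw [gradedInd_apply] at this
        rw [Finsupp.tsub_apply, gradedInd_apply]
        omega
      · by_contra hcard
        rw [(hfc' τ).2.1 hcard] at hne
        simp at hne
    · simp [ff, if_neg hle] at hne
  have hffb : ∀ b σ, bd (ff b) σ = 0 := by
    intro b σ
    by_cases hle : gradedInd σ ≤ b
    · have h0 : MvPolynomial.coeff (b - gradedInd σ) (koszulD k n f σ) = 0 := by
        rw [hfk']; simp
      have h1 : koszulD k n f σ = ∑ v ∈ σᶜ, sg v σ • (MvPolynomial.X v * f (insert v σ)) := rfl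
      rw [h1, MvPolynomial.coeff_sum] at h0
      unfold bd
      rw [← h0]
      apply Finset.sum_congr rfl
      intro v hv
      have hv' : v ∉ σ := Finset.mem_compl.mp hv
      rw [MvPolynomial.coeff_smul, zsmul_eq_mul, MvPolynomial.coeff_X_mul']
      congr 1
      have hiff : (gradedInd (insert v σ) ≤ b) ↔ v ∈ (b - gradedInd σ).support := by
        rw [Finsupp.mem_support_iff, Finsupp.tsub_apply, gradedInd_apply, if_neg hv', gradedInd_insert σ v hv']
        constructor
        · intro hh
          have := hh v
          rw [Finsupp.add_apply, gradedInd_apply, if_neg hv', Finsupp.single_eq_same] at this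
          omega
        · intro hh w
          rw [Finsupp.add_apply]
          by_cases hw : w = v
          · subst hw
            rw [gradedInd_apply, if_neg hv', Finsupp.single_eq_same]
            omega
          · rw [Finsupp.single_eq_of_ne hw]
            have := hle w
            omega
      by_cases hle' : gradedInd (insert v σ) ≤ b
      · simp only [ff, if_pos hle', if_pos (hiff.mp hle')]
        congr 1
        rw [gradedInd_insert σ v hv', tsub_add_eq_tsub_tsub]
      · simp only [ff, if_neg hle', if_neg (fun hc => hle' (hiff.mpr hc))]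
    · unfold bd
      apply Finset.sum_eq_zero
      intro v hv
      have hv' : v ∉ σ := Finset.mem_compl.mp hv
      have hle' : ¬ gradedInd (insert v σ) ≤ b := by
        intro hc
        apply hle
        refine le_trans ?_ hc
        rw [gradedInd_insert σ v hv']
        exact le_self_add
      simp only [ff, if_neg hle', mul_zero]
  -- choose primitives
  have hch : ∀ b : Fin n →₀ ℕ, ∃ g : Finset (Fin n) → k,
      (∀ τ, g τ ≠ 0 → face A (⇑b) τ ∧ τ.card = i + 1 ∧ ∑ v, b v = j) ∧
      (∑ v, b v = j → ∀ σ, bd g σ = ff b σ) := by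
    intro b
    by_cases hb : ∑ v, b v = j
    · obtain ⟨g, hg1, hg2⟩ := h (⇑b) hb (ff b) (hffs b) (hffb b)
      exact ⟨g, fun τ hτ => ⟨(hg1 τ hτ).1, (hg1 τ hτ).2, hb⟩, fun _ => hg2⟩
    · exact ⟨fun _ => 0, fun τ hτ => absurd rfl hτ, fun hb' => absurd hb' hb⟩
  choose gg hgg1 hgg2 using hch
  let T : Finset (Fin n →₀ ℕ) := Finset.univ.finsuppAntidiag j
  have hT : ∀ b : Fin n →₀ ℕ, b ∈ T ↔ ∑ v, b v = j := by
    intro b
    simp [T, Finset.mem_finsuppAntidiag]
  let g : Finset (Fin n) → MvPolynomial (Fin n) k := fun τ =>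
    ∑ b ∈ T, if gradedInd τ ≤ b then MvPolynomial.monomial (b - gradedInd τ) (gg b τ) else 0
  have hgc : ∀ τ m, MvPolynomial.coeff m (g τ) = gg (m + gradedInd τ) τ := by
    intro τ m
    simp only [g]
    rw [MvPolynomial.coeff_sum]
    by_cases hm : m + gradedInd τ ∈ T
    · rw [Finset.sum_eq_single (m + gradedInd τ)]
      · rw [if_pos le_add_self, add_tsub_cancel_right, MvPolynomial.coeff_monomial, if_pos rfl]
      · intro b _ hb
        by_cases hle : gradedInd τ ≤ b
        · rw [if_pos hle, MvPolynomial.coeff_monomial, if_neg]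
          intro hc
          apply hb
          rw [← hc, tsub_add_cancel_of_le hle]
        · rw [if_neg hle, MvPolynomial.coeff_zero]
      · intro hn
        exact absurd hm hn
    · have h0 : gg (m + gradedInd τ) τ = 0 := by
        by_contra hne
        exact hm ((hT _).mpr (hgg1 _ _ hne).2.2)
      rw [h0]
      apply Finset.sum_eq_zero
      intro b hb
      by_cases hle : gradedInd τ ≤ b
      · rw [if_pos hle, MvPolynomial.coeff_monomial, if_neg]
        intro hc
        apply hm
        rw [← hc, tsub_add_cancel_of_le hle]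
        exact hb
      · rw [if_neg hle, MvPolynomial.coeff_zero]
  refine Submodule.mem_map.mpr ⟨g, ?_, ?_⟩
  · show ∀ τ, g τ ∈ J ∧ (τ.card ≠ i + 1 → g τ = 0) ∧ ∀ m ∈ (g τ).support, m.degree + (i + 1) = j
    intro τ
    refine ⟨?_, ?_, ?_⟩
    · rw [hJ]
      intro m hm
      rw [MvPolynomial.mem_support_iff, hgc] at hm
      obtain ⟨a, ha, hav⟩ := (hgg1 _ _ hm).1
      have : a = ⇑m := by
        funext v
        have := hav v
        rw [Finsupp.add_apply, gradedInd_apply] at this
        omega
      rw [← this]; exact ha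
    · intro hcard
      ext m
      rw [hgc, MvPolynomial.coeff_zero]
      by_contra hne
      exact hcard (hgg1 _ _ hne).2.1
    · intro m hm
      rw [MvPolynomial.mem_support_iff, hgc] at hm
      obtain ⟨_, h2, h3⟩ := hgg1 _ _ hm
      simp only [Finsupp.add_apply] at h3
      rw [Finset.sum_add_distrib, gradedInd_degree, h2] at h3
      rw [Finsupp.degree_eq_sum]
      exact h3
  · funext σ
    ext m
    have h1 : koszulD k n g σ = ∑ v ∈ σᶜ, sg v σ • (MvPolynomial.X v * g (insert v σ)) := rfl
    rw [h1, MvPolynomial.coeff_sum]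
    have hterm : ∀ v ∈ σᶜ, MvPolynomial.coeff m (sg v σ • (MvPolynomial.X v * g (insert v σ))) =
        ((sg v σ : ℤ) : k) * gg (m + gradedInd σ) (insert v σ) := by
      intro v hv
      have hv' : v ∉ σ := Finset.mem_compl.mp hv
      rw [MvPolynomial.coeff_smul, zsmul_eq_mul, MvPolynomial.coeff_X_mul']
      congr 1
      by_cases hm : v ∈ m.support
      · rw [if_pos hm, hgc]
        congr 1
        rw [gradedInd_insert σ v hv']
        ext w
        simp only [Finsupp.add_apply, Finsupp.tsub_apply]
        by_cases hw : w = v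
        · subst hw
          rw [Finsupp.single_eq_same]
          have := Finsupp.mem_support_iff.mp hm
          omega
        · rw [Finsupp.single_eq_of_ne hw]
          omega
      · rw [if_neg hm]
        symm
        by_contra hne
        obtain ⟨a, _, hav⟩ := (hgg1 _ _ hne).1
        have := hav v
        rw [Finsupp.add_apply, gradedInd_apply, if_neg hv', if_pos (Finset.mem_insert_self v σ),
          Finsupp.notMem_support_iff.mp hm] at this
        omega
    rw [Finset.sum_congr rfl hterm]
    show bd (gg (m + gradedInd σ)) σ = _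
    by_cases hmT : ∑ v, (m + gradedInd σ) v = j
    · rw [hgg2 _ hmT]
      simp only [ff]
      rw [if_pos le_add_self, add_tsub_cancel_right]
    · have h2 : gg (m + gradedInd σ) = fun _ => 0 := by
        funext τ
        by_contra hne
        exact hmT (hgg1 _ _ hne).2.2
      rw [h2]
      have h3 : bd (fun _ : Finset (Fin n) => (0 : k)) σ = 0 := by
        unfold bd; simp
      rw [h3]
      symm
      by_contra hne
      apply hmT
      have hmem : m ∈ (f σ).support := MvPolynomial.mem_support_iff.mpr hne
      have hdeg := (hfc' σ).2.2 m hmem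
      have hcard : σ.card = i := by
        by_contra hc
        rw [(hfc' σ).2.1 hc] at hne
        simp at hne
      simp only [Finsupp.add_apply]
      rw [Finset.sum_add_distrib, gradedInd_degree, hcard, ← Finsupp.degree_eq_sum]
      exact hdeg

end Pool.Agent.MP_9b0fed_al
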