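import Pool.Agent.Lib.MP_9b0fed_al.Basic

/-!
# MP_9b0fed_al JOB POWMEM: monomials in powers of the edge ideal
-/

set_option autoImplicit false

open Finset

namespace Pool.Agent.MP_9b0fed_al

private theorem powmem_coe {n : ℕ} (s : Fin n →₀ ℕ) (u v : Fin n) :
    (⇑(s + Finsupp.single u 1 + Finsupp.single v 1 : Fin n →₀ ℕ) : Fin n → ℕ) =
      ⇑s + ev u + ev v := by
  funext i
  simp only [Finsupp.add_apply, Pi.add_apply, ev, Finsupp.single_apply, Pi.single_apply, eq_comm]

private theorem powmem_span {k : Type*} [Field k] {n : ℕ} (G : SimpleGraph (Fin n)) (q : ℕ) :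
    edgeIdeal k G ^ q = Ideal.span ((fun s : Fin n →₀ ℕ => MvPolynomial.monomial s (1 : k)) ''
      {s | Pw G q (⇑s)}) := by
  induction q with
  | zero =>
    rw [pow_zero, Ideal.one_eq_top, eq_comm, Ideal.eq_top_iff_one]
    apply Ideal.subset_span
    exact ⟨0, Pw.zero, rfl⟩
  | succ q ih =>
    rw [pow_succ, ih, edgeIdeal, Ideal.span_mul_span']
    congr 1
    ext x
    constructor
    · rintro ⟨_, ⟨s, hs, rfl⟩, _, ⟨u, v, huv, rfl⟩, rfl⟩
      refine ⟨s + Finsupp.single u 1 + Finsupp.single v 1, ?_, ?_⟩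
      · show Pw G (q + 1) _
        rw [powmem_coe]
        exact Pw.succ q _ u v hs huv
      · simp only [MvPolynomial.X, MvPolynomial.monomial_mul, mul_one, add_assoc]
    · rintro ⟨s, hs, rfl⟩
      have hs' : Pw G (q + 1) (⇑s) := hs
      generalize hb : (⇑s : Fin n → ℕ) = b at hs'
      generalize hr : q + 1 = r at hs'
      cases hs' with
      | zero => omega
      | succ q' a u v h huv =>
        have hq : q' = q := by omega
        subst hq
        set t : Fin n →₀ ℕ := Finsupp.equivFunOnFinite.symm a with ht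
        have hta : (⇑t : Fin n → ℕ) = a := by simp [ht]
        have hst : s = t + Finsupp.single u 1 + Finsupp.single v 1 := by
          apply DFunLike.coe_injective
          rw [powmem_coe, hta, hb]
        refine ⟨MvPolynomial.monomial t 1, ⟨t, ?_, rfl⟩, MvPolynomial.X u * MvPolynomial.X v,
          ⟨u, v, huv, rfl⟩, ?_⟩
        · show Pw G q' (⇑t)
          rw [hta]
          exact h
        · rw [hst]
          simp only [MvPolynomial.X, MvPolynomial.monomial_mul, mul_one, add_assoc]

/-- `I(G)^q` is the monomial ideal with exponent set `IP G q`. PROOF: `I(G)^q` is the span of the monomials `x^a`, `Pw G q a`: induction on `q`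
(`pow_succ`, `Ideal.span_mul_span'` or `Ideal.span_mul_span`); membership in a monomial ideal: `MvPolynomial.mem_ideal_span_monomial_image`. -/
theorem mem_edgeIdeal_pow {k : Type*} [Field k] {n : ℕ} (G : SimpleGraph (Fin n)) (q : ℕ)
    (f : MvPolynomial (Fin n) k) :
    f ∈ edgeIdeal k G ^ q ↔ ∀ m ∈ f.support, (⇑m : Fin n → ℕ) ∈ IP G q := by
  rw [powmem_span, MvPolynomial.mem_ideal_span_monomial_image]
  refine forall₂_congr (fun m _ => ?_)
  constructor
  · rintro ⟨s, hs, hsm⟩
    exact ⟨⇑s, hs, fun i => hsm i⟩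
  · rintro ⟨a, ha, ham⟩
    refine ⟨Finsupp.equivFunOnFinite.symm a, ?_, fun i => ?_⟩
    · show Pw G q _
      simpa using ha
    · simpa using ham i

end Pool.Agent.MP_9b0fed_al
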