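import Pool.Agent.Lib.MP_9b0fed_al.RegC
import Pool.Agent.Lib.MP_9b0fed_al.Colon
import Pool.Agent.Lib.MP_9b0fed_al.Copies
import Pool.Agent.Lib.MP_9b0fed_al.Graded
import Pool.Agent.Lib.MP_9b0fed_al.PowMem

/-!
# MP_9b0fed_al: the main theorem
-/

set_option autoImplicit false

open Finset

namespace Pool.Agent.MP_9b0fed_al

/-- Regularity of the monomial ideal `I(G)^q`. -/
theorem reg_IP {V : Type} [Fintype V] [LinearOrder V] {k : Type*} [Field k] (G : SimpleGraph V)
    {t : ℕ} (H : Fin t → SimpleGraph V)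
    (hH : ∀ u v, G.Adj u v ↔ ∃ l, (H l).Adj u v) (hD : ∀ l, DD (H l) Set.univ) (q : ℕ) :
    Reg k (IP G (q + 1)) (2 * q + t + 1) := by
  have hstep : ∀ q, Reg k (IP G q) (2 * q + t + 1) → Reg k (IP G (q + 1)) (2 * q + t + 1) := by
    intro q hq
    refine power_step G q t (fun a ha L => ?_) hq
    obtain ⟨R, hs, hE, hR⟩ := structure_thm G H hH hD q a ha
    have h := reg_sum (k := k) R hs hE L
    have e : JJ G q a = fun u v => ∃ l, R l u v := by
      funext u v
      exact propext (hR u v)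
    rw [e]
    exact h
  induction q with
  | zero =>
    refine hstep 0 (reg_mono (Nat.zero_le _) ?_)
    have : IP G 0 = Set.univ := by
      ext b
      simp only [Set.mem_univ, iff_true]
      exact ⟨0, Pw.zero, fun v => Nat.zero_le _⟩
    rw [this]
    exact reg_univ
  | succ q ih => exact hstep (q + 1) (reg_mono (by omega) ih)

/-- The conjecture, pointwise form. -/
theorem main_bound {k : Type*} [Field k] {n : ℕ} (G : SimpleGraph (Fin n))
    (u v : Fin n) (huv : G.Adj u v) (q : ℕ) (hq : 1 ≤ q) (i j : ℕ)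
    (h : Nontrivial (KTor (edgeIdeal k G ^ q) i j)) :
    (j : ℤ) - i ≤ 2 * q + coChord G - 1 := by
  obtain ⟨H, hD, hH⟩ := cover_dd G (coChord G) (cover_coChord G)
  obtain ⟨q, rfl⟩ : ∃ q', q = q' + 1 := ⟨q - 1, by omega⟩
  have ht := one_le_coChord G u v huv
  have hreg := reg_IP (k := k) G H hH hD q
  by_contra hcon
  rw [not_le] at hcon
  refine graded_reduction (edgeIdeal k G ^ (q + 1)) (IP G (q + 1)) (isUpperSet_IP G _)
    (mem_edgeIdeal_pow G _) i j (fun b hb => hreg b i ?_) h
  rw [hb]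
  push_cast at hcon
  omega

end Pool.Agent.MP_9b0fed_al
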