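import Pool.Agent.Lib.MP_9b0fed_al.Basic

/-!
# MP_9b0fed_al JOB PFA: symmetric matrices with zero diagonal in characteristic 2
-/

set_option autoImplicit false

open Finset

namespace Pool.Agent.MP_9b0fed_al

/-- In characteristic `2` the permutations `σ` and `σ⁻¹` cancel in the determinant of a symmetric matrix, so only involutions remain, and
those with a fixed point contribute `0` because of the zero diagonal. So a nonzero determinant gives a fixed point free involution with
nonzero entries. PROOF: `Matrix.det_apply`, signs are `1` (`CharTwo`); if no such `σ` exists, `Finset.sum_involution` with `σ ↦ σ⁻¹`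
shows that the sum is `0` (terms with `σ = σ⁻¹` vanish: either a fixed point or a zero entry). -/
theorem exists_involution_of_det_ne_zero {K : Type} [CommRing K] [CharP K 2] {n : Type}
    [Fintype n] [DecidableEq n] (M : Matrix n n K) (hs : ∀ i j, M i j = M j i)
    (hd : ∀ i, M i i = 0) (h : M.det ≠ 0) :
    ∃ σ : Equiv.Perm n, (∀ i, σ i ≠ i) ∧ (∀ i, σ (σ i) = i) ∧ ∀ i, M (σ i) i ≠ 0 := by
  by_contra hcon
  apply h
  rw [Matrix.det_apply']
  refine Finset.sum_involution (fun σ _ => σ⁻¹) ?_ ?_ (fun _ _ => Finset.mem_univ _)
    (fun σ _ => inv_inv σ)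
  · intro σ _
    have e1 : ∏ i, M (σ⁻¹ i) i = ∏ i, M (σ i) i := by
      rw [← Equiv.prod_comp σ (fun i => M (σ⁻¹ i) i)]
      refine Finset.prod_congr rfl fun i _ => ?_
      have e0 : σ⁻¹ (σ i) = i := by simp
      rw [e0]
      exact hs _ _
    rw [e1, Equiv.Perm.sign_inv]
    exact CharTwo.add_self_eq_zero _
  · intro σ _ hne heq
    apply hcon
    have hp : ∏ i, M (σ i) i ≠ 0 := right_ne_zero_of_mul hne
    have hall : ∀ i, M (σ i) i ≠ 0 := fun i h0 =>
      hp (Finset.prod_eq_zero (Finset.mem_univ i) h0)
    refine ⟨σ, fun i hi => ?_, fun i => ?_, hall⟩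
    · apply hall i
      rw [hi]
      exact hd i
    · have : σ⁻¹ (σ i) = i := by simp
      rw [heq] at this
      exact this

/-- A fixed point free involution of a finite set `S` along the edges gives a perfect matching. PROOF: strong induction on `S.card`:
if `i ∈ S`, `j = σ i`, then `σ` restricts to `S \ {i, j}`. -/
theorem pm_of_involution {ι : Type} [DecidableEq ι] (adj : ι → ι → Prop) (S : Finset ι)
    (σ : ι → ι) (h1 : ∀ i ∈ S, σ i ∈ S) (h2 : ∀ i ∈ S, σ i ≠ i) (h3 : ∀ i ∈ S, σ (σ i) = i)
    (h4 : ∀ i ∈ S, adj i (σ i)) : PM adj S := by
  induction S using Finset.strongInduction with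
  | H S ih =>
    rcases S.eq_empty_or_nonempty with rfl | ⟨i, hi⟩
    · exact PM.empty
    · have hj := h1 i hi
      have hne := h2 i hi
      set j := σ i with hjdef
      have hS : insert i (insert j ((S.erase i).erase j)) = S := by
        rw [Finset.insert_erase (Finset.mem_erase.mpr ⟨hne, hj⟩), Finset.insert_erase hi]
      have hsub : (S.erase i).erase j ⊆ S := (Finset.erase_subset _ _).trans (Finset.erase_subset _ _)
      have hss : (S.erase i).erase j ⊂ S :=
        (Finset.erase_subset _ _).trans_ssubset (Finset.erase_ssubset hi)
      rw [← hS]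
      refine PM.step _ i j (ih _ hss ?_ ?_ ?_ ?_) ?_ ?_ hne.symm (h4 i hi)
      · intro k hk
        have hkS := hsub hk
        have hkj : k ≠ j := (Finset.mem_erase.mp hk).1
        have hki : k ≠ i := (Finset.mem_erase.mp (Finset.mem_erase.mp hk).2).1
        refine Finset.mem_erase.mpr ⟨?_, Finset.mem_erase.mpr ⟨?_, h1 k hkS⟩⟩
        · intro he
          have := congrArg σ he
          rw [h3 k hkS, hjdef, h3 i hi] at this
          exact hki this
        · intro he
          have := congrArg σ he
          rw [h3 k hkS] at this
          exact hkj this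
      · exact fun k hk => h2 k (hsub hk)
      · exact fun k hk => h3 k (hsub hk)
      · exact fun k hk => h4 k (hsub hk)
      · intro hmem
        exact (Finset.mem_erase.mp (Finset.mem_erase.mp hmem).2).1 rfl
      · intro hmem
        exact (Finset.mem_erase.mp hmem).1 rfl

/-- Conversely a perfect matching gives an involution (for `adj` symmetric). PROOF: induction on `PM`. -/
theorem involution_of_pm {ι : Type} [DecidableEq ι] (adj : ι → ι → Prop)
    (hs : ∀ i j, adj i j → adj j i) (S : Finset ι) (h : PM adj S) :
    ∃ σ : ι → ι, (∀ i ∈ S, σ i ∈ S) ∧ (∀ i ∈ S, σ i ≠ i) ∧ (∀ i ∈ S, σ (σ i) = i) ∧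
      ∀ i ∈ S, adj i (σ i) := by
  induction h with
  | empty => exact ⟨id, by simp, by simp, by simp, by simp⟩
  | step S i j hS hi hj hij hadj ih =>
    obtain ⟨σ, h1, h2, h3, h4⟩ := ih
    refine ⟨fun k => if k = i then j else if k = j then i else σ k, ?_, ?_, ?_, ?_⟩
    · intro k hk
      simp only
      split_ifs with hki hkj
      · exact Finset.mem_insert_of_mem (Finset.mem_insert_self _ _)
      · exact Finset.mem_insert_self _ _
      · refine Finset.mem_insert_of_mem (Finset.mem_insert_of_mem (h1 k ?_))
        rcases Finset.mem_insert.mp hk with h | h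
        · exact absurd h hki
        · rcases Finset.mem_insert.mp h with h | h
          · exact absurd h hkj
          · exact h
    · intro k hk
      simp only
      split_ifs with hki hkj
      · rw [hki]; exact hij.symm
      · rw [hkj]; exact hij
      · apply h2
        rcases Finset.mem_insert.mp hk with h | h
        · exact absurd h hki
        · rcases Finset.mem_insert.mp h with h | h
          · exact absurd h hkj
          · exact h
    · intro k hk
      by_cases hki : k = i
      · subst hki
        simp [hij.symm]
      · by_cases hkj : k = j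
        · subst hkj
          simp [hij.symm]
        · have hkS : k ∈ S := by
            rcases Finset.mem_insert.mp hk with h | h
            · exact absurd h hki
            · rcases Finset.mem_insert.mp h with h | h
              · exact absurd h hkj
              · exact h
          have e1 : σ k ≠ i := fun he => hi (he ▸ h1 k hkS)
          have e2 : σ k ≠ j := fun he => hj (he ▸ h1 k hkS)
          simp only [if_neg hki, if_neg hkj, if_neg e1, if_neg e2]
          exact h3 k hkS
    · intro k hk
      simp only
      split_ifs with hki hkj
      · rw [hki]; exact hadj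
      · rw [hkj]; exact hs _ _ hadj
      · apply h4
        rcases Finset.mem_insert.mp hk with h | h
        · exact absurd h hki
        · rcases Finset.mem_insert.mp h with h | h
          · exact absurd h hkj
          · exact h

end Pool.Agent.MP_9b0fed_al
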