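import Pool.Agent.Lib.MP_9b0fed_al.PfA

/-!
# MP_9b0fed_al JOB PFB: the Tutte matrix in characteristic 2
-/

set_option autoImplicit false

open Finset

namespace Pool.Agent.MP_9b0fed_al

open Classical in
/-- The Tutte matrix over `R = MvPolynomial (Sym2 ι) (ZMod 2)`. -/
noncomputable def tutte {ι : Type} (Γ : SimpleGraph ι) :
    Matrix ι ι (MvPolynomial (Sym2 ι) (ZMod 2)) :=
  fun i j => if Γ.Adj i j then MvPolynomial.X s(i, j) else 0

/-- TUTTE. The determinant of the principal submatrix on `S` is nonzero iff `S` has a perfect matching.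
PROOF. `→`: `exists_involution_of_det_ne_zero` and `pm_of_involution`. `←`: take the involution `σ` (`involution_of_pm`) and evaluate the variables:
`X s(i, j) ↦ 1` if `j = σ i` for some `i ∈ S`, and `0` otherwise (for `i ∈ S`: `s(i, j) ↦ 1` iff `σ i = j`); the image of the matrix is the permutation matrix of
`σ`, whose determinant is `sign σ ≠ 0` in `ZMod 2` (`Matrix.det_permutation`). -/
theorem tutte_det_ne_zero_iff {ι : Type} [DecidableEq ι] (Γ : SimpleGraph ι) (S : Finset ι) :
    ((tutte Γ).submatrix (fun i : S => (i : ι)) (fun i : S => (i : ι))).det ≠ 0 ↔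
      PM Γ.Adj S := by
  classical
  constructor
  · intro h
    obtain ⟨σ, h1, h2, h3⟩ := exists_involution_of_det_ne_zero _
      (fun i j => by
        simp only [Matrix.submatrix_apply, tutte, Γ.adj_comm i.1 j.1]
        rw [Sym2.eq_swap])
      (fun i => by simp [tutte]) h
    have hadj : ∀ i : S, Γ.Adj (σ i : ι) (i : ι) := by
      intro i
      by_contra hc
      apply h3 i
      simp [tutte, hc]
    refine pm_of_involution Γ.Adj S (fun i => if h : i ∈ S then (σ ⟨i, h⟩ : ι) else i) ?_ ?_ ?_ ?_
    · intro i hi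
      simp only [dif_pos hi]
      exact (σ ⟨i, hi⟩).2
    · intro i hi
      simp only [dif_pos hi]
      intro he
      exact h1 ⟨i, hi⟩ (Subtype.ext he)
    · intro i hi
      simp only [dif_pos hi, dif_pos (σ ⟨i, hi⟩).2]
      have := congrArg Subtype.val (h2 ⟨i, hi⟩)
      exact this
    · intro i hi
      simp only [dif_pos hi]
      exact (hadj ⟨i, hi⟩).symm
  · intro h hdet
    obtain ⟨σ, h1, h2, h3, h4⟩ := involution_of_pm Γ.Adj (fun i j hij => hij.symm) S h
    set φ : MvPolynomial (Sym2 ι) (ZMod 2) →+* ZMod 2 :=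
      MvPolynomial.eval (fun e => if ∃ i ∈ S, s(i, σ i) = e then 1 else 0) with hφ
    set π : Equiv.Perm S := ⟨fun i => ⟨σ i, h1 i i.2⟩, fun i => ⟨σ i, h1 i i.2⟩,
      fun i => Subtype.ext (h3 i i.2), fun i => Subtype.ext (h3 i i.2)⟩ with hπ
    have hM : φ.mapMatrix ((tutte Γ).submatrix (fun i : S => (i : ι)) (fun i : S => (i : ι)))
        = π.permMatrix (ZMod 2) := by
      ext i j
      have hR : π.permMatrix (ZMod 2) i j = if σ i = j then 1 else 0 := by
        simp only [PEquiv.toMatrix_apply, Equiv.toPEquiv_apply, Option.mem_def, Option.some.injEq]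
        congr 1
        rw [Subtype.ext_iff]
        rfl
      rw [hR, RingHom.mapMatrix_apply, Matrix.map_apply, Matrix.submatrix_apply, tutte]
      by_cases hij : σ i = j
      · rw [if_pos hij]
        have hA : Γ.Adj (i : ι) (j : ι) := by
          rw [← hij]
          exact h4 i i.2
        rw [if_pos hA, hφ, MvPolynomial.eval_X, if_pos ⟨i, i.2, by rw [hij]⟩]
      · rw [if_neg hij]
        split_ifs with hA
        · rw [hφ, MvPolynomial.eval_X, if_neg]
          rintro ⟨k, hk, he⟩
          rw [Sym2.eq_iff] at he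
          rcases he with ⟨e1, e2⟩ | ⟨e1, e2⟩
          · apply hij
            rw [← e2, ← e1]
          · apply hij
            rw [← e2, h3 k hk, e1]
        · exact map_zero φ
    have h0 : (π.permMatrix (ZMod 2)).det = 0 := by
      rw [← hM, ← RingHom.map_det, hdet, map_zero]
    rw [Matrix.det_permutation] at h0
    have hu : IsUnit ((Equiv.Perm.sign π : ℤ) : ZMod 2) :=
      (Units.isUnit (Equiv.Perm.sign π)).map (Int.castRingHom (ZMod 2))
    exact hu.ne_zero h0

end Pool.Agent.MP_9b0fed_al
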