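import Pool.Agent.Lib.MP_9b0fed_al.PfB

/-!
# MP_9b0fed_al JOB PFC: Schur complement and the pivot formula
-/

set_option autoImplicit false

open Finset

namespace Pool.Agent.MP_9b0fed_al

/-- Schur complement. `T` a matrix over a field with `det T[A] ≠ 0`. There is a matrix `N` with
`det T[A ∪ S] = det T[A] * det N[S]` for all finite `S` disjoint from `A`, and `N` is symmetric if `T` is.
PROOF: `N i j := T i j - ∑ a b ∈ A, T i a * (T[A])⁻¹ a b * T b j`; reindex `A ∪ S ≃ A ⊕ S` (`Equiv.Finset.union` or `Finset.disjUnion` equivalences),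
`Matrix.det_fromBlocks₁₁`, `Matrix.det_submatrix_equiv_self`; `T[A]⁻¹` is symmetric (`Matrix.transpose_nonsing_inv`). -/
theorem exists_schur {K : Type} [Field K] {ι : Type} [DecidableEq ι] (T : Matrix ι ι K)
    (hs : ∀ i j, T i j = T j i) (A : Finset ι)
    (hA : (T.submatrix (fun i : A => (i : ι)) (fun i : A => (i : ι))).det ≠ 0) :
    ∃ N : ι → ι → K, (∀ i j, N i j = N j i) ∧ ∀ S : Finset ι, Disjoint A S →
      (T.submatrix (fun i : ↥(A ∪ S) => (i : ι)) (fun i : ↥(A ∪ S) => (i : ι))).det =
        (T.submatrix (fun i : A => (i : ι)) (fun i : A => (i : ι))).det *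
          (Matrix.of (fun i j : S => N i j)).det := by
  set TA := T.submatrix (fun i : A => (i : ι)) (fun i : A => (i : ι)) with hTA
  have hsym : ∀ a b : A, TA⁻¹ a b = TA⁻¹ b a := by
    intro a b
    have h1 : TA.transpose = TA := by
      ext i j
      simp only [hTA, Matrix.transpose_apply, Matrix.submatrix_apply]
      exact hs _ _
    have h2 := Matrix.transpose_nonsing_inv TA
    rw [h1] at h2
    have h3 := congrFun (congrFun h2 a) b
    rw [Matrix.transpose_apply] at h3
    exact h3.symm
  refine ⟨fun i j => T i j - ∑ b : A, (∑ a : A, T i a * TA⁻¹ a b) * T b j, ?_, ?_⟩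
  · intro i j
    have : ∑ b : A, (∑ a : A, T i a * TA⁻¹ a b) * T b j =
        ∑ b : A, (∑ a : A, T j a * TA⁻¹ a b) * T b i := by
      simp only [Finset.sum_mul]
      rw [Finset.sum_comm]
      refine Finset.sum_congr rfl fun a _ => Finset.sum_congr rfl fun b _ => ?_
      rw [hsym a b, hs i a, hs b j]
      ring
    show T i j - _ = T j i - _
    rw [this, hs i j]
  · intro S hAS
    let e := Equiv.Finset.union A S hAS
    rw [← Matrix.det_submatrix_equiv_self e]
    have hb : (T.submatrix (fun i : ↥(A ∪ S) => (i : ι)) (fun i : ↥(A ∪ S) => (i : ι))).submatrix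
        e e = Matrix.fromBlocks TA
          (T.submatrix (fun i : A => (i : ι)) (fun i : S => (i : ι)))
          (T.submatrix (fun i : S => (i : ι)) (fun i : A => (i : ι)))
          (T.submatrix (fun i : S => (i : ι)) (fun i : S => (i : ι))) := by
      ext i j
      rcases i with i | i <;> rcases j with j | j <;>
        simp [e, hTA, Matrix.submatrix_apply]
    rw [hb]
    have : Invertible TA := Matrix.invertibleOfIsUnitDet TA (isUnit_iff_ne_zero.mpr hA)
    rw [Matrix.det_fromBlocks₁₁]
    congr 2
    ext i j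
    simp only [Matrix.sub_apply, Matrix.mul_apply, Matrix.submatrix_apply, Matrix.of_apply,
      Matrix.invOf_eq_nonsing_inv]

end Pool.Agent.MP_9b0fed_al
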