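import Pool.Agent.Lib.MP_9b0fed_al.Bd

/-!
# MP_9b0fed_al JOB REGA: regularity of monomial ideals, basic operations
-/

set_option autoImplicit false

open Finset

namespace Pool.Agent.MP_9b0fed_al

variable {V : Type} [Fintype V] [LinearOrder V] {k : Type*} [Field k]

/-- Faces form a simplicial complex. -/
theorem face_mono {A : Set (V → ℕ)} (hA : IsUpperSet A) (b : V → ℕ) (σ τ : Finset V) (h : σ ⊆ τ)
    (hτ : face A b τ) : face A b σ := by
  obtain ⟨a, ha, hab⟩ := hτ
  refine ⟨fun v => b v - (if v ∈ σ then 1 else 0), hA ?_ ha, fun v => ?_⟩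
  · intro v
    have h1 := hab v
    simp only
    by_cases hv : v ∈ σ
    · have hv' := h hv
      simp only [hv, hv', if_true] at h1 ⊢
      omega
    · simp only [hv, if_false]
      omega
  · have h1 := hab v
    by_cases hv : v ∈ σ
    · have hv' := h hv
      simp only [hv, hv', if_true] at h1 ⊢
      omega
    · simp only [hv, if_false]
      omega

theorem reg_mono {A : Set (V → ℕ)} {r r' : ℕ} (h : r ≤ r') (hA : Reg k A r) : Reg k A r' :=
  fun b i hb => hA b i (by omega)

theorem rega_union_iff (A B : Set (V → ℕ)) (b : V → ℕ) (τ : Finset V) :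
    (face A b τ ∨ face B b τ) ↔ face (A ∪ B) b τ := by
  constructor
  · rintro (⟨a, ha, hab⟩ | ⟨a, ha, hab⟩)
    · exact ⟨a, Or.inl ha, hab⟩
    · exact ⟨a, Or.inr ha, hab⟩
  · rintro ⟨a, ha | ha, hab⟩
    · exact Or.inl ⟨a, ha, hab⟩
    · exact Or.inr ⟨a, ha, hab⟩

theorem rega_inter_iff (A B : Set (V → ℕ)) (b : V → ℕ) (τ : Finset V) :
    face (A ∩ B) b τ ↔ (face A b τ ∧ face B b τ) := by
  constructor
  · rintro ⟨a, ha, hab⟩
    exact ⟨⟨a, ha.1, hab⟩, ⟨a, ha.2, hab⟩⟩
  · rintro ⟨⟨a, ha, hab⟩, ⟨a', ha', hab'⟩⟩
    have : a = a' := by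
      funext v
      have h1 := hab v
      have h2 := hab' v
      omega
    subst this
    exact ⟨a, ⟨ha, ha'⟩, hab⟩

/-- `face (A ∪ B) b τ ↔ face A b τ ∨ face B b τ`, and for `∩` (the vector `a` is determined by `b` and `τ`);
then `acyc_union`. -/
theorem reg_union {A B : Set (V → ℕ)} (hA : IsUpperSet A) (hB : IsUpperSet B) {r : ℕ}
    (rA : Reg k A r) (rB : Reg k B r) (rAB : Reg k (A ∩ B) (r + 1)) : Reg k (A ∪ B) r := by
  intro b i hb
  refine acyc_congr _ _ (rega_union_iff A B b) i ?_
  refine acyc_union _ _ (face_mono hA b) (face_mono hB b) i (rA b i hb) (rB b i hb) ?_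
  intro i' hi'
  exact acyc_congr _ _ (rega_inter_iff A B b) i' (rAB b i' (by omega))

/-- From `acyc_left`. -/
theorem reg_left {A B : Set (V → ℕ)} (hA : IsUpperSet A) (hB : IsUpperSet B) {r : ℕ}
    (rAB : Reg k (A ∩ B) r) (r' : Reg k (A ∪ B) r) : Reg k A r := by
  intro b i hb
  refine acyc_left _ (face B b) (face_mono hA b) (face_mono hB b) i ?_ ?_
  · exact acyc_congr _ _ (rega_inter_iff A B b) i (rAB b i hb)
  · exact acyc_congr _ _ (fun τ => (rega_union_iff A B b τ).symm) i (r' b i hb)

theorem reg_empty (r : ℕ) : Reg k (∅ : Set (V → ℕ)) r := by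
  intro b i _
  refine acyc_empty _ ?_ i
  rintro τ ⟨a, ha, _⟩
  exact ha

/-- In multidegree `b ≠ 0` the complex is the full simplex on the support of `b`, a cone. -/
theorem reg_univ : Reg k (Set.univ : Set (V → ℕ)) 0 := by
  intro b i hb
  have hne : ∃ x, b x ≠ 0 := by
    by_contra hcon
    push Not at hcon
    have : ∑ v, b v = 0 := Finset.sum_eq_zero fun v _ => hcon v
    omega
  obtain ⟨x, hx⟩ := hne
  refine acyc_cone _ x ?_ i
  rintro τ ⟨a, _, hab⟩
  refine ⟨fun v => b v - (if v ∈ insert x τ then 1 else 0), Set.mem_univ _, fun v => ?_⟩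
  have h1 := hab v
  by_cases hv : v ∈ insert x τ
  · simp only [hv, if_true]
    rcases Finset.mem_insert.1 hv with rfl | hv'
    · omega
    · simp only [hv', if_true] at h1
      omega
  · simp only [hv, if_false]
    omega

/-- `face (A ∩ Ici m) b τ ↔ m ≤ b ∧ face (colon A m) (b - m) τ`. -/
theorem reg_inter_Ici {A : Set (V → ℕ)} (m : V → ℕ) {r : ℕ} (h : Reg k (colon A m) r) :
    Reg k (A ∩ Set.Ici m) (r + ∑ v, m v) := by
  intro b i hb
  by_cases hm : ∀ v, m v ≤ b v
  · have hsum : ∑ v, b v = ∑ v, (b v - m v) + ∑ v, m v := by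
      rw [← Finset.sum_add_distrib]
      exact Finset.sum_congr rfl fun v _ => by have := hm v; omega
    refine acyc_congr _ _ (fun τ => ?_) i (h (fun v => b v - m v) i (by omega))
    constructor
    · rintro ⟨a, ha, hab⟩
      refine ⟨a + m, ⟨ha, fun v => ?_⟩, fun v => ?_⟩
      · simp only [Pi.add_apply]
        omega
      · have h1 := hab v
        have h2 := hm v
        simp only [Pi.add_apply] at h1 ⊢
        omega
    · rintro ⟨a, ⟨ha, ham⟩, hab⟩
      refine ⟨fun v => a v - m v, ?_, fun v => ?_⟩
      · have : (fun v => a v - m v) + m = a := by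
          funext v
          have : m v ≤ a v := ham v
          simp only [Pi.add_apply]
          omega
        show (fun v => a v - m v) + m ∈ A
        rw [this]
        exact ha
      · have h1 := hab v
        have h2 : m v ≤ a v := ham v
        simp only
        omega
  · refine acyc_empty _ ?_ i
    rintro τ ⟨a, ⟨_, ham⟩, hab⟩
    apply hm
    intro v
    have h1 := hab v
    have h2 : m v ≤ a v := ham v
    omega

/-- `Ici m = univ ∩ Ici m`. -/
theorem reg_Ici (m : V → ℕ) : Reg k (Set.Ici m) (∑ v, m v) := by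
  have h1 : Reg k (colon (Set.univ : Set (V → ℕ)) m) 0 := by
    have : colon (Set.univ : Set (V → ℕ)) m = Set.univ := by
      ext a
      simp [colon]
    rw [this]
    exact reg_univ
  have h2 := reg_inter_Ici m h1
  rwa [Set.univ_inter, zero_add] at h2

private theorem rega2_ind_insert (x : V) (τ : Finset V) (hx : x ∉ τ) (v : V) :
    (if v ∈ insert x τ then 1 else 0 : ℕ) = (if v ∈ τ then 1 else 0) + ev x v := by
  unfold ev
  by_cases h : v = x
  · subst h
    simp [hx]
  · simp [h, Finset.mem_insert]

private theorem rega2_sum (b : V → ℕ) (x : V) : ∑ v, (b + ev x) v = ∑ v, b v + 1 := by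
  simp only [Pi.add_apply, Finset.sum_add_distrib]
  congr 1
  unfold ev
  rw [Finset.sum_eq_single x]
  · simp
  · intro v _ hv
    simp [hv]
  · intro h
    exact absurd (Finset.mem_univ x) h

/-- the faces of the colon ideal -/
private theorem rega2_face {A : Set (V → ℕ)} (x : V) (b : V → ℕ) (τ : Finset V)
    (h : 1 ≤ b x ∨ x ∉ τ) :
    face (colon A (ev x)) b τ ↔ face A (b + ev x) τ := by
  constructor
  · rintro ⟨a, ha, hab⟩
    refine ⟨a + ev x, ha, fun v => ?_⟩
    have := hab v
    simp only [Pi.add_apply]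
    omega
  · rintro ⟨a, ha, hab⟩
    have hx := hab x
    have h1 : ev x x = 1 := by simp [ev]
    have h0 : 1 ≤ a x := by
      simp only [Pi.add_apply, h1] at hx
      rcases h with h | h
      · split_ifs at hx <;> omega
      · rw [if_neg h] at hx
        omega
    have hle : ∀ v, ev x v ≤ a v := by
      intro v
      by_cases hv : v = x
      · subst hv
        omega
      · simp [ev, hv]
    refine ⟨a - ev x, ?_, fun v => ?_⟩
    · show a - ev x + ev x ∈ A
      have e : a - ev x + ev x = a := by
        funext v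
        simp only [Pi.add_apply, Pi.sub_apply]
        have := hle v
        omega
      rw [e]
      exact ha
    · have h2 := hab v
      have h3 := hle v
      simp only [Pi.add_apply, Pi.sub_apply] at h2 ⊢
      omega

/-- `reg (A : x) ≤ reg A`. PROOF: multidegree `b`, `r + i < |b|`. If `1 ≤ b x` then
`face (colon A (ev x)) b τ ↔ face A (b + ev x) τ`. If `b x = 0` let `Δ = face A (b + ev x)`; then
`face (colon A (ev x)) b τ ↔ x ∉ τ ∧ Δ τ` (deletion), `F2 τ := Δ (insert x τ)` (star of `x`, a cone),
`Δ τ ↔ deletion τ ∨ F2 τ`, and `deletion τ ∧ F2 τ ↔ x ∉ τ ∧ Δ (insert x τ) ↔ face A b τ` (link); use `acyc_left`. -/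
theorem reg_colon_ev {A : Set (V → ℕ)} (hA : IsUpperSet A) (x : V) {r : ℕ} (h : Reg k A r) :
    Reg k (colon A (ev x)) r := by
  intro b i hi
  have hbig : Acyc k (face A (b + ev x)) i := h (b + ev x) i (by rw [rega2_sum]; omega)
  by_cases hbx : 1 ≤ b x
  · exact acyc_congr _ _ (fun τ => (rega2_face x b τ (Or.inl hbx)).symm) i hbig
  · have hb0 : b x = 0 := by omega
    have hsmall : Acyc k (face A b) i := h b i hi
    have key : Acyc k (fun τ => x ∉ τ ∧ face A (b + ev x) τ) i := by
      apply acyc_left (fun τ => x ∉ τ ∧ face A (b + ev x) τ)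
        (fun τ => face A (b + ev x) (insert x τ))
      · rintro σ τ hst ⟨h1, h2⟩
        exact ⟨fun hx => h1 (hst hx), face_mono hA _ _ _ hst h2⟩
      · intro σ τ hst h1
        exact face_mono hA _ _ _ (Finset.insert_subset_insert x hst) h1
      · refine acyc_congr _ _ (fun τ => ?_) i hsmall
        constructor
        · rintro ⟨a, ha, hab⟩
          have hx : x ∉ τ := by
            intro hx
            have := hab x
            rw [if_pos hx, hb0] at this
            omega
          have h2 : face A (b + ev x) (insert x τ) := by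
            refine ⟨a, ha, fun v => ?_⟩
            rw [rega2_ind_insert x τ hx v]
            have := hab v
            simp only [Pi.add_apply]
            omega
          exact ⟨⟨hx, face_mono hA _ _ _ (Finset.subset_insert x τ) h2⟩, h2⟩
        · rintro ⟨⟨hx, -⟩, a, ha, hab⟩
          refine ⟨a, ha, fun v => ?_⟩
          have := hab v
          rw [rega2_ind_insert x τ hx v] at this
          simp only [Pi.add_apply] at this
          omega
      · refine acyc_congr _ _ (fun τ => ?_) i hbig
        constructor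
        · intro h1
          by_cases hx : x ∈ τ
          · right
            rw [Finset.insert_eq_of_mem hx]
            exact h1
          · exact Or.inl ⟨hx, h1⟩
        · rintro (⟨-, h1⟩ | h1)
          · exact h1
          · exact face_mono hA _ _ _ (Finset.subset_insert x τ) h1
    refine acyc_congr _ _ (fun τ => ?_) i key
    constructor
    · rintro ⟨hx, h1⟩
      exact (rega2_face x b τ (Or.inr hx)).mpr h1
    · intro h1
      have hx : x ∉ τ := by
        intro hx
        obtain ⟨a, -, hab⟩ := h1
        have := hab x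
        rw [if_pos hx, hb0] at this
        omega
      exact ⟨hx, (rega2_face x b τ (Or.inr hx)).mp h1⟩

end Pool.Agent.MP_9b0fed_al
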