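import Pool.Agent.Lib.MP_9b0fed_al.RegA

/-!
# MP_9b0fed_al JOB REGB: variables and linear quotients
-/

set_option autoImplicit false

open Finset

namespace Pool.Agent.MP_9b0fed_al

variable {V : Type} [Fintype V] [LinearOrder V] {k : Type*} [Field k]

theorem isUpperSet_VI (L : Set V) : IsUpperSet (VI L) := by
  rintro a b hab ⟨v, hv, h1⟩
  exact ⟨v, hv, h1.trans (hab v)⟩

theorem isUpperSet_QI (R : V → V → Prop) : IsUpperSet (QI R) := by
  rintro a b hab ⟨u, v, huv, h1⟩
  exact ⟨u, v, huv, h1.trans hab⟩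

theorem isUpperSet_colon {A : Set (V → ℕ)} (hA : IsUpperSet A) (m : V → ℕ) :
    IsUpperSet (colon A m) := by
  intro a b hab ha
  exact hA (add_le_add_left hab m) ha

private theorem regb_sum_ev (x : V) : ∑ v, ev x v = 1 := by
  simp [ev]

private theorem regb_ev_le (x : V) (a : V → ℕ) : ev x ≤ a ↔ 1 ≤ a x := by
  constructor
  · intro h
    have := h x
    simpa [ev] using this
  · intro h v
    by_cases hv : v = x
    · subst hv
      simpa [ev] using h
    · simp [ev, Pi.single_eq_of_ne hv]

/-- Adding one variable: `reg_union` with `B = Ici (ev x)`; `Reg B 1` by `reg_Ici`;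
`A ∩ Ici (ev x)` by `reg_inter_Ici` and `reg_colon_ev`. -/
theorem reg_union_var {A : Set (V → ℕ)} (hA : IsUpperSet A) (x : V) {r : ℕ} (hr : 1 ≤ r)
    (h : Reg k A r) : Reg k (A ∪ Set.Ici (ev x)) r := by
  have h1 : Reg k (Set.Ici (ev x)) r := by
    have := reg_Ici (k := k) (ev x)
    rw [regb_sum_ev] at this
    exact reg_mono hr this
  have h2 : Reg k (A ∩ Set.Ici (ev x)) (r + 1) := by
    have := reg_inter_Ici (k := k) (ev x) (reg_colon_ev hA x h)
    rwa [regb_sum_ev] at this
  exact reg_union hA (isUpperSet_Ici _) h h1 h2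

/-- Adding a set of variables (induction on the finite set `L`). -/
theorem reg_union_VI {A : Set (V → ℕ)} (hA : IsUpperSet A) (L : Set V) {r : ℕ} (hr : 1 ≤ r)
    (h : Reg k A r) : Reg k (A ∪ VI L) r := by
  classical
  have key : ∀ s : Finset V, Reg k (A ∪ VI (↑s : Set V)) r := by
    intro s
    induction s using Finset.induction_on with
    | empty =>
      have : A ∪ VI (↑(∅ : Finset V) : Set V) = A := by
        ext a
        simp [VI]
      rw [this]
      exact h
    | insert x s _ ih =>
      have : A ∪ VI (↑(insert x s) : Set V) = (A ∪ VI (↑s : Set V)) ∪ Set.Ici (ev x) := by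
        ext a
        simp only [VI, Set.mem_union, Set.mem_setOf_eq, Set.mem_Ici, regb_ev_le,
          Finset.coe_insert, Set.mem_insert_iff, Finset.mem_coe]
        constructor
        · rintro (h | ⟨v, rfl | hv, h1⟩)
          · exact Or.inl (Or.inl h)
          · exact Or.inr h1
          · exact Or.inl (Or.inr ⟨v, hv, h1⟩)
        · rintro ((h | ⟨v, hv, h1⟩) | h1)
          · exact Or.inl h
          · exact Or.inr ⟨v, Or.inr hv, h1⟩
          · exact Or.inr ⟨x, Or.inl rfl, h1⟩
      rw [this]
      exact reg_union_var (hA.union (isUpperSet_VI _)) x hr ih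
  have := key (Set.toFinite L).toFinset
  rwa [Set.Finite.coe_toFinset] at this

/-- One step of the linear quotients lemma: if `B : (x_u x_w) = (A : x_u x_w) ∪ (variables)` then adding
`x_u x_w` to `B` keeps `reg ≤ r + 1`. PROOF: `reg_union` (with `r + 1`), `reg_Ici`, `reg_inter_Ici`, `reg_colon_ev` twice,
`reg_union_VI`. -/
theorem reg_add_quadric {A B : Set (V → ℕ)} (hA : IsUpperSet A) (hB : IsUpperSet B) (u w : V)
    (L : Set V) {r : ℕ} (hr : 1 ≤ r) (h : Reg k A r) (hBr : Reg k B (r + 1))
    (hcol : colon B (ev w + ev u) = colon A (ev w + ev u) ∪ VI L) :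
    Reg k (B ∪ Set.Ici (ev w + ev u)) (r + 1) := by
  have hsum : ∑ v, (ev w + ev u) v = 2 := by
    simp only [Pi.add_apply, Finset.sum_add_distrib, regb_sum_ev]
  have h1 : Reg k (Set.Ici (ev w + ev u)) (r + 1) := by
    have := reg_Ici (k := k) (ev w + ev u)
    rw [hsum] at this
    exact reg_mono (by omega) this
  have hcA : colon A (ev w + ev u) = colon (colon A (ev u)) (ev w) := by
    ext a
    simp only [colon, Set.mem_setOf_eq, add_assoc]
  have h2 : Reg k (colon B (ev w + ev u)) r := by
    rw [hcol]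
    refine reg_union_VI (isUpperSet_colon hA _) L hr ?_
    rw [hcA]
    exact reg_colon_ev (isUpperSet_colon hA _) w (reg_colon_ev hA u h)
  have h3 : Reg k (B ∩ Set.Ici (ev w + ev u)) (r + 1 + 1) := by
    have := reg_inter_Ici (k := k) (ev w + ev u) h2
    rwa [hsum] at this
  exact reg_union hB (isUpperSet_Ici _) hBr h1 h3

end Pool.Agent.MP_9b0fed_al
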