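import Pool.Agent.Lib.MP_9b0fed_al.RegB

/-!
# MP_9b0fed_al JOB REGC: sums of ideals with linear quotients
-/

set_option autoImplicit false

open Finset

namespace Pool.Agent.MP_9b0fed_al

variable {V : Type} [Fintype V] [LinearOrder V] {k : Type*} [Field k]

omit [Fintype V] in
private theorem regc_ev_le {a : V → ℕ} {v : V} : ev v ≤ a ↔ 1 ≤ a v := by
  unfold ev
  constructor
  · intro h
    have := h v
    rwa [Pi.single_eq_same] at this
  · intro h w
    by_cases hw : w = v
    · subst hw; rwa [Pi.single_eq_same]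
    · rw [Pi.single_eq_of_ne hw]; exact Nat.zero_le _

omit [Fintype V] in
private theorem regc_ev_same (v : V) : ev v v = 1 := by
  unfold ev; exact Pi.single_eq_same _ _

omit [Fintype V] in
private theorem regc_ev_ne {v w : V} (h : w ≠ v) : ev v w = 0 := by
  unfold ev; exact Pi.single_eq_of_ne h _

/-- the ideal generated by the relations with one end in `U` -/
private def regcP (R : V → V → Prop) (U : Finset V) : Set (V → ℕ) :=
  {a | ∃ r ∈ U, ∃ s, R r s ∧ ev r + ev s ≤ a}

private def regcS (R : V → V → Prop) (w : V) (T : Finset V) : Set (V → ℕ) :=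
  {a | ∃ v ∈ T, R w v ∧ ev w + ev v ≤ a}

omit [Fintype V] in
private theorem regcP_upper (R : V → V → Prop) (U : Finset V) : IsUpperSet (regcP R U) := by
  rintro a b hab ⟨r, hr, s, hrs, hle⟩
  exact ⟨r, hr, s, hrs, hle.trans hab⟩

omit [Fintype V] in
private theorem regcS_upper (R : V → V → Prop) (w : V) (T : Finset V) :
    IsUpperSet (regcS R w T) := by
  rintro a b hab ⟨v, hv, hwv, hle⟩
  exact ⟨v, hv, hwv, hle.trans hab⟩

private def regcInv (R : V → V → Prop) (U : Finset V) : Prop :=
  ∀ r ∈ U, ∀ p, p ∉ U → ∀ q, q ∉ U → R p q → R r p ∨ R r q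

omit [Fintype V] in
private theorem regc_colon {A : Set (V → ℕ)} (R : V → V → Prop) (U T : Finset V) (w u : V)
    (hI : regcInv R U) (hw : w ∉ U) (hu : u ∉ U) (hwu : R w u) (huT : u ∉ T) :
    colon (A ∪ regcP R U ∪ regcS R w T) (ev w + ev u) = colon A (ev w + ev u) ∪
      VI {v | (v ∈ T ∧ R w v) ∨ (v ∈ U ∧ (R v w ∨ R v u))} := by
  ext a
  constructor
  · rintro ((h | ⟨r, hr, s, hrs, hle⟩) | ⟨v, hv, hwv, hle⟩)
    · exact Or.inl h
    · right
      refine ⟨r, Or.inr ⟨hr, hI r hr w hw u hu hwu⟩, ?_⟩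
      have h1 := hle r
      have hrw : r ≠ w := fun e => hw (e ▸ hr)
      have hru : r ≠ u := fun e => hu (e ▸ hr)
      simp only [Pi.add_apply] at h1
      rw [regc_ev_same, regc_ev_ne hrw, regc_ev_ne hru] at h1
      omega
    · right
      refine ⟨v, Or.inl ⟨hv, hwv⟩, ?_⟩
      have h1 := hle v
      have hvu : v ≠ u := fun e => huT (e ▸ hv)
      simp only [Pi.add_apply] at h1
      rw [regc_ev_same, regc_ev_ne hvu] at h1
      omega
  · rintro (h | ⟨v, hv, hav⟩)
    · exact Or.inl (Or.inl h)
    · have hav' : ev v ≤ a := regc_ev_le.mpr hav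
      rcases hv with ⟨hvT, hwv⟩ | ⟨hvU, hvw | hvu⟩
      · right
        refine ⟨v, hvT, hwv, ?_⟩
        intro x
        have h9 : ev v x ≤ a x := hav' x
        simp only [Pi.add_apply]
        omega
      · left; right
        refine ⟨v, hvU, w, hvw, ?_⟩
        intro x
        have h9 : ev v x ≤ a x := hav' x
        simp only [Pi.add_apply]
        omega
      · left; right
        refine ⟨v, hvU, u, hvu, ?_⟩
        intro x
        have h9 : ev v x ≤ a x := hav' x
        simp only [Pi.add_apply]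
        omega

private theorem regc_inner {A : Set (V → ℕ)} (hA : IsUpperSet A) (R : V → V → Prop)
    {r : ℕ} (hr : 1 ≤ r) (h : Reg k A r) (U : Finset V) (w : V) (hI : regcInv R U) (hw : w ∉ U)
    (hB : Reg k (A ∪ regcP R U) (r + 1)) (T : Finset V) (hT : ∀ v ∈ T, v ∉ U) :
    Reg k (A ∪ regcP R U ∪ regcS R w T) (r + 1) := by
  induction T using Finset.induction_on with
  | empty =>
    have : regcS R w ∅ = ∅ := by
      ext a; simp [regcS]
    rw [this, Set.union_empty]
    exact hB
  | insert u T huT ih =>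
    have ih' := ih (fun v hv => hT v (Finset.mem_insert_of_mem hv))
    have hu : u ∉ U := hT u (Finset.mem_insert_self u T)
    by_cases hwu : R w u
    · have e : A ∪ regcP R U ∪ regcS R w (insert u T) =
          (A ∪ regcP R U ∪ regcS R w T) ∪ Set.Ici (ev w + ev u) := by
        have e1 : regcS R w (insert u T) = regcS R w T ∪ Set.Ici (ev w + ev u) := by
          ext a
          constructor
          · rintro ⟨v, hv, hwv, hle⟩
            rcases Finset.mem_insert.mp hv with rfl | hv
            · exact Or.inr hle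
            · exact Or.inl ⟨v, hv, hwv, hle⟩
          · rintro (⟨v, hv, hwv, hle⟩ | hle)
            · exact ⟨v, Finset.mem_insert_of_mem hv, hwv, hle⟩
            · exact ⟨u, Finset.mem_insert_self u T, hwu, hle⟩
        rw [e1, Set.union_assoc (A ∪ regcP R U)]
      rw [e]
      exact reg_add_quadric hA (((hA.union (regcP_upper R U))).union (regcS_upper R w T)) u w _ hr h
        ih' (regc_colon R U T w u hI hw hu hwu huT)
    · have e1 : regcS R w (insert u T) = regcS R w T := by
        ext a
        constructor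
        · rintro ⟨v, hv, hwv, hle⟩
          rcases Finset.mem_insert.mp hv with rfl | hv
          · exact absurd hwv hwu
          · exact ⟨v, hv, hwv, hle⟩
        · rintro ⟨v, hv, hwv, hle⟩
          exact ⟨v, Finset.mem_insert_of_mem hv, hwv, hle⟩
      rw [e1]
      exact ih'

private theorem regc_outer {A : Set (V → ℕ)} (hA : IsUpperSet A) (R : V → V → Prop)
    (hs : ∀ u v, R u v → R v u) (hE : EE R) {r : ℕ} (hr : 1 ≤ r) (h : Reg k A r) (n : ℕ) :
    ∀ U : Finset V, (Uᶜ).card = n → regcInv R U → Reg k (A ∪ regcP R U) (r + 1) →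
      Reg k (A ∪ QI R) (r + 1) := by
  induction n with
  | zero =>
    intro U hU _ hB
    have hU' : U = Finset.univ := by
      rw [Finset.card_eq_zero] at hU
      exact (Finset.compl_eq_empty_iff U).mp hU
    have e : regcP R U = QI R := by
      ext a
      constructor
      · rintro ⟨r', _, s, hrs, hle⟩
        exact ⟨r', s, hrs, hle⟩
      · rintro ⟨r', s, hrs, hle⟩
        exact ⟨r', by rw [hU']; exact Finset.mem_univ _, s, hrs, hle⟩
    rw [e] at hB
    exact hB
  | succ n ih =>
    intro U hU hI hB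
    have hne : (Uᶜ).Nonempty := by
      rw [← Finset.card_pos]; omega
    obtain ⟨w, hwW, hwE⟩ := hE Uᶜ hne
    have hw : w ∉ U := Finset.mem_compl.mp hwW
    have hin := regc_inner hA R hr h U w hI hw hB Uᶜ (fun v hv => Finset.mem_compl.mp hv)
    have e : A ∪ regcP R U ∪ regcS R w Uᶜ = A ∪ regcP R (insert w U) := by
      rw [Set.union_assoc]
      congr 1
      ext a
      constructor
      · rintro (⟨r', hr', s, hrs, hle⟩ | ⟨v, _, hwv, hle⟩)
        · exact ⟨r', Finset.mem_insert_of_mem hr', s, hrs, hle⟩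
        · exact ⟨w, Finset.mem_insert_self w U, v, hwv, hle⟩
      · rintro ⟨r', hr', s, hrs, hle⟩
        rcases Finset.mem_insert.mp hr' with rfl | hr'
        · by_cases hsU : s ∈ U
          · left
            refine ⟨s, hsU, r', hs _ _ hrs, ?_⟩
            rw [add_comm]; exact hle
          · right
            exact ⟨s, Finset.mem_compl.mpr hsU, hrs, hle⟩
        · exact Or.inl ⟨r', hr', s, hrs, hle⟩
    rw [e] at hin
    apply ih (insert w U) _ _ hin
    · rw [Finset.card_compl, Finset.card_insert_of_notMem hw]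
      rw [Finset.card_compl] at hU
      omega
    · intro r' hr' p hp q hq hpq
      have hp' : p ≠ w ∧ p ∉ U := by
        constructor
        · rintro rfl; exact hp (Finset.mem_insert_self _ _)
        · intro hc; exact hp (Finset.mem_insert_of_mem hc)
      have hq' : q ≠ w ∧ q ∉ U := by
        constructor
        · rintro rfl; exact hq (Finset.mem_insert_self _ _)
        · intro hc; exact hq (Finset.mem_insert_of_mem hc)
      rcases Finset.mem_insert.mp hr' with rfl | hr'
      · exact hwE p (Finset.mem_compl.mpr hp'.2) q (Finset.mem_compl.mpr hq'.2) hp'.1 hq'.1 hpq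
      · exact hI r' hr' p hp'.2 q hq'.2 hpq

/-- Adding the quadratic ideal of a relation with the elimination property raises the regularity by at most `1`.
PROOF. Induction. State for a pair `(U, W)` with `U` = processed vertices, `W = Uᶜ`:
`Inv U : ∀ r ∈ U, ∀ p ∉ U, ∀ q ∉ U, R p q → R r p ∨ R r q` and
`B U := A ∪ {a | ∃ r ∈ U, ∃ s, R r s ∧ ev r + ev s ≤ a}`, `Reg (B U) (r + 1)`. Start with `U = ∅`, end with `U = univ`.
Step: `EE` for `W = Uᶜ` gives `w`, new `U' = insert w U` satisfies `Inv`. To pass from `B U` to `B U'` add the monomials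
`ev w + ev u`, `u ∉ U`, `R w u`, one by one (inner induction on the finite set `T ⊆ Uᶜ` of the treated `u`);
(edges `w s` with `s ∈ U` are already in `B U` by symmetry). For `u ∉ T`, `u ∉ U`, `R w u`:
`colon (B U ∪ {a | ∃ v ∈ T, R w v ∧ ev w + ev v ≤ a}) (ev w + ev u) = colon A (ev w + ev u) ∪ VI L`,
`L = {v | v ∈ T ∧ R w v} ∪ {r | r ∈ U ∧ (R r w ∨ R r u)}`:
(⊆) `ev r + ev s ≤ a + ev w + ev u` with `r ∈ U` gives `1 ≤ a r` (`r ≠ w, u`) and `Inv` gives `R r w ∨ R r u`;
`ev w + ev v ≤ a + ev w + ev u` with `v ≠ u` gives `1 ≤ a v`. (⊇) clear. Use `reg_add_quadric`. -/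
theorem reg_union_QI {A : Set (V → ℕ)} (hA : IsUpperSet A) (R : V → V → Prop)
    (hs : ∀ u v, R u v → R v u) (hE : EE R) {r : ℕ} (hr : 1 ≤ r) (h : Reg k A r) :
    Reg k (A ∪ QI R) (r + 1) := by
  apply regc_outer hA R hs hE hr h _ ∅ rfl
  · intro r' hr'
    simp at hr'
  · have : regcP R ∅ = ∅ := by
      ext a; simp [regcP]
    rw [this, Set.union_empty]
    exact reg_mono (Nat.le_succ r) h

/-- `t` relations with the elimination property and some variables. PROOF: start with `∅ ∪ VI L` (`reg_empty`,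
`reg_union_VI`, `r = 1`), add the `QI (R l)` one by one (induction on `t`, `Fin.snoc`/`Fin.castSucc`, or on a finset of indices). -/
theorem reg_sum {t : ℕ} (R : Fin t → V → V → Prop) (hs : ∀ l u v, R l u v → R l v u)
    (hE : ∀ l, EE (R l)) (L : Set V) :
    Reg k (VI L ∪ QI (fun u v => ∃ l, R l u v)) (t + 1) := by
  induction t with
  | zero =>
    have h1 : Reg k ((∅ : Set (V → ℕ)) ∪ VI L) 1 :=
      reg_union_VI isUpperSet_empty L le_rfl (reg_empty 1)
    have e : VI L ∪ QI (fun u v => ∃ l, R l u v) = (∅ : Set (V → ℕ)) ∪ VI L := by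
      ext a
      constructor
      · rintro (h | ⟨u, v, ⟨l, -⟩, -⟩)
        · exact Or.inr h
        · exact l.elim0
      · rintro (h | h)
        · exact h.elim
        · exact Or.inl h
    rw [e]
    exact h1
  | succ t ih =>
    have h1 := ih (fun l => R l.castSucc) (fun l => hs _) (fun l => hE _)
    have h2 := reg_union_QI ((isUpperSet_VI L).union (isUpperSet_QI _)) (R (Fin.last t))
      (hs _) (hE _) (by omega) h1
    have e : VI L ∪ QI (fun u v => ∃ l, R l u v) =
        (VI L ∪ QI (fun u v => ∃ l : Fin t, R l.castSucc u v)) ∪ QI (R (Fin.last t)) := by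
      ext a
      constructor
      · rintro (h | ⟨u, v, ⟨l, hl⟩, ha⟩)
        · exact Or.inl (Or.inl h)
        · rcases Fin.eq_castSucc_or_eq_last l with ⟨j, rfl⟩ | rfl
          · exact Or.inl (Or.inr ⟨u, v, ⟨j, hl⟩, ha⟩)
          · exact Or.inr ⟨u, v, hl, ha⟩
      · rintro ((h | ⟨u, v, ⟨l, hl⟩, ha⟩) | ⟨u, v, hl, ha⟩)
        · exact Or.inl h
        · exact Or.inr ⟨u, v, ⟨_, hl⟩, ha⟩
        · exact Or.inr ⟨u, v, ⟨_, hl⟩, ha⟩
    rw [e]
    exact h2

end Pool.Agent.MP_9b0fed_al
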