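import Pool.Agent.Lib.MP_9b0fed_al.Basic

/-!
# MP_9b0fed_al JOB STEP: adding a complete multipartite graph
-/

set_option autoImplicit false

open Finset

namespace Pool.Agent.MP_9b0fed_al

/-- `H` together with all pairs whose vectors `(p1, p2)` are linearly independent. -/
def addGraph {ι : Type} {K : Type} [Field K] (H : SimpleGraph ι) (p1 p2 : ι → K) :
    SimpleGraph ι where
  Adj i j := H.Adj i j ∨ p1 i * p2 j ≠ p1 j * p2 i
  symm := ⟨fun _ _ h => h.elim (fun h => Or.inl h.symm) (fun h => Or.inr (Ne.symm h))⟩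
  loopless := ⟨fun _ h => h.elim (fun h => H.irrefl h) (fun h => h rfl)⟩

private theorem step_trans {K : Type} [Field K] (w1 w2 a1 a2 b1 b2 : K) (hw : ¬ (w1 = 0 ∧ w2 = 0))
    (ha : w1 * a2 = a1 * w2) (hb : w1 * b2 = b1 * w2) : a1 * b2 = b1 * a2 := by
  by_cases h1 : w1 = 0
  · have h2 : w2 ≠ 0 := fun h => hw ⟨h1, h⟩
    apply mul_left_cancel₀ h2
    linear_combination (-b2) * ha + a2 * hb
  · apply mul_left_cancel₀ h1
    linear_combination a1 * hb - b1 * ha

private theorem step_not {ι : Type} {K : Type} [Field K] (H : SimpleGraph ι) (p1 p2 : ι → K)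
    (i j : ι) : ¬ (addGraph H p1 p2).Adj i j ↔ ¬ H.Adj i j ∧ p1 i * p2 j = p1 j * p2 i := by
  show ¬ (H.Adj i j ∨ p1 i * p2 j ≠ p1 j * p2 i) ↔ _
  tauto

/-- THE STEP. PROOF. Let `Z0 = {i | p1 i = 0 ∧ p2 i = 0}`. Two distinct elements `z, z'` of `Z0 ∩ (U \ {x, y})` are not `H`-adjacent: otherwise
`DD H U` for `W = {x, y, z, z'}`, `Z = ∅` fails (`x, y` are not adjacent to `z, z'` as `p1 z = p2 z = 0`; `x ~ y`, `z ~ z'`).
Parallelism `p1 i * p2 j = p1 j * p2 i` is an equivalence relation on nonzero vectors. Given `W, Z` for `addGraph`.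
Case 1: there is `i ∈ W`, `(p1 i, p2 i) ≠ 0`, such that no `z ∈ Z` has `(p1 z, p2 z) ≠ 0` parallel to it. Let `W' = {j ∈ W | p j = 0 or p j ∥ p i}`,
`Z' = {j ∈ W | p j = 0}` (`H`-independent, `≠ W'`). `DD H U` gives `w ∈ W' \ Z'`; `w ∉ Z`; a vertex `a ∈ W` not adjacent to `w` in
`addGraph` has `p a = 0` or `p a ∥ p w`, so `a ∈ W'`; for two such `a, b` also `p a ∥ p b` or one is `0`.
Case 2: otherwise any two `i, j ∈ W` with `p ≠ 0` are parallel (each is parallel to an element of `Z`, and the elements of `Z` are pairwise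
parallel since `Z` is independent in `addGraph`), so `addGraph` and `H` have the same adjacency on `W`; use `DD H U` for `W, Z`. -/
theorem dd_step {ι : Type} {K : Type} [Field K] (H : SimpleGraph ι) (U : Set ι) (hD : DD H U)
    (x y : ι) (hx : x ∈ U) (hy : y ∈ U) (hxy : H.Adj x y) (p1 p2 : ι → K)
    (h1 : ∀ i ∈ U, i ≠ x → i ≠ y → H.Adj x i → p1 i ≠ 0)
    (h2 : ∀ i ∈ U, i ≠ x → i ≠ y → H.Adj y i → p2 i ≠ 0) :
    DD (addGraph H p1 p2) (U \ {x, y}) := by
  classical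
  have h0 : ∀ z ∈ U \ {x, y}, ∀ z' ∈ U \ {x, y}, (p1 z = 0 ∧ p2 z = 0) →
      (p1 z' = 0 ∧ p2 z' = 0) → ¬ H.Adj z z' := by
    intro z hz z' hz' hP hP' hadj
    have hzx : z ≠ x := fun h => hz.2 (by simp [h])
    have hzy : z ≠ y := fun h => hz.2 (by simp [h])
    have hzx' : z' ≠ x := fun h => hz'.2 (by simp [h])
    have hzy' : z' ≠ y := fun h => hz'.2 (by simp [h])
    have n1 : ¬ H.Adj x z := fun h => h1 z hz.1 hzx hzy h hP.1
    have n1' : ¬ H.Adj x z' := fun h => h1 z' hz'.1 hzx' hzy' h hP'.1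
    have n2 : ¬ H.Adj y z := fun h => h2 z hz.1 hzx hzy h hP.2
    have n2' : ¬ H.Adj y z' := fun h => h2 z' hz'.1 hzx' hzy' h hP'.2
    obtain ⟨w, hw, _, hprop⟩ := hD {x, y, z, z'} ∅ (by
      intro i hi
      simp only [Finset.mem_insert, Finset.mem_singleton] at hi
      rcases hi with rfl | rfl | rfl | rfl
      · exact hx
      · exact hy
      · exact hz.1
      · exact hz'.1) (Finset.empty_subset _) (by
      intro h
      have : x ∈ (∅ : Finset ι) := by rw [h]; simp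
      simp at this) (by simp)
    simp only [Finset.mem_insert, Finset.mem_singleton] at hw
    rcases hw with rfl | rfl | rfl | rfl
    · exact hprop z (by simp) z' (by simp) hzx hzx' n1 n1' hadj
    · exact hprop z (by simp) z' (by simp) hzy hzy' n2 n2' hadj
    · exact hprop x (by simp) y (by simp) hzx.symm hzy.symm (fun h => n1 h.symm)
        (fun h => n2 h.symm) hxy
    · exact hprop x (by simp) y (by simp) hzx'.symm hzy'.symm (fun h => n1' h.symm)
        (fun h => n2' h.symm) hxy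
  intro W Z hW hZW hne hZ
  have hZ' : ∀ a ∈ Z, ∀ b ∈ Z, ¬ H.Adj a b ∧ p1 a * p2 b = p1 b * p2 a := fun a ha b hb =>
    (step_not H p1 p2 a b).1 (hZ a ha b hb)
  by_cases hcase : ∃ i ∈ W, ¬ (p1 i = 0 ∧ p2 i = 0) ∧
      ∀ z ∈ Z, ¬ (p1 z = 0 ∧ p2 z = 0) → ¬ (p1 z * p2 i = p1 i * p2 z)
  · obtain ⟨i, hiW, hi0, hiZ⟩ := hcase
    obtain ⟨w, hw, hwZ, hprop⟩ := hD
      (W.filter (fun j => (p1 j = 0 ∧ p2 j = 0) ∨ p1 j * p2 i = p1 i * p2 j))
      (W.filter (fun j => p1 j = 0 ∧ p2 j = 0))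
      (fun j hj => (hW j (Finset.mem_filter.1 hj).1).1)
      (by
        intro j hj
        rw [Finset.mem_filter] at hj ⊢
        exact ⟨hj.1, Or.inl hj.2⟩)
      (by
        intro h
        have hm : i ∈ W.filter (fun j => (p1 j = 0 ∧ p2 j = 0) ∨ p1 j * p2 i = p1 i * p2 j) := by
          rw [Finset.mem_filter]
          exact ⟨hiW, Or.inr rfl⟩
        rw [← h, Finset.mem_filter] at hm
        exact hi0 hm.2)
      (by
        intro a ha b hb
        rw [Finset.mem_filter] at ha hb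
        exact h0 a (hW a ha.1) b (hW b hb.1) ha.2 hb.2)
    rw [Finset.mem_filter] at hw
    have hw0 : ¬ (p1 w = 0 ∧ p2 w = 0) := fun h => hwZ (Finset.mem_filter.2 ⟨hw.1, h⟩)
    have hwi : p1 w * p2 i = p1 i * p2 w := by
      rcases hw.2 with h | h
      · exact absurd h hw0
      · exact h
    refine ⟨w, hw.1, ?_, ?_⟩
    · intro hwZ'
      exact hiZ w hwZ' hw0 hwi
    · intro a ha b hb haw hbw hna hnb
      rw [step_not] at hna hnb ⊢
      have hmem : ∀ c ∈ W, p1 w * p2 c = p1 c * p2 w →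
          c ∈ W.filter (fun j => (p1 j = 0 ∧ p2 j = 0) ∨ p1 j * p2 i = p1 i * p2 j) := by
        intro c hc hwc
        rw [Finset.mem_filter]
        exact ⟨hc, Or.inr (step_trans _ _ _ _ _ _ hw0 hwc hwi)⟩
      exact ⟨hprop a (hmem a ha hna.2) b (hmem b hb hnb.2) haw hbw hna.1 hnb.1,
        step_trans _ _ _ _ _ _ hw0 hna.2 hnb.2⟩
  · have hcase' : ∀ i ∈ W, ¬ (p1 i = 0 ∧ p2 i = 0) →
        ∃ z ∈ Z, ¬ (p1 z = 0 ∧ p2 z = 0) ∧ p1 z * p2 i = p1 i * p2 z := by
      intro i hi hi0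
      by_contra hcon
      apply hcase
      refine ⟨i, hi, hi0, ?_⟩
      intro z hz hz0 hpar
      exact hcon ⟨z, hz, hz0, hpar⟩
    have hpar : ∀ i ∈ W, ∀ j ∈ W, p1 i * p2 j = p1 j * p2 i := by
      intro i hi j hj
      by_cases hi0 : p1 i = 0 ∧ p2 i = 0
      · rw [hi0.1, hi0.2, zero_mul, mul_zero]
      by_cases hj0 : p1 j = 0 ∧ p2 j = 0
      · rw [hj0.1, hj0.2, zero_mul, mul_zero]
      obtain ⟨z, hz, hz0, hzi⟩ := hcase' i hi hi0
      obtain ⟨z', hz', hz0', hzj⟩ := hcase' j hj hj0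
      have e1 := step_trans _ _ _ _ _ _ hz0 hzi (hZ' z hz z' hz').2
      exact step_trans _ _ _ _ _ _ hz0' e1.symm hzj
    obtain ⟨w, hw, hwZ, hprop⟩ := hD W Z (fun i hi => (hW i hi).1) hZW hne
      (fun a ha b hb => (hZ' a ha b hb).1)
    refine ⟨w, hw, hwZ, ?_⟩
    intro a ha b hb haw hbw hna hnb
    rw [step_not] at hna hnb ⊢
    exact ⟨hprop a ha b hb haw hbw hna.1 hnb.1, hpar a ha b hb⟩

end Pool.Agent.MP_9b0fed_al
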